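import Mathlib

/-!
# PP5LR: section D (4e) of LB5 (MP_0f260b_nt), version 2 (`w`-rough seeds): definitions

`D` is an odd integer (a discriminant), `jj D m = (D / m)`.
-/

set_option autoImplicit false

namespace Pool.Agent.PP5LR

open Finset

/-- `(D / m)` as a real number -/
noncomputable def jj (D : ℤ) (m : ℕ) : ℝ := (jacobiSym D m : ℝ)

/-- all prime factors `> w` -/
def Rf (w : ℝ) (m : ℕ) : Prop := ∀ p : ℕ, p.Prime → p ∣ m → w < (p : ℝ)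

/-- odd, squarefree, all prime factors `> w` -/
def Rg (w : ℝ) (m : ℕ) : Prop := Squarefree m ∧ Odd m ∧ ∀ p : ℕ, p.Prime → p ∣ m → w < (p : ℝ)

open Classical in
/-- a family of discriminants `D x`, `x ∈ X` -/
structure Fam {ι : Type} (X : Finset ι) (D : ι → ℤ) (e f : ℕ → ℝ) (w R δ C A : ℝ) : Prop where
  odd : ∀ x ∈ X, Odd (D x)
  le : ∀ x ∈ X, |(D x : ℝ)| ≤ R ^ A
  ea : ∀ p : ℕ, p.Prime → w < (p : ℝ) → |e p| ≤ C / p
  fa : ∀ p : ℕ, p.Prime → w < (p : ℝ) → 0 ≤ f p ∧ f p ≤ 1 ∧ 1 - f p ≤ C / p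
  mean : ∀ m g : ℕ, Rg w m → Rg w g → Nat.Coprime m g → ((m * g : ℕ) : ℝ) ≤ R ^ δ →
    |∑ x ∈ X, (if Int.gcd (D x) g = 1 then jj (D x) m else 0)
      - X.card * ((∏ p ∈ m.primeFactors, e p) * ∏ p ∈ g.primeFactors, f p)| ≤ X.card * R ^ (-δ)

open Classical in
/-- the number of square roots of `D` modulo `n`, if `n` is odd and prime to `D` -/
noncomputable def rr (D : ℤ) (n : ℕ) : ℝ := ∑ d ∈ n.divisors.filter Squarefree, jj D d

open Classical in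
/-- the number of seeds -/
noncomputable def JJ (w : ℝ) (D : ℤ) (N : ℕ) : ℝ :=
  ∑ n ∈ (Ioc (N / 2) N).filter (fun n : ℕ => Rf w n ∧ Int.gcd D (n : ℤ) = 1), rr D n

open Classical in
noncomputable def TT (w : ℝ) (D : ℤ) (Y : ℝ) : ℝ := ∑ n ∈ (Ioc ⌊Y / 2⌋₊ ⌊Y⌋₊).filter (Rf w), rr D n

open Classical in
noncomputable def LL (w : ℝ) (D : ℤ) (z : ℕ) : ℝ := ∑ d ∈ (Icc 1 z).filter (Rg w), jj D d / d

open Classical in
noncomputable def VV (w : ℝ) (D : ℤ) (a b : ℕ) : ℝ := ∑ d ∈ (Ioc a b).filter (Rg w), jj D d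

open Classical in
/-- the error term of the hyperbola method -/
noncomputable def Er (w : ℝ) (D : ℤ) (z : ℕ) (Y : ℝ) : ℝ :=
  ∑ m ∈ (Icc 1 ⌊Y / z⌋₊).filter (Rf w), |VV w D (max z ⌊Y / (2 * m)⌋₊) ⌊Y / m⌋₊|

/-- `∏ (1 - 1 / p)` over the primes `p ≤ w` -/
noncomputable def Vw (w : ℝ) : ℝ := ∏ p ∈ (Icc 2 ⌊w⌋₊).filter Nat.Prime, (1 - 1 / (p : ℝ))

open Classical in
/-- the primes `w < p ≤ P` dividing `D` -/
noncomputable def Dp (w : ℝ) (D : ℤ) (P : ℕ) : Finset ℕ :=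
  (Icc 1 P).filter (fun p : ℕ => p.Prime ∧ w < (p : ℝ) ∧ (p : ℤ) ∣ D)

end Pool.Agent.PP5LR
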