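import Pool.Agent.PP5LR.FnC

/-!
# Fin: the lower bound for the number of seeds
-/

set_option autoImplicit false

namespace Pool.Agent.PP5LR

open Finset Filter

theorem fin_main {δ C A κ K1 K2 d0 ε0 w R : ℝ} (hw : 2 ≤ w) (hA : 1 ≤ A) (hd00 : 0 < d0) (hd01 : d0 ≤ δ / 4) (hd02 : d0 ≤ 1 / 4)
    (hK1 : 0 < K1) (hK2 : 1 ≤ K2) (hε0 : ε0 = 1 / (32 * K2)) (hr1 : 1 ≤ R)
    (r7 : 4 ≤ R ^ d0)
    (r8 : 12 * 4 ^ (⌊w⌋₊ + 1) * R ^ (-(1 / 2) : ℝ) * (1 + A * Real.log R) ^ 2 ≤ Vw w / 400)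
    (r9 : 3 * K1 * R ^ (-κ) * (1 + A * Real.log R) ^ 2 ≤ Vw w / 400)
    (r10 : (4 * A / d0 + 4) * R ^ (-d0) * (1 + A * Real.log R) ^ 2 ≤ Vw w / 400)
    {ι : Type} [DecidableEq ι] {X : Finset ι} {D : ι → ℤ} {e f : ℕ → ℝ} (hF : Fam X D e f w R δ C A)
    (H : ∀ a b : ℕ, R ^ d0 ≤ (b : ℝ) → (b : ℝ) ≤ R ^ A → ∑ x ∈ X, |VV w (D x) a b| ≤ K1 * X.card * b * R ^ (-κ))
    (hL1 : ∀ z : ℕ, 1 ≤ z → (z : ℝ) ≤ R ^ δ → (X.card : ℝ) / 2 ≤ ∑ x ∈ X, LL w (D x) z)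
    (hL2 : ∀ z : ℕ, (z : ℝ) ^ 2 ≤ R ^ δ → ∑ x ∈ X, LL w (D x) z ^ 2 ≤ K2 * X.card)
    {N : ℕ} (hN1 : R ≤ (N : ℝ)) (hN2 : (N : ℝ) ≤ R ^ A) {Y Y1 : Finset ι} (hYX : Y ⊆ X) (hY1X : Y1 ⊆ X)
    (hY : (Y.card : ℝ) ≤ ε0 * X.card) (hY1c : (Y1.card : ℝ) ≤ ε0 * X.card)
    (hY1 : ∀ x ∈ X, x ∉ Y1 → ∑ p ∈ Dp w (D x) ⌊R ^ d0⌋₊, (1 : ℝ) / p ≤ 1 / 2) :
    1 / 64 * X.card * N * Vw w ≤ ∑ x ∈ X \ Y, JJ w (D x) N := by
  have hRp : 0 < R := by linarith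
  have hRd4 : (R ^ d0) ^ 4 ≤ R ^ δ := by
    rw [← Real.rpow_natCast, ← Real.rpow_mul hRp.le]
    apply Real.rpow_le_rpow_of_exponent_le hr1
    push_cast; linarith
  have hRd4' : (R ^ d0) ^ 4 ≤ R := by
    rw [← Real.rpow_natCast, ← Real.rpow_mul hRp.le]
    calc R ^ (d0 * ((4 : ℕ) : ℝ)) ≤ R ^ (1 : ℝ) := by
          apply Real.rpow_le_rpow_of_exponent_le hr1
          push_cast; linarith
      _ = R := Real.rpow_one R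
  have hlR : 0 ≤ Real.log R := Real.log_nonneg hr1
  obtain ⟨⟨hz3, hz1, hzz, hzδ⟩, ⟨hP1, hP2, hP3, hPδ, hPN'⟩, hzPu, hzPN⟩ :=
    fin_zP r7 hRd4 hRd4' hN1
  obtain ⟨u, hu⟩ : ∃ u, u = R ^ d0 := ⟨_, rfl⟩
  rw [← hu] at hz3 hz1 hzz hzδ hP1 hP2 hP3 hPδ hPN' hzPu hzPN hY1 r7 H
  obtain ⟨z, hz⟩ : ∃ z, z = ⌈u⌉₊ := ⟨_, rfl⟩
  obtain ⟨P, hP⟩ : ∃ P, P = ⌊u⌋₊ := ⟨_, rfl⟩
  rw [← hz] at hz3 hz1 hzz hzδ hzPu hzPN
  rw [← hP] at hP1 hP2 hP3 hPδ hPN' hzPu hzPN hY1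
  have hN0 : (0 : ℝ) < N := by linarith
  have hN1' : (1 : ℝ) ≤ N := by linarith
  have hPN : P ≤ N := by exact_mod_cast hPN'
  have hP1n : 1 ≤ P := by
    have : (1 : ℝ) ≤ P := by linarith
    exact_mod_cast this
  have hlN : Real.log N ≤ A * Real.log R := by
    have := Real.log_le_log hN0 hN2
    rwa [Real.log_rpow hRp] at this
  obtain ⟨ℓ, hℓ⟩ : ∃ ℓ, ℓ = 1 + A * Real.log R := ⟨_, rfl⟩
  rw [← hℓ] at r8 r9 r10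
  have hℓ1 : 1 ≤ ℓ := by
    have : 0 ≤ A * Real.log R := by positivity
    linarith
  have hℓN : 1 + Real.log N ≤ ℓ := by linarith
  have hDne : ∀ x ∈ X, D x ≠ 0 := by
    intro x hx h0
    have := hF.odd x hx
    rw [h0] at this
    exact absurd this (by decide)
  obtain ⟨hE10, hE1⟩ := fin_E1 (A := A) hr1 (by linarith) hd00 hu r7 hP2 hN1' hℓN
  obtain ⟨E1, hE1d⟩ : ∃ E1, E1 = Real.log (R ^ A) / Real.log P * ((N : ℝ) / P * (1 + Real.log N)) := ⟨_, rfl⟩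
  rw [← hE1d] at hE10 hE1
  obtain ⟨Y', hY'⟩ : ∃ Y', Y' = Y ∪ Y1 := ⟨_, rfl⟩
  have hpt : ∀ x ∈ X \ Y', (N : ℝ) / 4 * Vw w * LL w (D x) z - 2 * |TT w (D x) N - N / 2 * Vw w * LL w (D x) z|
      - ∑ p ∈ (Icc 1 P).filter Nat.Prime, |TT w (D x) ((N : ℝ) / p) - (N : ℝ) / p / 2 * Vw w * LL w (D x) z|
      - E1 ≤ JJ w (D x) N := by
    intro x hx
    rw [Finset.mem_sdiff, hY', Finset.mem_union, not_or] at hx
    obtain ⟨hxX, -, hx1⟩ := hx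
    rw [hE1d]
    exact ptw (hDne x hxX) (Vw_pos w).le (by linarith) hPN (hF.le x hxX) (hY1 x hxX hx1)
  have hsub : X \ Y' ⊆ X \ Y := by
    rw [hY']; exact Finset.sdiff_subset_sdiff le_rfl Finset.subset_union_left
  have s1 : ∑ x ∈ X \ Y', JJ w (D x) N ≤ ∑ x ∈ X \ Y, JJ w (D x) N :=
    Finset.sum_le_sum_of_subset_of_nonneg hsub (fun x _ _ => JJ_nonneg _ _ _)
  have s2 := Finset.sum_le_sum hpt
  rw [Finset.sum_sub_distrib, Finset.sum_sub_distrib, Finset.sum_sub_distrib, ← Finset.mul_sum,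
    ← Finset.mul_sum, Finset.sum_comm, Finset.sum_const, nsmul_eq_mul] at s2
  have hsubX : X \ Y' ⊆ X := Finset.sdiff_subset
  have p1 : ∑ x ∈ X, |TT w (D x) N - N / 2 * Vw w * LL w (D x) z| ≤ X.card * (4 ^ (⌊w⌋₊ + 1) * z + N * (K1 * R ^ (-κ)) * ℓ) := by
    have hzN : (z : ℝ) ≤ N := by
      have h2 : (0 : ℝ) ≤ z := Nat.cast_nonneg _
      have h3 : (z : ℝ) * 1 ≤ z * P := mul_le_mul_of_nonneg_left (by linarith) h2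
      linarith
    refine (fin_err hw hr1 hK1.le (by rw [← hu]; exact H) hz3 (by rw [← hu]; exact hz1) hzN hN2 hℓN).trans
      (le_of_eq ?_)
    ring
  have p2 : ∑ p ∈ (Icc 1 P).filter Nat.Prime, ∑ x ∈ X, |TT w (D x) ((N : ℝ) / p) - (N : ℝ) / p / 2 * Vw w * LL w (D x) z| ≤
      X.card * (4 ^ (⌊w⌋₊ + 1) * z * P + N * (K1 * R ^ (-κ)) * ℓ ^ 2) := by
    refine (fin_errp hw hr1 hK1.le (by rw [← hu]; exact H) hz3 (by rw [← hu]; exact hz1) hzPN hP1n hPN' hN2 hℓN).trans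
      (le_of_eq ?_)
    ring
  have p1' : ∑ x ∈ X \ Y', |TT w (D x) N - N / 2 * Vw w * LL w (D x) z| ≤ ∑ x ∈ X, |TT w (D x) N - N / 2 * Vw w * LL w (D x) z| :=
    Finset.sum_le_sum_of_subset_of_nonneg hsubX (fun x _ _ => abs_nonneg _)
  have p2' : ∑ p ∈ (Icc 1 P).filter Nat.Prime, ∑ x ∈ X \ Y', |TT w (D x) ((N : ℝ) / p) - (N : ℝ) / p / 2 * Vw w * LL w (D x) z| ≤
      ∑ p ∈ (Icc 1 P).filter Nat.Prime, ∑ x ∈ X, |TT w (D x) ((N : ℝ) / p) - (N : ℝ) / p / 2 * Vw w * LL w (D x) z| :=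
    Finset.sum_le_sum (fun p _ => Finset.sum_le_sum_of_subset_of_nonneg hsubX (fun x _ _ => abs_nonneg _))
  have hcard : ((X \ Y').card : ℝ) ≤ X.card := by exact_mod_cast Finset.card_le_card hsubX
  have p3' : ((X \ Y').card : ℝ) * E1 ≤ X.card * E1 := mul_le_mul_of_nonneg_right hcard hE10
  have p4 : (X.card : ℝ) / 4 ≤ ∑ x ∈ X \ Y', LL w (D x) z := by
    apply fin_L hK2 hε0 _ (hL1 z hz3 hzδ) (hL2 z hzz)
    · have h4 : (Y'.card : ℝ) ≤ Y.card + Y1.card := by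
        rw [hY']; exact_mod_cast Finset.card_union_le _ _
      linarith
    · rw [hY']; exact Finset.union_subset hYX hY1X
  have hrh : 0 ≤ R ^ (-(1 / 2) : ℝ) := Real.rpow_nonneg hRp.le _
  have hRk : 0 ≤ R ^ (-κ) := Real.rpow_nonneg hRp.le _
  have hRd : 0 ≤ R ^ (-d0) := Real.rpow_nonneg hRp.le _
  have q3 : (4 * A / d0 + 4) * R ^ (-d0) * ℓ ≤ Vw w / 400 := by
    refine le_trans ?_ r10
    have : ℓ ≤ ℓ ^ 2 := by nlinarith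
    exact mul_le_mul_of_nonneg_left this (by positivity)
  have q4 : (z : ℝ) * P ≤ N * (2 * R ^ (-(1 / 2) : ℝ)) := by
    have h2 : u * u ≤ R ^ (1 / 2 : ℝ) := by
      rw [hu, ← Real.rpow_add hRp]
      apply Real.rpow_le_rpow_of_exponent_le hr1
      linarith
    have h3 : R ^ (1 / 2 : ℝ) = R * R ^ (-(1 / 2) : ℝ) := by
      nth_rewrite 2 [← Real.rpow_one R]
      rw [← Real.rpow_add hRp]; norm_num
    have h4 : R * R ^ (-(1 / 2) : ℝ) ≤ N * R ^ (-(1 / 2) : ℝ) :=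
      mul_le_mul_of_nonneg_right hN1 hrh
    calc (z : ℝ) * P ≤ 2 * u * u := hzPu
      _ = 2 * (u * u) := by ring
      _ ≤ 2 * (N * R ^ (-(1 / 2) : ℝ)) := by linarith
      _ = _ := by ring
  have q5 : (z : ℝ) ≤ N * (2 * R ^ (-(1 / 2) : ℝ)) := by
    refine le_trans ?_ q4
    have h2 : (0 : ℝ) ≤ z := Nat.cast_nonneg _
    have h3 : (z : ℝ) * 1 ≤ z * P := mul_le_mul_of_nonneg_left (by linarith) h2
    linarith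
  obtain ⟨B, hB⟩ : ∃ B : ℝ, B = 4 ^ (⌊w⌋₊ + 1) := ⟨_, rfl⟩
  have hB0 : 0 ≤ B := by rw [hB]; positivity
  rw [← hB] at r8 p1 p2
  have q4' : B * z * P ≤ N * (2 * (B * R ^ (-(1 / 2) : ℝ))) := by
    have := mul_le_mul_of_nonneg_left q4 hB0
    calc B * z * P = B * (z * P) := by ring
      _ ≤ _ := this
      _ = _ := by ring
  have q5' : B * z ≤ N * (2 * (B * R ^ (-(1 / 2) : ℝ))) := by
    have := mul_le_mul_of_nonneg_left q5 hB0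
    refine this.trans (le_of_eq ?_)
    ring
  have r8' : 12 * (B * R ^ (-(1 / 2) : ℝ)) * ℓ ^ 2 ≤ Vw w / 400 := by
    refine le_trans (le_of_eq ?_) r8
    ring
  have hfin := fin_num (c := (X.card : ℝ)) (N := (N : ℝ)) (z := B * z) (zP := B * z * P) (K1k := K1 * R ^ (-κ))
    (ℓ := ℓ) (rh := B * R ^ (-(1 / 2) : ℝ)) (E1 := E1) (q := (4 * A / d0 + 4) * R ^ (-d0) * ℓ) (v := Vw w)
    (Nat.cast_nonneg _) hN0.le hℓ1 (by positivity) (mul_nonneg hB0 hrh) (Vw_pos w).le r8'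
    (by rw [← mul_assoc]; exact r9) q3 q4' q5' hE1 (p1'.trans p1) (p2'.trans p2) p4
  linarith

open Classical in
/-- THE LOWER BOUND FOR THE NUMBER OF SEEDS -/
theorem ldx (δ C A : ℝ) (hδ : 0 < δ) (hC : 0 ≤ C) (hA : 1 ≤ A) : ∃ ε0 c w0 : ℝ, 0 < ε0 ∧ 0 < c ∧ 2 ≤ w0 ∧
    ∀ w : ℝ, w0 ≤ w → ∃ R0 : ℝ, 1 ≤ R0 ∧ ∀ R : ℝ, R0 ≤ R →
    ∀ (ι : Type) (X : Finset ι) (D : ι → ℤ) (e f : ℕ → ℝ), Fam X D e f w R δ C A →
    ∀ N : ℕ, R ≤ (N : ℝ) → (N : ℝ) ≤ R ^ A → ∀ Y ⊆ X, (Y.card : ℝ) ≤ ε0 * X.card →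
      c * X.card * N * Vw w ≤ ∑ x ∈ X \ Y, JJ w (D x) N := by
  obtain ⟨d0, hd0⟩ : ∃ d0 : ℝ, d0 = min (δ / 4) (1 / 4) := ⟨_, rfl⟩
  have hd00 : 0 < d0 := by rw [hd0]; exact lt_min (by linarith) (by norm_num)
  have hd01 : d0 ≤ δ / 4 := by rw [hd0]; exact min_le_left _ _
  have hd02 : d0 ≤ 1 / 4 := by rw [hd0]; exact min_le_right _ _
  obtain ⟨κ, K1, hκ, hK1, hmom⟩ := mom δ C A d0 hδ hC hA hd00
  obtain ⟨w1, hw1, hlfm⟩ := lfm δ C A hδ hC hA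
  obtain ⟨K2, hK2, hlsm⟩ := lsm δ C A hδ hC hA
  have hyex := yex δ C A hδ hC hA
  obtain ⟨ε0, hε0⟩ : ∃ ε0 : ℝ, ε0 = 1 / (32 * K2) := ⟨_, rfl⟩
  have hε00 : 0 < ε0 := by rw [hε0]; positivity
  refine ⟨ε0, 1 / 64, max w1 ((4 * C + 2) / ε0), hε00, by norm_num, hw1.trans (le_max_left _ _), ?_⟩
  intro w hw
  have hww1 : w1 ≤ w := (le_max_left _ _).trans hw
  have hw2 : 2 ≤ w := hw1.trans hww1
  have hwε : (4 * C + 2) / w ≤ ε0 := by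
    have h1 : (4 * C + 2) / ε0 ≤ w := (le_max_right _ _).trans hw
    rw [div_le_iff₀ hε00] at h1
    rw [div_le_iff₀ (by linarith)]
    linarith
  obtain ⟨R1, hR1, hmom⟩ := hmom w hw2
  obtain ⟨R2, hR2, hlfm⟩ := hlfm w hww1
  obtain ⟨R3, hR3, hlsm⟩ := hlsm w hw2
  obtain ⟨R4, hR4, hyex⟩ := hyex w hw2
  have hv400 : 0 < Vw w / 400 := by
    have := Vw_pos w
    positivity
  have hev : ∀ᶠ R : ℝ in atTop, (1 ≤ R ∧ R1 ≤ R ∧ R2 ≤ R ∧ R3 ≤ R ∧ R4 ≤ R) ∧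
      4 ≤ R ^ d0 ∧
      12 * 4 ^ (⌊w⌋₊ + 1) * R ^ (-(1 / 2) : ℝ) * (1 + A * Real.log R) ^ 2 ≤ Vw w / 400 ∧
      3 * K1 * R ^ (-κ) * (1 + A * Real.log R) ^ 2 ≤ Vw w / 400 ∧
      (4 * A / d0 + 4) * R ^ (-d0) * (1 + A * Real.log R) ^ 2 ≤ Vw w / 400 := by
    have ht : Tendsto (fun R : ℝ => R ^ d0) atTop atTop := tendsto_rpow_atTop hd00
    filter_upwards [eventually_ge_atTop (1 : ℝ), eventually_ge_atTop R1, eventually_ge_atTop R2,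
      eventually_ge_atTop R3, eventually_ge_atTop R4,
      ht.eventually_ge_atTop (4 : ℝ), fin_small (12 * 4 ^ (⌊w⌋₊ + 1)) (1 / 2) A (Vw w / 400) (by norm_num) hv400,
      fin_small (3 * K1) κ A (Vw w / 400) hκ hv400,
      fin_small (4 * A / d0 + 4) d0 A (Vw w / 400) hd00 hv400] with R a1 a2 a3 a4 a5 a7 a8 a9 a10
    exact ⟨⟨a1, a2, a3, a4, a5⟩, a7, a8, a9, a10⟩
  obtain ⟨R0, hR0⟩ := Filter.eventually_atTop.1 hev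
  refine ⟨max 1 R0, le_max_left _ _, ?_⟩
  intro R hR ι X D e f hF N hN1 hN2 Y hYX hY
  obtain ⟨⟨r1, r2, r3, r4, r5⟩, r7, r8, r9, r10⟩ := hR0 R ((le_max_right _ _).trans hR)
  have hPδ : (⌊R ^ d0⌋₊ : ℝ) ≤ R ^ δ := by
    have h1 : (⌊R ^ d0⌋₊ : ℝ) ≤ R ^ d0 := Nat.floor_le (by linarith)
    have h2 : R ^ d0 ≤ R ^ δ := Real.rpow_le_rpow_of_exponent_le r1 (by linarith)
    linarith
  have hX0 : (0 : ℝ) ≤ X.card := Nat.cast_nonneg _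
  refine fin_main (Y1 := X.filter (fun x => 1 / 2 < ∑ p ∈ Dp w (D x) ⌊R ^ d0⌋₊, (1 : ℝ) / p))
    hw2 hA hd00 hd01 hd02 hK1 hK2 hε0 r1 r7 r8 r9 r10 hF (hmom R r2 ι X D e f hF)
    (hlfm R r3 ι X D e f hF) (hlsm R r4 ι X D e f hF) hN1 hN2 hYX (Finset.filter_subset _ _) hY ?_ ?_
  · exact (hyex R r5 ι X D e f hF _ hPδ).trans (mul_le_mul_of_nonneg_right hwε hX0)
  · intro x hx h
    by_contra hc
    exact h (Finset.mem_filter.2 ⟨hx, not_le.1 hc⟩)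

end Pool.Agent.PP5LR
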