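import Pool.Agent.PP5LR.Defs

/-!
# Nng: simple properties of `rr`, `TT` (difficulty 2)

`rr D n = ∏_{p | n} (1 + (D/p))` (squarefree divisors of `n` = products of subsets of `n.primeFactors`,
`Nat.sum_divisors_filter_squarefree`; `jacobiSym` multiplicative in `m`), every factor is `≥ 0`.
-/

set_option autoImplicit false

namespace Pool.Agent.PP5LR

open Finset

theorem jj_mul (D : ℤ) {a b : ℕ} (ha : a ≠ 0) (hb : b ≠ 0) : jj D (a * b) = jj D a * jj D b := by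
  unfold jj
  rw [jacobiSym.mul_right' D ha hb]
  push_cast
  ring

theorem jj_one (D : ℤ) : jj D 1 = 1 := by
  unfold jj
  rw [jacobiSym.one_right]
  simp

theorem jj_abs (D : ℤ) (m : ℕ) : |jj D m| ≤ 1 := by
  unfold jj
  rcases jacobiSym.trichotomy D m with h | h | h <;> rw [h] <;> simp

private theorem Nng_prod (D : ℤ) (s : Finset ℕ) (hs : ∀ p ∈ s, p ≠ 0) :
    jj D (∏ p ∈ s, p) = ∏ p ∈ s, jj D p := by
  classical
  induction s using Finset.induction_on with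
  | empty => simp [jj_one]
  | insert a s ha ih =>
    rw [Finset.prod_insert ha, Finset.prod_insert ha, jj_mul D (hs a (Finset.mem_insert_self _ _))
      (Finset.prod_ne_zero_iff.2 fun p hp => hs p (Finset.mem_insert_of_mem hp)),
      ih fun p hp => hs p (Finset.mem_insert_of_mem hp)]

theorem jj_prod (D : ℤ) {d : ℕ} (hd : Squarefree d) : jj D d = ∏ p ∈ d.primeFactors, jj D p := by
  conv_lhs => rw [← Nat.prod_primeFactors_of_squarefree hd]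
  exact Nng_prod D _ fun p hp => (Nat.prime_of_mem_primeFactors hp).ne_zero

theorem rr_prod (D : ℤ) {n : ℕ} (hn : n ≠ 0) : rr D n = ∏ p ∈ n.primeFactors, (1 + jj D p) := by
  classical
  unfold rr
  have h1 := Nat.sum_divisors_filter_squarefree (α := ℝ) hn (f := fun d => jj D d)
  have h2 : (UniqueFactorizationMonoid.normalizedFactors n).toFinset = n.primeFactors := by
    rw [Nat.factors_eq]
    rfl
  rw [h2] at h1
  rw [Finset.prod_one_add]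
  refine Eq.trans ?_ (h1.trans ?_)
  · refine Finset.sum_congr ?_ fun _ _ => rfl
    ext d
    simp
  · refine Finset.sum_congr rfl fun t ht => ?_
    have h3 : t.val.prod = ∏ p ∈ t, p := by
      rw [Finset.prod_eq_multiset_prod]
      simp
    rw [h3]
    exact Nng_prod D _ fun p hp =>
      (Nat.prime_of_mem_primeFactors (Finset.mem_powerset.1 ht hp)).ne_zero

theorem rr_nonneg (D : ℤ) (n : ℕ) : 0 ≤ rr D n := by
  rcases eq_or_ne n 0 with rfl | hn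
  · unfold rr; simp
  · rw [rr_prod D hn]
    refine Finset.prod_nonneg fun p _ => ?_
    have := (abs_le.1 (jj_abs D p)).1
    linarith

theorem rr_le (D : ℤ) (n : ℕ) : rr D n ≤ n.divisors.card := by
  classical
  unfold rr
  refine (Finset.sum_le_card_nsmul _ _ 1 fun d _ => (abs_le.1 (jj_abs D d)).2).trans ?_
  rw [nsmul_eq_mul, mul_one]
  exact_mod_cast Finset.card_filter_le _ _

/-- `p ∣ D` -/
theorem rr_mul (D : ℤ) {p n : ℕ} (hp : p.Prime) (hD : (p : ℤ) ∣ D) (hn : n ≠ 0) :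
    rr D (p * n) = rr D n := by
  classical
  have h0 : jj D p = 0 := by
    unfold jj
    have : jacobiSym D p = 0 := by
      rw [jacobiSym.eq_zero_iff]
      refine ⟨hp.ne_zero, fun h => ?_⟩
      have h1 : (p : ℕ) ∣ Int.gcd D p := by
        have := Int.dvd_coe_gcd hD (dvd_refl (p : ℤ))
        exact_mod_cast this
      rw [h] at h1
      exact hp.one_lt.ne' (Nat.dvd_one.1 h1)
    rw [this]; simp
  rw [rr_prod D (mul_ne_zero hp.ne_zero hn), rr_prod D hn, Nat.primeFactors_mul hp.ne_zero hn,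
    hp.primeFactors]
  by_cases h : p ∈ n.primeFactors
  · rw [Finset.union_eq_right.2 (Finset.singleton_subset_iff.2 h)]
  · rw [← Finset.insert_eq, Finset.prod_insert h, h0]
    simp

theorem TT_nonneg (w : ℝ) (D : ℤ) (Y : ℝ) : 0 ≤ TT w D Y :=
  Finset.sum_nonneg fun n _ => rr_nonneg D n

private theorem Nng_div (N : ℕ) : ∑ n ∈ Ioc 0 N, n.divisors.card = ∑ d ∈ Ioc 0 N, N / d := by
  classical
  have h1 : ∀ n ∈ Ioc 0 N, n.divisors.card = ∑ d ∈ Ioc 0 N, if d ∣ n then 1 else 0 := by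
    intro n hn
    rw [Finset.mem_Ioc] at hn
    rw [← Finset.sum_filter, Finset.card_eq_sum_ones]
    refine Finset.sum_congr ?_ fun _ _ => rfl
    ext d
    rw [Nat.mem_divisors, Finset.mem_filter, Finset.mem_Ioc]
    constructor
    · rintro ⟨h, _⟩
      exact ⟨⟨Nat.pos_of_dvd_of_pos h hn.1, (Nat.le_of_dvd hn.1 h).trans hn.2⟩, h⟩
    · rintro ⟨_, h⟩
      exact ⟨h, hn.1.ne'⟩
  rw [Finset.sum_congr rfl h1, Finset.sum_comm]
  refine Finset.sum_congr rfl fun d _ => ?_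
  rw [← Finset.sum_filter, ← Finset.card_eq_sum_ones]
  exact Nat.Ioc_filter_dvd_card_eq_div N d

/-- `∑_{n ≤ Y} d(n) ≤ Y (1 + log Y)` (`harmonic_le_one_add_log`) -/
theorem TT_le (w : ℝ) (D : ℤ) {Y : ℝ} (hY : 1 ≤ Y) : TT w D Y ≤ Y * (1 + Real.log Y) := by
  classical
  have hN1 : 1 ≤ ⌊Y⌋₊ := Nat.le_floor (by exact_mod_cast hY)
  have hNY : (⌊Y⌋₊ : ℝ) ≤ Y := Nat.floor_le (by linarith)
  have h1 : TT w D Y ≤ ∑ n ∈ Ioc 0 ⌊Y⌋₊, (n.divisors.card : ℝ) := by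
    unfold TT
    refine (Finset.sum_le_sum fun n _ => rr_le D n).trans ?_
    refine Finset.sum_le_sum_of_subset_of_nonneg ?_ fun _ _ _ => Nat.cast_nonneg _
    intro n hn
    rw [Finset.mem_filter, Finset.mem_Ioc] at hn
    rw [Finset.mem_Ioc]
    exact ⟨by omega, hn.1.2⟩
  have h2 : (∑ n ∈ Ioc 0 ⌊Y⌋₊, (n.divisors.card : ℝ)) = ∑ d ∈ Ioc 0 ⌊Y⌋₊, ((⌊Y⌋₊ / d : ℕ) : ℝ) := by
    exact_mod_cast Nng_div ⌊Y⌋₊
  have h3 : (∑ d ∈ Ioc 0 ⌊Y⌋₊, ((⌊Y⌋₊ / d : ℕ) : ℝ)) ≤ ∑ d ∈ Ioc 0 ⌊Y⌋₊, Y * (d : ℝ)⁻¹ := by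
    refine Finset.sum_le_sum fun d _ => ?_
    refine Nat.cast_div_le.trans ?_
    rw [div_eq_mul_inv]
    exact mul_le_mul_of_nonneg_right hNY (by positivity)
  have h4 : (∑ d ∈ Ioc 0 ⌊Y⌋₊, ((d : ℝ)⁻¹)) ≤ 1 + Real.log ⌊Y⌋₊ := by
    have h5 := harmonic_le_one_add_log ⌊Y⌋₊
    have h6 : ((harmonic ⌊Y⌋₊ : ℚ) : ℝ) = ∑ d ∈ Ioc 0 ⌊Y⌋₊, ((d : ℝ)⁻¹) := by
      unfold harmonic
      rw [Rat.cast_sum]
      have h8 : (∑ i ∈ range ⌊Y⌋₊, (((((i + 1 : ℕ) : ℚ))⁻¹ : ℚ) : ℝ)) =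
          ∑ i ∈ Ico 0 ⌊Y⌋₊, (((i + 1 : ℕ) : ℝ))⁻¹ := by
        rw [Finset.range_eq_Ico]
        refine Finset.sum_congr rfl fun i _ => ?_
        push_cast
        rfl
      rw [h8, Finset.sum_Ico_add' (fun i : ℕ => ((i : ℝ))⁻¹) 0 ⌊Y⌋₊ 1]
      refine Finset.sum_congr ?_ fun _ _ => rfl
      ext i
      simp only [Finset.mem_Ico, Finset.mem_Ioc]
      omega
    rw [← h6]; exact h5
  have h7 : Real.log ⌊Y⌋₊ ≤ Real.log Y := Real.log_le_log (by exact_mod_cast hN1) hNY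
  calc TT w D Y ≤ ∑ n ∈ Ioc 0 ⌊Y⌋₊, (n.divisors.card : ℝ) := h1
    _ ≤ ∑ d ∈ Ioc 0 ⌊Y⌋₊, Y * (d : ℝ)⁻¹ := by rw [h2]; exact h3
    _ = Y * ∑ d ∈ Ioc 0 ⌊Y⌋₊, ((d : ℝ)⁻¹) := by rw [Finset.mul_sum]
    _ ≤ Y * (1 + Real.log Y) := mul_le_mul_of_nonneg_left (h4.trans (by linarith)) (by linarith)

theorem JJ_nonneg (w : ℝ) (D : ℤ) (N : ℕ) : 0 ≤ JJ w D N :=
  Finset.sum_nonneg fun n _ => rr_nonneg D n

end Pool.Agent.PP5LR
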