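import Pool.Agent.PP5LR.Vlc
import Pool.Agent.PP5LR.Nng
import Pool.Agent.PP5LB.Eq2
import Pool.Agent.PP5LB.Nce

/-!
# Fmy: the family axioms for helper24's family (difficulty 4)

`e p = SV p (fun x => jj (DD x) p) / SV p 1`, `f p = SV p (fun x => if p ∣ DD x then 0 else 1) / SV p 1`.  `ea`, `fa`: `vlc_*` (`7 / (1/2) = 14`; `1 - f p = SV p (1[p ∣ DD]) / SV p 1`).
`odd`: `res_x` (`DD x % 8 = 5`).  `le`: `|x j| ≤ C_A r` (`XA_size`), `DD` is a polynomial of degree 4 (`DD_expl`), `C r^4 ≤ r^5`.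
`mean`: `q = m g` squarefree, odd, rough, so coprime to `Wf w = 4 primorial w`.  The function `φ x = if gcd (DD x, g) = 1 then jj (DD x) m else 0` is
`∏_{p | q} φ_p x`, `φ_p = jj (DD x) p` for `p ∣ m` (`jj_prod`), `= if p ∣ DD x then 0 else 1` for `p ∣ g`; it depends only on `red q x` (`red_mem_VM`: `red q x ∈ VM q`), so
`∑_{x ∈ X} φ x = ∑_{y ∈ VM q} φ(lift y) #{x ∈ X : red q x = y}`; `eq2` (`|φ| ≤ 1`, `#VM q ≤ q^10 ≤ r^(10/400)`): the difference to
`#X / #VM q * ∑_{y ∈ VM q} φ (lift y) = #X * SV q φ / SV q 1` is `≤ r^(10/400 - 1/5) #X ≤ r^(-1/400) #X`; `SV q φ / SV q 1 = ∏ e p ∏ f p` by `vcr` twice.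
`X = ∅` is harmless.
-/

set_option autoImplicit false

namespace Pool.Agent.PP5LR

open Finset Pool.Agent.PP5L Pool.Agent.PP5LB

private theorem Fmy_DDbd {x : Fin 10 → ℤ} {M : ℤ} (h : ∀ j, |x j| ≤ M) : |DD x| ≤ 132 * M ^ 4 := by
  have hM : 0 ≤ M := (abs_nonneg _).trans (h 0)
  have m2 : ∀ {a b : ℤ}, |a| ≤ M → |b| ≤ M → |a * b| ≤ M ^ 2 := by
    intro a b ha hb
    rw [abs_mul, sq]
    exact mul_le_mul ha hb (abs_nonneg _) hM
  have m3 : ∀ {a b : ℤ}, |a| ≤ M → |b| ≤ M ^ 2 → |a * b| ≤ M ^ 3 := by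
    intro a b ha hb
    rw [abs_mul, pow_succ, mul_comm (M ^ 2) M]
    exact mul_le_mul ha hb (abs_nonneg _) hM
  have mm : ∀ {a b : ℤ} {c d : ℤ}, |a| ≤ c → |b| ≤ d → |a * b| ≤ c * d := by
    intro a b c d ha hb
    rw [abs_mul]
    exact mul_le_mul ha hb (abs_nonneg _) ((abs_nonneg _).trans ha)
  have hV : |dV x| ≤ 8 * M ^ 2 := by
    unfold dV
    have a1 := abs_le.1 (m2 (h 4) (h 4))
    have a2 := abs_le.1 (m2 (h 4) (h 5))
    have a3 := abs_le.1 (m2 (h 5) (h 5))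
    have a4 := abs_le.1 (m2 (h 0) (h 2))
    rw [abs_le]
    constructor <;> nlinarith [a1.1, a1.2, a2.1, a2.2, a3.1, a3.2, a4.1, a4.2]
  have hW : |dW x| ≤ 8 * M ^ 2 := by
    unfold dW
    have a1 := abs_le.1 (m2 (h 4) (h 4))
    have a2 := abs_le.1 (m2 (h 4) (h 5))
    have a3 := abs_le.1 (m2 (h 5) (h 5))
    have a4 := abs_le.1 (m2 (h 1) (h 3))
    rw [abs_le]
    constructor <;> nlinarith [a1.1, a1.2, a2.1, a2.2, a3.1, a3.2, a4.1, a4.2]
  have hK : |KK x| ≤ 2 * M ^ 2 := by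
    unfold KK
    have a1 := abs_le.1 (m2 (h 6) (h 9))
    have a2 := abs_le.1 (m2 (h 7) (h 8))
    rw [abs_le]
    constructor <;> linarith [a1.1, a1.2, a2.1, a2.2]
  have t3 : ∀ i j k : Fin 10, |x i * (x j * x k)| ≤ M ^ 3 := fun i j k => m3 (h i) (m2 (h j) (h k))
  have b1 : |x 3 * x 6 ^ 2 - (x 4 - x 5) * x 6 * x 8 + x 1 * x 8 ^ 2| ≤ 4 * M ^ 3 := by
    have a1 := abs_le.1 (t3 3 6 6)
    have a2 := abs_le.1 (t3 4 6 8)
    have a3 := abs_le.1 (t3 5 6 8)
    have a4 := abs_le.1 (t3 1 8 8)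
    rw [abs_le]
    constructor <;> linarith [a1.1, a1.2, a2.1, a2.2, a3.1, a3.2, a4.1, a4.2]
  have b2 : |2 * x 3 * x 6 * x 7 - (x 4 - x 5) * x 6 * x 9 - (x 4 - x 5) * x 7 * x 8
      + 2 * x 1 * x 8 * x 9| ≤ 8 * M ^ 3 := by
    have a1 := abs_le.1 (t3 3 6 7)
    have a2 := abs_le.1 (t3 4 6 9)
    have a3 := abs_le.1 (t3 5 6 9)
    have a4 := abs_le.1 (t3 4 7 8)
    have a5 := abs_le.1 (t3 5 7 8)
    have a6 := abs_le.1 (t3 1 8 9)
    rw [abs_le]
    constructor <;> linarith [a1.1, a1.2, a2.1, a2.2, a3.1, a3.2, a4.1, a4.2, a5.1, a5.2, a6.1, a6.2]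
  have b3 : |x 3 * x 7 ^ 2 - (x 4 - x 5) * x 7 * x 9 + x 1 * x 9 ^ 2| ≤ 4 * M ^ 3 := by
    have a1 := abs_le.1 (t3 3 7 7)
    have a2 := abs_le.1 (t3 4 7 9)
    have a3 := abs_le.1 (t3 5 7 9)
    have a4 := abs_le.1 (t3 1 9 9)
    rw [abs_le]
    constructor <;> linarith [a1.1, a1.2, a2.1, a2.2, a3.1, a3.2, a4.1, a4.2]
  have h45 : |x 4 + x 5| ≤ 2 * M := by
    have a1 := abs_le.1 (h 4)
    have a2 := abs_le.1 (h 5)
    rw [abs_le]
    constructor <;> linarith [a1.1, a1.2, a2.1, a2.2]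
  have c1 := abs_le.1 (mm hV hW)
  have c2 := abs_le.1 (mm hK hK)
  have c3 := abs_le.1 (mm (h 2) b1)
  have c4 := abs_le.1 (mm h45 b2)
  have c5 := abs_le.1 (mm (h 0) b3)
  rw [DD_expl, abs_le]
  constructor
  · nlinarith [c1.1, c1.2, c2.1, c2.2, c3.1, c3.2, c4.1, c4.2, c5.1, c5.2]
  · nlinarith [c1.1, c1.2, c2.1, c2.2, c3.1, c3.2, c4.1, c4.2, c5.1, c5.2]

/-- `DD` modulo `p` -/
private theorem Fmy_DDcong {p : ℕ} {x y : Fin 10 → ℤ} (h : ∀ j, (p : ℤ) ∣ x j - y j) :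
    (DD x : ℤ) % p = DD y % p := by
  have h1 : red p x = red p y := red_eq_iff.2 h
  have h2 : ((DD x : ℤ) : ZMod p) = ((DD y : ℤ) : ZMod p) := by
    rw [← red_DD, ← red_DD, h1]
  exact (ZMod.intCast_eq_intCast_iff' _ _ _).1 h2

private noncomputable def Fmy_f (m p : ℕ) (x : Fin 10 → ℤ) : ℝ :=
  open Classical in
  if p ∣ m then jj (DD x) p else if (p : ℤ) ∣ DD x then 0 else 1

private theorem Fmy_fper {m p : ℕ} {x y : Fin 10 → ℤ} (h : ∀ j, (p : ℤ) ∣ x j - y j) :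
    Fmy_f m p x = Fmy_f m p y := by
  have h1 := Fmy_DDcong h
  have h2 : jj (DD x) p = jj (DD y) p := by
    unfold jj
    rw [jacobiSym.mod_left (DD x) p, jacobiSym.mod_left (DD y) p, h1]
  have h3 : (p : ℤ) ∣ DD x ↔ (p : ℤ) ∣ DD y := by
    rw [Int.dvd_iff_emod_eq_zero, Int.dvd_iff_emod_eq_zero, h1]
  unfold Fmy_f
  rw [h2]
  simp only [h3]

private theorem Fmy_prod {m g : ℕ} (hm : Squarefree m) (hg : Squarefree g) (hmg : Nat.Coprime m g)
    (x : Fin 10 → ℤ) :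
    (∏ p ∈ (m * g).primeFactors, Fmy_f m p x) = if Int.gcd (DD x) g = 1 then jj (DD x) m else 0 := by
  classical
  rw [Nat.Coprime.primeFactors_mul hmg, Finset.prod_union hmg.disjoint_primeFactors]
  have h1 : (∏ p ∈ m.primeFactors, Fmy_f m p x) = jj (DD x) m := by
    rw [jj_prod (DD x) hm]
    refine Finset.prod_congr rfl fun p hp => ?_
    unfold Fmy_f
    rw [if_pos (Nat.dvd_of_mem_primeFactors hp)]
  have h2 : ∀ p ∈ g.primeFactors, Fmy_f m p x = if (p : ℤ) ∣ DD x then 0 else 1 := by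
    intro p hp
    unfold Fmy_f
    rw [if_neg]
    intro h
    have hp' := Nat.prime_of_mem_primeFactors hp
    have := Nat.dvd_gcd h (Nat.dvd_of_mem_primeFactors hp)
    rw [hmg] at this
    exact hp'.one_lt.ne' (Nat.dvd_one.1 this)
  rw [h1]
  by_cases hc : Int.gcd (DD x) g = 1
  · rw [if_pos hc]
    have h3 : (∏ p ∈ g.primeFactors, Fmy_f m p x) = 1 := by
      refine Finset.prod_eq_one fun p hp => ?_
      rw [h2 p hp, if_neg]
      intro h
      have h4 : (p : ℤ) ∣ (Int.gcd (DD x) g : ℤ) :=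
        Int.dvd_coe_gcd h (Int.natCast_dvd_natCast.2 (Nat.dvd_of_mem_primeFactors hp))
      rw [hc] at h4
      have h5 : p ∣ 1 := by exact_mod_cast h4
      exact (Nat.prime_of_mem_primeFactors hp).one_lt.ne' (Nat.dvd_one.1 h5)
    rw [h3, mul_one]
  · rw [if_neg hc]
    obtain ⟨p, hp, hpd⟩ := Nat.exists_prime_and_dvd hc
    have hpD : (p : ℤ) ∣ DD x := (Int.natCast_dvd_natCast.2 hpd).trans (Int.gcd_dvd_left ..)
    have hpg : p ∣ g := by
      have : (p : ℤ) ∣ (g : ℤ) := (Int.natCast_dvd_natCast.2 hpd).trans (Int.gcd_dvd_right ..)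
      exact_mod_cast this
    have hpm : p ∈ g.primeFactors := Nat.mem_primeFactors.2 ⟨hp, hpg, hg.ne_zero⟩
    rw [Finset.prod_eq_zero hpm (by rw [h2 p hpm, if_pos hpD]), mul_zero]

private theorem Fmy_abs (m g : ℕ) (x : Fin 10 → ℤ) :
    |(if Int.gcd (DD x) g = 1 then jj (DD x) m else 0 : ℝ)| ≤ 1 := by
  split_ifs
  · exact jj_abs _ _
  · simp

private theorem Fmy_red_lift {q : ℕ} [NeZero q] (y : Fin 10 → ZMod q) :
    red q (fun j => ((y j).val : ℤ)) = y := by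
  funext j
  unfold red
  simp

/-- comparison of the mean over the family and over the classes -/
private theorem Fmy_mean {q : ℕ} [NeZero q] {A : Fin 10 → ℤ} {r W : ℕ} {y0 : Fin 10 → ZMod W}
    (F : (Fin 10 → ℤ) → ℝ) (hF : ∀ x, |F x| ≤ 1)
    (hper : ∀ x y : Fin 10 → ℤ, (∀ j, (q : ℤ) ∣ x j - y j) → F x = F y) (ε : ℝ)
    (hVM : 0 < (VM q).card)
    (hε : ∀ y ∈ VM q, |((open scoped Classical in (XC A r W y0).filter (fun x => red q x = y)).card : ℝ)
      - (XC A r W y0).card / (VM q).card| ≤ ε) :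
    |∑ x ∈ XC A r W y0, F x - (XC A r W y0).card * (SV q F / SV q (fun _ => 1))| ≤
      (VM q).card * ε := by
  classical
  set X := XC A r W y0 with hX
  have hmap : ∀ x ∈ X, red q x ∈ VM q := fun x hx => red_mem_VM q (mem_XC.1 hx).1
  have h1 : ∑ x ∈ X, F x = ∑ y ∈ VM q, F (fun j => ((y j).val : ℤ)) * ((X.filter (fun x => red q x = y)).card : ℝ) := by
    rw [← Finset.sum_fiberwise_of_maps_to hmap]
    refine Finset.sum_congr rfl fun y hy => ?_
    rw [mul_comm, ← nsmul_eq_mul, ← Finset.sum_const]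
    refine Finset.sum_congr rfl fun x hx => ?_
    have hxy := (Finset.mem_filter.1 hx).2
    refine hper _ _ (red_eq_iff.1 ?_)
    rw [hxy, Fmy_red_lift]
  have h2 : SV q F = ∑ y ∈ VM q, F (fun j => ((y j).val : ℤ)) := sv_VM q F
  have h3 : SV q (fun _ => 1) = ((VM q).card : ℝ) := by
    rw [sv_VM]; simp
  have hV : (0 : ℝ) < (VM q).card := by exact_mod_cast hVM
  have h4 : ∑ x ∈ X, F x - X.card * (SV q F / SV q (fun _ => 1)) =
      ∑ y ∈ VM q, F (fun j => ((y j).val : ℤ)) *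
        (((X.filter (fun x => red q x = y)).card : ℝ) - X.card / (VM q).card) := by
    rw [h1, h2, h3]
    simp only [mul_sub]
    rw [Finset.sum_sub_distrib, ← Finset.sum_mul]
    ring
  rw [h4]
  refine (Finset.abs_sum_le_sum_abs _ _).trans ?_
  rw [← nsmul_eq_mul]
  refine Finset.sum_le_card_nsmul _ _ _ fun y hy => ?_
  rw [abs_mul]
  have h5 := hε y hy
  have h6 : |((X.filter (fun x => red q x = y)).card : ℝ) - X.card / (VM q).card| ≤ ε := by
    convert h5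
  calc |F (fun j => ((y j).val : ℤ))| * |((X.filter (fun x => red q x = y)).card : ℝ) - X.card / (VM q).card|
      ≤ 1 * ε := mul_le_mul (hF _) h6 (abs_nonneg _) zero_le_one
    _ = ε := one_mul _

private theorem Fmy_card {q : ℕ} [NeZero q] : ((VM q).card : ℝ) ≤ (q : ℝ) ^ 10 := by
  have h1 : (VM q).card ≤ Fintype.card (Fin 10 → ZMod q) := Finset.card_le_univ _
  rw [Fintype.card_fun, ZMod.card, Fintype.card_fin] at h1
  exact_mod_cast h1

private theorem Fmy_card_pos {q : ℕ} [NeZero q] : 0 < (VM q).card := by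
  have h1 := vlo q
  have hq : 0 < q := Nat.pos_of_ne_zero (NeZero.ne q)
  have h2 : 0 < Nat.totient q * q ^ 8 := Nat.mul_pos (Nat.totient_pos.2 hq) (pow_pos hq _)
  omega

private theorem Fmy_cop {w q : ℕ} (hodd : Odd q) (hr : ∀ p : ℕ, p.Prime → p ∣ q → w < p) :
    Nat.Coprime (Wf w) q := by
  unfold Wf
  refine Nat.Coprime.mul_left ?_ ?_
  · have : Nat.Coprime (2 ^ 2) q := Nat.Coprime.pow_left 2 (Nat.coprime_two_left.2 hodd)
    simpa using this
  · refine Nat.Coprime.symm (Nat.Coprime.prod_right fun p hp => ?_)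
    rw [Finset.mem_filter, Finset.mem_range] at hp
    refine Nat.Coprime.symm ((Nat.Prime.coprime_iff_not_dvd hp.2).2 fun hd => ?_)
    have := hr p hp.2 hd
    omega

theorem fmy : ∃ e f : ℕ → ℝ, ∀ (A : Fin 10 → ℤ), 1 ≤ A 1 → ∀ (w : ℕ) (c : Fin 10 → ℤ), 2 ≤ w → Res w c →
    ∃ r0 : ℕ, ∀ r : ℕ, r0 ≤ r → Fam (XC A r (Wf w) (red (Wf w) c)) DD e f (w : ℝ) (r : ℝ) (1 / 400) 14 5 := by
  classical
  refine ⟨fun p => SV p (fun x => jj (DD x) p) / SV p (fun _ => 1),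
    fun p => SV p (fun x => if (p : ℤ) ∣ DD x then 0 else 1) / SV p (fun _ => 1), ?_⟩
  intro A hA w c hw hc
  obtain ⟨r1, hr1⟩ := eq2 A hA w
  refine ⟨max (max r1 1) (132 * (BB A) ^ 4).toNat, fun r hr => ?_⟩
  have hrr1 : r1 ≤ r := (le_max_left _ _).trans ((le_max_left _ _).trans hr)
  have hr11 : 1 ≤ r := (le_max_right _ _).trans ((le_max_left _ _).trans hr)
  have hrB : 132 * (BB A) ^ 4 ≤ (r : ℤ) := by
    have h1 : (132 * (BB A) ^ 4).toNat ≤ r := (le_max_right _ _).trans hr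
    exact (Int.self_le_toNat _).trans (by exact_mod_cast h1)
  have hr1R : (1 : ℝ) ≤ r := by exact_mod_cast hr11
  have hr0R : (0 : ℝ) < r := by linarith
  have hprime : ∀ p : ℕ, p.Prime → (w : ℝ) < (p : ℝ) → p ≠ 2 := by
    intro p _ hwp h
    subst h
    have : w < 2 := by exact_mod_cast hwp
    omega
  refine ⟨?_, ?_, ?_, ?_, ?_⟩
  · intro x hx
    have h1 := (res_x hw hc (mem_XC.1 hx).2).2.2.1
    rw [Int.odd_iff]
    omega
  · intro x hx
    have h1 : |DD x| ≤ 132 * (BB A * r) ^ 4 := Fmy_DDbd (XA_size (mem_XC.1 hx).1)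
    have h2 : 132 * (BB A * r) ^ 4 ≤ (r : ℤ) ^ 5 := by
      have h3 : (0 : ℤ) ≤ (r : ℤ) ^ 4 := by positivity
      nlinarith [mul_le_mul_of_nonneg_right hrB h3]
    have h3 : |DD x| ≤ (r : ℤ) ^ 5 := h1.trans h2
    have h4 : |((DD x : ℤ) : ℝ)| ≤ (r : ℝ) ^ 5 := by exact_mod_cast h3
    have h5 : (r : ℝ) ^ (5 : ℝ) = (r : ℝ) ^ 5 := by
      rw [← Real.rpow_natCast]; norm_num
    rw [h5]
    exact h4
  · intro p hp hwp
    have h2 := hprime p hp hwp
    have hpp : (0 : ℝ) < p := by exact_mod_cast hp.pos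
    have h3 := vlc_n hp
    have h4 := vlc_c hp h2
    have h5 : 0 < SV p (fun _ => 1) := lt_of_lt_of_le (by positivity) h3
    show |SV p (fun x => jj (DD x) p) / SV p (fun _ => 1)| ≤ 14 / p
    rw [abs_div, abs_of_pos h5, div_le_div_iff₀ h5 hpp]
    calc |SV p (fun x => jj (DD x) p)| * p ≤ 7 * (p : ℝ) ^ 8 * p :=
          mul_le_mul_of_nonneg_right h4 hpp.le
      _ = 14 * ((p : ℝ) ^ 9 / 2) := by ring
      _ ≤ 14 * SV p (fun _ => 1) := by linarith
  · intro p hp hwp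
    have h2 := hprime p hp hwp
    have hpp : (0 : ℝ) < p := by exact_mod_cast hp.pos
    have h3 := vlc_n hp
    have h4 := vlc_d hp h2
    have h5 : 0 < SV p (fun _ => 1) := lt_of_lt_of_le (by positivity) h3
    have h6 : 0 ≤ SV p (fun x => if (p : ℤ) ∣ DD x then 0 else 1) := by
      unfold SV
      refine Finset.sum_nonneg fun x _ => ?_
      split_ifs <;> norm_num
    have h7 : SV p (fun x => if (p : ℤ) ∣ DD x then 0 else 1) + SV p (fun x => if (p : ℤ) ∣ DD x then 1 else 0) =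
        SV p (fun _ => 1) := by
      unfold SV
      rw [← Finset.sum_add_distrib]
      refine Finset.sum_congr rfl fun x _ => ?_
      split_ifs <;> norm_num
    have h8 : 0 ≤ SV p (fun x => if (p : ℤ) ∣ DD x then 1 else 0) := by
      unfold SV
      refine Finset.sum_nonneg fun x _ => ?_
      split_ifs <;> norm_num
    show 0 ≤ SV p (fun x => if (p : ℤ) ∣ DD x then 0 else 1) / SV p (fun _ => 1) ∧
      SV p (fun x => if (p : ℤ) ∣ DD x then 0 else 1) / SV p (fun _ => 1) ≤ 1 ∧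
      1 - SV p (fun x => if (p : ℤ) ∣ DD x then 0 else 1) / SV p (fun _ => 1) ≤ 14 / p
    refine ⟨div_nonneg h6 h5.le, ?_, ?_⟩
    · rw [div_le_one h5]
      linarith
    · have h9 : 1 - SV p (fun x => if (p : ℤ) ∣ DD x then 0 else 1) / SV p (fun _ => 1) =
          SV p (fun x => if (p : ℤ) ∣ DD x then 1 else 0) / SV p (fun _ => 1) := by
        rw [← h7]
        rw [eq_div_iff (by rw [h7]; exact h5.ne'), sub_mul, div_mul_cancel₀ _ (by rw [h7]; exact h5.ne')]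
        ring
      rw [h9, div_le_div_iff₀ h5 hpp]
      calc SV p (fun x => if (p : ℤ) ∣ DD x then 1 else 0) * p ≤ 6 * (p : ℝ) ^ 8 * p :=
            mul_le_mul_of_nonneg_right h4 hpp.le
        _ = 12 * ((p : ℝ) ^ 9 / 2) := by ring
        _ ≤ 14 * SV p (fun _ => 1) := by linarith
  · intro m g hm hg hmg hq
    have hm0 : m ≠ 0 := hm.1.ne_zero
    have hg0 : g ≠ 0 := hg.1.ne_zero
    have : NeZero (m * g) := ⟨mul_ne_zero hm0 hg0⟩
    have hsq : Squarefree (m * g) := (Nat.squarefree_mul hmg).2 ⟨hm.1, hg.1⟩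
    have hcop : Nat.Coprime (Wf w) (m * g) := by
      refine Fmy_cop (hm.2.1.mul hg.2.1) fun p hp hd => ?_
      rcases (Nat.Prime.dvd_mul hp).1 hd with h | h
      · exact_mod_cast hm.2.2 p hp h
      · exact_mod_cast hg.2.2 p hp h
    have hq100 : ((m * g : ℕ) : ℝ) ≤ (r : ℝ) ^ (1 / 100 : ℝ) :=
      hq.trans (Real.rpow_le_rpow_of_exponent_le hr1R (by norm_num))
    have hE := fun y hy => hr1 r hrr1 (red (Wf w) c) (res_mem hc) (m * g) hcop hq100 y hy
    set F : (Fin 10 → ℤ) → ℝ := fun x => if Int.gcd (DD x) g = 1 then jj (DD x) m else 0 with hFdef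
    have hFp : F = fun x => ∏ p ∈ (m * g).primeFactors, Fmy_f m p x := by
      funext x
      rw [Fmy_prod hm.1 hg.1 hmg x]
    have hper : ∀ x y : Fin 10 → ℤ, (∀ j, ((m * g : ℕ) : ℤ) ∣ x j - y j) → F x = F y := by
      intro x y h
      rw [hFp]
      refine Finset.prod_congr rfl fun p hp => Fmy_fper fun j => ?_
      exact (Int.natCast_dvd_natCast.2 (Nat.dvd_of_mem_primeFactors hp)).trans (h j)
    have hmean := Fmy_mean (q := m * g) F (fun x => Fmy_abs m g x) hper _ Fmy_card_pos hE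
    have hSV : SV (m * g) F / SV (m * g) (fun _ => 1) =
        (∏ p ∈ m.primeFactors, SV p (fun x => jj (DD x) p) / SV p (fun _ => 1)) *
        ∏ p ∈ g.primeFactors, SV p (fun x => if (p : ℤ) ∣ DD x then 0 else 1) / SV p (fun _ => 1) := by
      have h1 : SV (m * g) F = ∏ p ∈ (m * g).primeFactors, SV p (Fmy_f m p) := by
        rw [hFp]
        exact vcr hsq _ fun p hp x y h => Fmy_fper h
      have h2 : SV (m * g) (fun _ => 1) = ∏ p ∈ (m * g).primeFactors, SV p (fun _ => 1) := by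
        have := vcr hsq (fun _ _ => 1) (fun p hp x y h => rfl)
        simpa using this
      rw [h1, h2, ← Finset.prod_div_distrib, Nat.Coprime.primeFactors_mul hmg,
        Finset.prod_union hmg.disjoint_primeFactors]
      congr 1
      · refine Finset.prod_congr rfl fun p hp => ?_
        congr 2
        funext x
        unfold Fmy_f
        rw [if_pos (Nat.dvd_of_mem_primeFactors hp)]
      · refine Finset.prod_congr rfl fun p hp => ?_
        congr 2
        funext x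
        unfold Fmy_f
        have hpm : ¬ p ∣ m := by
          intro h
          have hp' := Nat.prime_of_mem_primeFactors hp
          have := Nat.dvd_gcd h (Nat.dvd_of_mem_primeFactors hp)
          rw [hmg] at this
          exact hp'.one_lt.ne' (Nat.dvd_one.1 this)
        rw [if_neg hpm]
    have hfin : ((VM (m * g)).card : ℝ) * ((r : ℝ) ^ (-(1 / 5) : ℝ) * (XC A r (Wf w) (red (Wf w) c)).card) ≤
        (XC A r (Wf w) (red (Wf w) c)).card * (r : ℝ) ^ (-(1 / 400) : ℝ) := by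
      have h1 : ((VM (m * g)).card : ℝ) ≤ (r : ℝ) ^ (10 / 400 : ℝ) := by
        refine Fmy_card.trans ?_
        calc (((m * g : ℕ) : ℝ)) ^ 10 ≤ ((r : ℝ) ^ (1 / 400 : ℝ)) ^ 10 :=
              pow_le_pow_left₀ (by positivity) hq 10
          _ = (r : ℝ) ^ (10 / 400 : ℝ) := by
              rw [← Real.rpow_natCast, ← Real.rpow_mul hr0R.le]; norm_num
      have h2 : ((VM (m * g)).card : ℝ) * (r : ℝ) ^ (-(1 / 5) : ℝ) ≤ (r : ℝ) ^ (-(1 / 400) : ℝ) := by
        calc ((VM (m * g)).card : ℝ) * (r : ℝ) ^ (-(1 / 5) : ℝ)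
            ≤ (r : ℝ) ^ (10 / 400 : ℝ) * (r : ℝ) ^ (-(1 / 5) : ℝ) :=
              mul_le_mul_of_nonneg_right h1 (Real.rpow_nonneg hr0R.le _)
          _ = (r : ℝ) ^ (10 / 400 + -(1 / 5) : ℝ) := (Real.rpow_add hr0R _ _).symm
          _ ≤ (r : ℝ) ^ (-(1 / 400) : ℝ) :=
              Real.rpow_le_rpow_of_exponent_le hr1R (by norm_num)
      have h3 : (0 : ℝ) ≤ (XC A r (Wf w) (red (Wf w) c)).card := by positivity
      calc ((VM (m * g)).card : ℝ) * ((r : ℝ) ^ (-(1 / 5) : ℝ) * (XC A r (Wf w) (red (Wf w) c)).card)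
          = (XC A r (Wf w) (red (Wf w) c)).card * (((VM (m * g)).card : ℝ) * (r : ℝ) ^ (-(1 / 5) : ℝ)) := by ring
        _ ≤ _ := mul_le_mul_of_nonneg_left h2 h3
    have hall := hmean.trans hfin
    rw [hSV] at hall
    exact hall

end Pool.Agent.PP5LR
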