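import Pool.Agent.PP5LR.Mom

/-!
# FnA: the errors of the hyperbola method, summed over `x`
-/

set_option autoImplicit false

namespace Pool.Agent.PP5LR

open Finset

theorem fna_harm (n : ℕ) : ∑ m ∈ Icc 1 n, (1 : ℝ) / m ≤ 1 + Real.log n := by
  have h := harmonic_le_one_add_log n
  have h2 : ((harmonic n : ℚ) : ℝ) = ∑ m ∈ Icc 1 n, (1 : ℝ) / m := by
    rw [harmonic_eq_sum_Icc]
    push_cast
    exact Finset.sum_congr rfl (fun m _ => by rw [one_div])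
  rw [← h2]
  exact h

theorem erx {w : ℝ} {ι : Type} {X : Finset ι} {D : ι → ℤ} {R A K κ d0 : ℝ} (hR : 1 ≤ R) (hK : 0 ≤ K)
    (H : ∀ a b : ℕ, R ^ d0 ≤ (b : ℝ) → (b : ℝ) ≤ R ^ A → ∑ x ∈ X, |VV w (D x) a b| ≤ K * X.card * b * R ^ (-κ))
    {z : ℕ} (hz : 1 ≤ z) (hzR : R ^ d0 ≤ (z : ℝ)) {Y : ℝ} (hzY : (z : ℝ) ≤ Y) (hYA : Y ≤ R ^ A) :
    ∑ x ∈ X, Er w (D x) z Y ≤ K * X.card * Y * R ^ (-κ) * (1 + Real.log Y) := by
  classical
  have hR0 : 0 < R := by linarith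
  have hz1 : (1 : ℝ) ≤ z := by exact_mod_cast hz
  have hz0 : (0 : ℝ) < z := by linarith
  have hY1 : 1 ≤ Y := hz1.trans hzY
  have hY0 : 0 < Y := by linarith
  have hRk : 0 < R ^ (-κ) := Real.rpow_pos_of_pos hR0 _
  have hX0 : (0 : ℝ) ≤ X.card := Nat.cast_nonneg _
  unfold Er
  rw [Finset.sum_comm]
  have h1 : ∀ m ∈ (Icc 1 ⌊Y / z⌋₊).filter (Rf w), ∑ x ∈ X, |VV w (D x) (max z ⌊Y / (2 * m)⌋₊) ⌊Y / m⌋₊| ≤
      K * X.card * Y * R ^ (-κ) * (1 / m) := by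
    intro m hm
    rw [Finset.mem_filter, Finset.mem_Icc] at hm
    obtain ⟨⟨hm1, hm2⟩, -⟩ := hm
    have hm1' : (1 : ℝ) ≤ m := by exact_mod_cast hm1
    have hm0 : (0 : ℝ) < m := by linarith
    have hm3 : (m : ℝ) ≤ Y / z := (Nat.le_floor_iff (by positivity)).1 hm2
    have hm4 : (z : ℝ) ≤ Y / m := by
      rw [le_div_iff₀ hm0]
      rw [le_div_iff₀ hz0] at hm3
      linarith
    have hb : z ≤ ⌊Y / m⌋₊ := Nat.le_floor hm4
    have hb2 : (⌊Y / m⌋₊ : ℝ) ≤ Y / m := Nat.floor_le (by positivity)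
    have hb3 : Y / m ≤ Y := div_le_self hY0.le hm1'
    refine (H _ _ (hzR.trans (by exact_mod_cast hb)) (hb2.trans (hb3.trans hYA))).trans ?_
    have : K * X.card * (⌊Y / m⌋₊ : ℝ) * R ^ (-κ) ≤ K * X.card * (Y / m) * R ^ (-κ) := by gcongr
    refine this.trans (le_of_eq ?_)
    ring
  refine (Finset.sum_le_sum h1).trans ?_
  rw [← Finset.mul_sum]
  apply mul_le_mul_of_nonneg_left _ (by positivity)
  have h2 : ∑ m ∈ (Icc 1 ⌊Y / z⌋₊).filter (Rf w), (1 : ℝ) / m ≤ ∑ m ∈ Icc 1 ⌊Y / z⌋₊, (1 : ℝ) / m :=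
    Finset.sum_le_sum_of_subset_of_nonneg (Finset.filter_subset _ _) (fun m _ _ => by positivity)
  refine h2.trans ((fna_harm _).trans ?_)
  have h3 : (⌊Y / z⌋₊ : ℝ) ≤ Y := (Nat.floor_le (by positivity)).trans (div_le_self hY0.le hz1)
  have h4 : 1 ≤ ⌊Y / z⌋₊ := by
    apply Nat.le_floor
    rw [Nat.cast_one, le_div_iff₀ hz0]; linarith
  have h5 : (0 : ℝ) < (⌊Y / z⌋₊ : ℝ) := by exact_mod_cast h4
  linarith [Real.log_le_log h5 h3]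

end Pool.Agent.PP5LR
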