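import Pool.Agent.PP5LR.Jlo

/-!
# FnB: the pointwise lower bound for `JJ`
-/

set_option autoImplicit false

namespace Pool.Agent.PP5LR

open Finset

/-- the number of primes `> P` dividing `D` -/
theorem big_card {D : ℤ} (hD : D ≠ 0) {P : ℕ} {B : ℝ} (hP : 1 < (P : ℝ)) (S : Finset ℕ)
    (hS : ∀ p ∈ S, p.Prime ∧ P < p ∧ (p : ℤ) ∣ D) (hB : |(D : ℝ)| ≤ B) :
    (S.card : ℝ) * Real.log P ≤ Real.log B := by
  have h1 : ∏ p ∈ S, p ∣ D.natAbs := by
    apply Finset.prod_primes_dvd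
    · intro p hp; exact (hS p hp).1.prime
    · intro p hp; exact Int.natCast_dvd.1 (hS p hp).2.2
  have h2 : P ^ S.card ≤ D.natAbs := by
    refine le_trans ?_ (Nat.le_of_dvd (Int.natAbs_pos.2 hD) h1)
    calc P ^ S.card = ∏ _p ∈ S, P := by rw [Finset.prod_const]
      _ ≤ _ := Finset.prod_le_prod' (fun p hp => (hS p hp).2.1.le)
  have h3 : (P : ℝ) ^ S.card ≤ B := by
    refine le_trans ?_ hB
    have : ((P ^ S.card : ℕ) : ℝ) ≤ (D.natAbs : ℝ) := by exact_mod_cast h2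
    rw [Nat.cast_natAbs] at this
    push_cast at this
    exact this
  have h4 : (0 : ℝ) < (P : ℝ) ^ S.card := by positivity
  have := Real.log_le_log h4 h3
  rwa [Real.log_pow] at this

open Classical in
theorem ptw {D : ℤ} (hD : D ≠ 0) {w B v : ℝ} (hv : 0 ≤ v)
    {z P N : ℕ} (hP : 1 < (P : ℝ)) (hPN : P ≤ N) (hB : |(D : ℝ)| ≤ B)
    (hY : ∑ p ∈ Dp w D P, (1 : ℝ) / p ≤ 1 / 2) :
    (N : ℝ) / 4 * v * LL w D z - 2 * |TT w D N - N / 2 * v * LL w D z|
      - ∑ p ∈ (Icc 1 P).filter Nat.Prime, |TT w D ((N : ℝ) / p) - (N : ℝ) / p / 2 * v * LL w D z|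
      - Real.log B / Real.log P * ((N : ℝ) / P * (1 + Real.log N)) ≤ JJ w D N := by
  have hP0 : (0 : ℝ) < P := by linarith
  have hPN' : (P : ℝ) ≤ N := by exact_mod_cast hPN
  have hN1 : (1 : ℝ) < N := hP.trans_le hPN'
  have hN0 : (0 : ℝ) < N := by linarith
  have hlN : 0 < Real.log N := Real.log_pos hN1
  have hlP : 0 < Real.log P := Real.log_pos hP
  have hj := jlo D w N
  set L := LL w D z with hL
  set Δ := |TT w D N - N / 2 * v * L| with hΔ
  -- split the primes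
  have hsub : Dp w D P ⊆ Dp w D N := by
    intro p hp
    unfold Dp at hp ⊢
    rw [Finset.mem_filter, Finset.mem_Icc] at hp ⊢
    exact ⟨⟨hp.1.1, hp.1.2.trans hPN⟩, hp.2⟩
  have hsplit : ∑ p ∈ Dp w D N, TT w D ((N : ℝ) / p) = ∑ p ∈ Dp w D N \ Dp w D P, TT w D ((N : ℝ) / p) +
      ∑ p ∈ Dp w D P, TT w D ((N : ℝ) / p) := (Finset.sum_sdiff hsub).symm
  -- large primes
  have hbig : ∑ p ∈ Dp w D N \ Dp w D P, TT w D ((N : ℝ) / p) ≤
      Real.log B / Real.log P * ((N : ℝ) / P * (1 + Real.log N)) := by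
    have hS : ∀ p ∈ Dp w D N \ Dp w D P, p.Prime ∧ P < p ∧ (p : ℤ) ∣ D ∧ p ≤ N := by
      intro p hp
      rw [Finset.mem_sdiff] at hp
      obtain ⟨ha, hb⟩ := hp
      unfold Dp at ha hb
      rw [Finset.mem_filter, Finset.mem_Icc] at ha hb
      refine ⟨ha.2.1, ?_, ha.2.2.2, ha.1.2⟩
      by_contra hc
      exact hb ⟨⟨ha.1.1, not_lt.1 hc⟩, ha.2⟩
    have hcard := big_card hD hP (Dp w D N \ Dp w D P) (fun p hp => ⟨(hS p hp).1, (hS p hp).2.1, (hS p hp).2.2.1⟩) hB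
    have hterm : ∀ p ∈ Dp w D N \ Dp w D P, TT w D ((N : ℝ) / p) ≤ (N : ℝ) / P * (1 + Real.log N) := by
      intro p hp
      obtain ⟨hp1, hp2, -, hp4⟩ := hS p hp
      have hp0 : (0 : ℝ) < p := by exact_mod_cast hp1.pos
      have hpP : (P : ℝ) ≤ p := by exact_mod_cast hp2.le
      have hpN : (p : ℝ) ≤ N := by exact_mod_cast hp4
      have hp1' : (1 : ℝ) ≤ p := by exact_mod_cast hp1.one_lt.le
      have hY1 : 1 ≤ (N : ℝ) / p := by rw [le_div_iff₀ hp0]; linarith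
      refine (TT_le w D hY1).trans ?_
      have hl : Real.log ((N : ℝ) / p) ≤ Real.log N :=
        Real.log_le_log (by positivity) (div_le_self hN0.le hp1')
      have hl0 : 0 ≤ Real.log ((N : ℝ) / p) := Real.log_nonneg hY1
      gcongr
    refine (Finset.sum_le_sum hterm).trans ?_
    rw [Finset.sum_const, nsmul_eq_mul]
    apply mul_le_mul_of_nonneg_right _ (by positivity)
    rw [le_div_iff₀ hlP]
    exact hcard
  -- small primes
  have hsm : ∑ p ∈ Dp w D P, TT w D ((N : ℝ) / p) ≤ (N : ℝ) / 4 * v * |L| +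
      ∑ p ∈ (Icc 1 P).filter Nat.Prime, |TT w D ((N : ℝ) / p) - (N : ℝ) / p / 2 * v * L| := by
    have h2 : ∀ p ∈ Dp w D P, TT w D ((N : ℝ) / p) ≤ (N : ℝ) / 2 * v * |L| * (1 / p) +
        |TT w D ((N : ℝ) / p) - (N : ℝ) / p / 2 * v * L| := by
      intro p _
      have a1 := le_abs_self (TT w D ((N : ℝ) / p) - (N : ℝ) / p / 2 * v * L)
      have a2 : (N : ℝ) / p / 2 * v * L ≤ (N : ℝ) / 2 * v * |L| * (1 / p) := by
        have : (N : ℝ) / p / 2 * v * L ≤ (N : ℝ) / p / 2 * v * |L| :=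
          mul_le_mul_of_nonneg_left (le_abs_self L) (by positivity)
        refine this.trans (le_of_eq ?_)
        ring
      linarith
    refine (Finset.sum_le_sum h2).trans ?_
    rw [Finset.sum_add_distrib, ← Finset.mul_sum]
    apply add_le_add
    · calc (N : ℝ) / 2 * v * |L| * ∑ p ∈ Dp w D P, (1 : ℝ) / p ≤ (N : ℝ) / 2 * v * |L| * (1 / 2) :=
            mul_le_mul_of_nonneg_left hY (by positivity)
        _ = _ := by ring
    · apply Finset.sum_le_sum_of_subset_of_nonneg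
      · intro p hp
        unfold Dp at hp
        rw [Finset.mem_filter] at hp ⊢
        exact ⟨hp.1, hp.2.1⟩
      · intro p _ _; exact abs_nonneg _
  have hT := TT_nonneg w D N
  have hLa : (N : ℝ) / 4 * v * |L| ≤ (N : ℝ) / 4 * v * L + Δ := by
    have h3 : -(N / 2 * v * L) ≤ Δ := by
      have := le_abs_self (TT w D N - N / 2 * v * L)
      rw [← hΔ] at this
      linarith
    have hΔ0 : 0 ≤ Δ := abs_nonneg _
    rcases abs_cases L with ⟨h4, _⟩ | ⟨h4, _⟩
    · rw [h4]; linarith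
    · rw [h4]
      have e : (N : ℝ) / 4 * v * -L = (N : ℝ) / 4 * v * L + -(N / 2 * v * L) := by ring
      rw [e]; linarith
  have hm : N / 2 * v * L - Δ ≤ TT w D N := by
    have := neg_abs_le (TT w D N - N / 2 * v * L)
    rw [← hΔ] at this
    linarith
  have e8 : (N : ℝ) / 4 * v * L = N / 2 * v * L - (N : ℝ) / 4 * v * L := by ring
  linarith

end Pool.Agent.PP5LR
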