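import Pool.Agent.PP5LR.Defs

/-!
# Hyp: the hyperbola method for `w`-rough numbers (difficulty 3)

(The version for odd numbers, PP5LD/Hyp.lean of helper85, may be adapted.)
`TT w D Y = ∑_{d, Rg w d} (D/d) #{m rough : Y / 2 < d m ≤ Y}` (integers: `n > ⌊Y/2⌋ ↔ n > Y/2`; a squarefree divisor `d` of a rough `n` satisfies
`Rg w d` (`w ≥ 2`, so rough numbers are odd), `m = n / d` is rough; conversely a product of rough numbers is rough).
`d ≤ z`: the number of rough `m` in `(t/2, t]`, `t = Y/d`, is `(t/2) Vw w + θ`, `|θ| ≤ 4 ^ (⌊w⌋₊ + 1)`: the number of rough `m ≤ s` is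
`∑_{e ∣ P} μ(e) ⌊s/e⌋` (`P` = product of the primes `≤ w`; or: induction over the primes) `= s Vw w + θ'`, `|θ'| ≤ 2 ^ π(w)`.
`d > z`: `m ≤ Y/d < Y/z`, for fixed `m` the condition is `max z ⌊Y/(2m)⌋ < d ≤ ⌊Y/m⌋`.
-/

set_option autoImplicit false

namespace Pool.Agent.PP5LR

open Finset

private theorem Hyp_cnt (S : Finset ℕ) (hS : ∀ p ∈ S, p.Prime) : ∀ n : ℕ,
    |((((Icc 1 n).filter (fun m => ∀ p ∈ S, ¬ p ∣ m)).card : ℕ) : ℝ)
      - n * ∏ p ∈ S, (1 - 1 / (p : ℝ))| ≤ 2 ^ S.card - 1 := by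
  induction S using Finset.induction_on with
  | empty => intro n; simp
  | insert q S hq ih =>
    intro n
    have hS' : ∀ p ∈ S, p.Prime := fun p hp => hS p (mem_insert_of_mem hp)
    have hqp : q.Prime := hS q (mem_insert_self _ _)
    have hq0 : 0 < q := hqp.pos
    have i1 := ih hS' n
    have i2 := ih hS' (n / q)
    have hc : ((Icc 1 n).filter (fun m => ∀ p ∈ S, ¬ p ∣ m)).card
        = ((Icc 1 n).filter (fun m => ∀ p ∈ insert q S, ¬ p ∣ m)).card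
          + ((Icc 1 (n / q)).filter (fun m => ∀ p ∈ S, ¬ p ∣ m)).card := by
      have h1 : (Icc 1 n).filter (fun m => ∀ p ∈ insert q S, ¬ p ∣ m)
          = ((Icc 1 n).filter (fun m => ∀ p ∈ S, ¬ p ∣ m)).filter (fun m => ¬ q ∣ m) := by
        ext m
        simp only [mem_filter, mem_insert, forall_eq_or_imp]
        tauto
      have h2 : ((Icc 1 (n / q)).filter (fun m => ∀ p ∈ S, ¬ p ∣ m)).card
          = (((Icc 1 n).filter (fun m => ∀ p ∈ S, ¬ p ∣ m)).filter (fun m => q ∣ m)).card := by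
        refine Finset.card_bij (fun m _ => q * m) ?_ ?_ ?_
        · intro m hm
          simp only [mem_filter, mem_Icc] at hm ⊢
          obtain ⟨⟨h3, h4⟩, h5⟩ := hm
          refine ⟨⟨⟨Nat.mul_pos hq0 h3, ?_⟩, ?_⟩, Dvd.intro _ rfl⟩
          · rw [mul_comm]
            exact (Nat.le_div_iff_mul_le hq0).1 h4
          · intro p hp hd
            rcases (hS' p hp).dvd_mul.1 hd with h6 | h6
            · have h7 := (Nat.prime_dvd_prime_iff_eq (hS' p hp) hqp).1 h6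
              exact hq (h7 ▸ hp)
            · exact h5 p hp h6
        · intro a _ b _ hab
          exact Nat.eq_of_mul_eq_mul_left hq0 hab
        · intro b hb
          simp only [mem_filter, mem_Icc] at hb
          obtain ⟨⟨⟨h3, h4⟩, h5⟩, ⟨m, rfl⟩⟩ := hb
          refine ⟨m, ?_, rfl⟩
          simp only [mem_filter, mem_Icc]
          refine ⟨⟨Nat.pos_of_ne_zero (by rintro rfl; simp at h3), ?_⟩, fun p hp hd => h5 p hp (Dvd.dvd.mul_left hd _)⟩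
          rw [Nat.le_div_iff_mul_le hq0, mul_comm]
          exact h4
      rw [h1, h2, add_comm]
      exact (Finset.card_filter_add_card_filter_not _).symm
    set a : ℕ := ((Icc 1 n).filter (fun m => ∀ p ∈ S, ¬ p ∣ m)).card
    set b : ℕ := ((Icc 1 n).filter (fun m => ∀ p ∈ insert q S, ¬ p ∣ m)).card
    set c : ℕ := ((Icc 1 (n / q)).filter (fun m => ∀ p ∈ S, ¬ p ∣ m)).card
    have hc' : (a : ℝ) = b + c := by exact_mod_cast hc
    rw [prod_insert hq, card_insert_of_notMem hq]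
    obtain ⟨V, hV⟩ : ∃ V : ℝ, V = ∏ p ∈ S, (1 - 1 / (p : ℝ)) := ⟨_, rfl⟩
    rw [← hV] at i1 i2 ⊢
    have hV0 : 0 ≤ V := by
      rw [hV]
      refine prod_nonneg fun p hp => ?_
      have : (1 : ℝ) ≤ p := by exact_mod_cast (hS' p hp).one_lt.le
      rw [sub_nonneg, div_le_one (by linarith)]
      exact this
    have hV1 : V ≤ 1 := by
      rw [hV]
      refine prod_le_one (fun p hp => ?_) (fun p hp => ?_)
      · have : (1 : ℝ) ≤ p := by exact_mod_cast (hS' p hp).one_lt.le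
        rw [sub_nonneg, div_le_one (by linarith)]
        exact this
      · have : (0 : ℝ) ≤ 1 / (p : ℝ) := by positivity
        linarith
    have hq1 : (0 : ℝ) < q := by exact_mod_cast hq0
    have hf1 : ((n / q : ℕ) : ℝ) ≤ n / q := Nat.cast_div_le
    have hf2 : (n : ℝ) / q < ((n / q : ℕ) : ℝ) + 1 := by
      rw [div_lt_iff₀ hq1]
      have h3 : n < (n / q + 1) * q := by
        have h4 := Nat.div_add_mod n q
        have h5 := Nat.mod_lt n hq0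
        nlinarith
      exact_mod_cast h3
    rw [abs_le] at i1 i2 ⊢
    rw [pow_succ]
    have e : (n : ℝ) * ((1 - 1 / (q : ℝ)) * V) = n * V - n / q * V := by ring
    rw [e]
    have g1 : ((n / q : ℕ) : ℝ) * V ≤ n / q * V := mul_le_mul_of_nonneg_right hf1 hV0
    have g2 : (n : ℝ) / q * V ≤ ((n / q : ℕ) : ℝ) * V + 1 := by
      have := mul_le_mul_of_nonneg_right hf2.le hV0
      nlinarith
    constructor <;> linarith [i1.1, i1.2, i2.1, i2.2]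

private theorem Hyp_Vw (w : ℝ) : 0 ≤ Vw w ∧ Vw w ≤ 1 := by
  have h : ∀ p ∈ (Icc 2 ⌊w⌋₊).filter Nat.Prime, 0 ≤ (1 - 1 / (p : ℝ)) ∧ (1 - 1 / (p : ℝ)) ≤ 1 := by
    intro p hp
    simp only [mem_filter, mem_Icc] at hp
    have h1 : (1 : ℝ) ≤ p := by exact_mod_cast hp.2.one_lt.le
    have h2 : (0 : ℝ) ≤ 1 / (p : ℝ) := by positivity
    have h3 : 1 / (p : ℝ) ≤ 1 := (div_le_one (by linarith)).2 h1
    exact ⟨by linarith, by linarith⟩
  exact ⟨prod_nonneg fun p hp => (h p hp).1,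
    prod_le_one (fun p hp => (h p hp).1) (fun p hp => (h p hp).2)⟩

open Classical in
private theorem Hyp_cnt1 (w : ℝ) (hw : 2 ≤ w) (n : ℕ) :
    |((((Icc 1 n).filter (Rf w)).card : ℕ) : ℝ) - n * Vw w| ≤ 2 ^ ⌊w⌋₊ - 1 := by
  have h := Hyp_cnt ((Icc 2 ⌊w⌋₊).filter Nat.Prime) (fun p hp => (mem_filter.1 hp).2) n
  have e : ∀ inst : DecidablePred (fun m : ℕ => ∀ p ∈ (Icc 2 ⌊w⌋₊).filter Nat.Prime, ¬ p ∣ m),
      @Finset.filter ℕ (fun m : ℕ => ∀ p ∈ (Icc 2 ⌊w⌋₊).filter Nat.Prime, ¬ p ∣ m) inst (Icc 1 n)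
      = (Icc 1 n).filter (Rf w) := by
    intro inst
    ext m
    rw [mem_filter, mem_filter]
    refine and_congr_right fun _ => ?_
    unfold Rf
    constructor
    · intro h1 p hp hd
      by_contra hc
      refine h1 p ?_ hd
      simp only [mem_filter, mem_Icc]
      exact ⟨⟨hp.two_le, Nat.le_floor (not_lt.1 hc)⟩, hp⟩
    · intro h1 p hp hd
      simp only [mem_filter, mem_Icc] at hp
      have h2 := h1 p hp.2 hd
      have h3 : (p : ℝ) ≤ w := (Nat.le_floor_iff (by linarith)).1 hp.1.2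
      linarith
  rw [e] at h
  refine h.trans ?_
  have h2 : ((Icc 2 ⌊w⌋₊).filter Nat.Prime).card ≤ ⌊w⌋₊ := by
    refine (card_filter_le _ _).trans ?_
    rw [Nat.card_Icc]
    omega
  have h3 : (2 : ℝ) ^ ((Icc 2 ⌊w⌋₊).filter Nat.Prime).card ≤ 2 ^ ⌊w⌋₊ :=
    pow_le_pow_right₀ (by norm_num) h2
  linarith

open Classical in
private theorem Hyp_cnt2 (w : ℝ) (hw : 2 ≤ w) (t : ℝ) (ht : 0 ≤ t) :
    |((((Ioc ⌊t / 2⌋₊ ⌊t⌋₊).filter (Rf w)).card : ℕ) : ℝ) - t / 2 * Vw w| ≤ 4 ^ (⌊w⌋₊ + 1) := by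
  have h0 : ⌊t / 2⌋₊ ≤ ⌊t⌋₊ := Nat.floor_mono (by linarith)
  have h1 : ((Icc 1 ⌊t⌋₊).filter (Rf w)).card =
      ((Icc 1 ⌊t / 2⌋₊).filter (Rf w)).card + ((Ioc ⌊t / 2⌋₊ ⌊t⌋₊).filter (Rf w)).card := by
    rw [← card_union_of_disjoint, ← filter_union]
    · congr 2
      ext x
      simp only [mem_Icc, mem_union, mem_Ioc]
      omega
    · rw [Finset.disjoint_left]
      intro x hx hx2
      simp only [mem_filter, mem_Icc, mem_Ioc] at hx hx2
      omega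
  have c1 := Hyp_cnt1 w hw ⌊t⌋₊
  have c2 := Hyp_cnt1 w hw ⌊t / 2⌋₊
  have a1 := Nat.floor_le ht
  have a2 := Nat.lt_floor_add_one t
  have a3 := Nat.floor_le (show 0 ≤ t / 2 by linarith)
  have a4 := Nat.lt_floor_add_one (t / 2)
  obtain ⟨v0, v1⟩ := Hyp_Vw w
  set c : ℕ := ((Ioc ⌊t / 2⌋₊ ⌊t⌋₊).filter (Rf w)).card
  set k : ℕ := ((Icc 1 ⌊t⌋₊).filter (Rf w)).card
  set l : ℕ := ((Icc 1 ⌊t / 2⌋₊).filter (Rf w)).card
  have h2 : (k : ℝ) = l + c := by exact_mod_cast h1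
  have b1 : ((⌊t⌋₊ : ℕ) : ℝ) * Vw w ≤ t * Vw w := mul_le_mul_of_nonneg_right a1 v0
  have b2 : t * Vw w ≤ ((⌊t⌋₊ : ℕ) : ℝ) * Vw w + 1 := by nlinarith
  have b3 : ((⌊t / 2⌋₊ : ℕ) : ℝ) * Vw w ≤ t / 2 * Vw w := mul_le_mul_of_nonneg_right a3 v0
  have b4 : t / 2 * Vw w ≤ ((⌊t / 2⌋₊ : ℕ) : ℝ) * Vw w + 1 := by nlinarith
  have g : (2 : ℝ) * 2 ^ ⌊w⌋₊ ≤ 4 ^ (⌊w⌋₊ + 1) := by
    have g1 : (2 : ℝ) ^ ⌊w⌋₊ ≤ 4 ^ ⌊w⌋₊ := pow_le_pow_left₀ (by norm_num) (by norm_num) _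
    have g2 : (0 : ℝ) ≤ 4 ^ ⌊w⌋₊ := by positivity
    rw [pow_succ]
    linarith
  rw [abs_le] at c1 c2 ⊢
  have e : t * Vw w = t / 2 * Vw w + t / 2 * Vw w := by ring
  constructor <;> linarith [c1.1, c1.2, c2.1, c2.2]

private theorem Hyp_mul {w : ℝ} {d m : ℕ} : Rf w (d * m) ↔ Rf w d ∧ Rf w m := by
  constructor
  · intro h
    exact ⟨fun p hp hd => h p hp (Dvd.dvd.mul_right hd _),
      fun p hp hd => h p hp (Dvd.dvd.mul_left hd _)⟩
  · rintro ⟨h1, h2⟩ p hp hd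
    rcases hp.dvd_mul.1 hd with h | h
    · exact h1 p hp h
    · exact h2 p hp h

private theorem Hyp_odd {w : ℝ} (hw : 2 ≤ w) {m : ℕ} (h : Rf w m) : Odd m := by
  by_contra hc
  rw [Nat.not_odd_iff_even] at hc
  have h1 := h 2 Nat.prime_two (even_iff_two_dvd.1 hc)
  push_cast at h1
  linarith

private theorem Hyp_jj (D : ℤ) (d : ℕ) : |jj D d| ≤ 1 := by
  unfold jj
  rcases jacobiSym.trichotomy D d with h | h | h <;> rw [h] <;> norm_num

open Classical in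
private theorem Hyp_TT (w : ℝ) (hw : 2 ≤ w) (D : ℤ) (a M : ℕ) :
    ∑ n ∈ (Ioc a M).filter (Rf w), rr D n =
      ∑ d ∈ (Icc 1 M).filter (Rg w), ∑ m ∈ (Icc 1 M).filter (fun m => Rf w m ∧ a < d * m ∧ d * m ≤ M),
        jj D d := by
  unfold rr
  rw [Finset.sum_sigma', Finset.sum_sigma']
  refine Finset.sum_nbij' (fun x => ⟨x.2, x.1 / x.2⟩) (fun x => ⟨x.1 * x.2, x.1⟩) ?_ ?_ ?_ ?_ ?_
  · rintro ⟨n, d⟩ h
    simp only [mem_sigma, mem_filter, mem_Ioc, Nat.mem_divisors, mem_Icc] at h ⊢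
    obtain ⟨⟨⟨h1, h2⟩, h3⟩, ⟨h4, h5⟩, h6⟩ := h
    obtain ⟨m, rfl⟩ := h4
    have hd : 0 < d := Nat.pos_of_ne_zero (by rintro rfl; simp at h5)
    have hm : 0 < m := Nat.pos_of_ne_zero (by rintro rfl; simp at h5)
    rw [Nat.mul_div_cancel_left _ hd]
    have h7 := Hyp_mul.1 h3
    have h8 : d ≤ d * m := Nat.le_mul_of_pos_right _ hm
    have h9 : m ≤ d * m := Nat.le_mul_of_pos_left _ hd
    exact ⟨⟨⟨hd, h8.trans h2⟩, h6, Hyp_odd hw h7.1, h7.1⟩, ⟨hm, h9.trans h2⟩, h7.2, h1, h2⟩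
  · rintro ⟨d, m⟩ h
    simp only [mem_sigma, mem_filter, mem_Ioc, Nat.mem_divisors, mem_Icc, Rg] at h ⊢
    obtain ⟨⟨⟨h1, h2⟩, h3, h4⟩, ⟨h5, h6⟩, h7, h8, h9⟩ := h
    refine ⟨⟨⟨h8, h9⟩, Hyp_mul.2 ⟨h4.2, h7⟩⟩, ⟨Dvd.intro _ rfl, ?_⟩, h3⟩
    have : 0 < d * m := Nat.mul_pos h1 h5
    omega
  · rintro ⟨n, d⟩ h
    simp only [mem_sigma, mem_filter, mem_Ioc, Nat.mem_divisors] at h
    simp only [Nat.mul_div_cancel' h.2.1.1]
  · rintro ⟨d, m⟩ h
    simp only [mem_sigma, mem_filter, mem_Icc] at h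
    have hd : 0 < d := h.1.1.1
    simp only [Nat.mul_div_cancel_left _ hd]
  · rintro ⟨n, d⟩ h
    rfl

theorem hyp (w : ℝ) (hw : 2 ≤ w) (D : ℤ) (z : ℕ) (Y : ℝ) (hz : 1 ≤ z) (hY : (z : ℝ) ≤ Y) :
    |TT w D Y - Y / 2 * Vw w * LL w D z| ≤ 4 ^ (⌊w⌋₊ + 1) * z + Er w D z Y := by
  classical
  have hz1 : (1 : ℝ) ≤ z := by exact_mod_cast hz
  have hY0 : 0 ≤ Y := by linarith
  have hzM : z ≤ ⌊Y⌋₊ := Nat.le_floor hY
  have hT : TT w D Y = ∑ d ∈ (Icc 1 ⌊Y⌋₊).filter (Rg w),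
      ∑ m ∈ (Icc 1 ⌊Y⌋₊).filter (fun m => Rf w m ∧ ⌊Y / 2⌋₊ < d * m ∧ d * m ≤ ⌊Y⌋₊), jj D d := by
    unfold TT
    convert Hyp_TT w hw D ⌊Y / 2⌋₊ ⌊Y⌋₊
  have hsplit : (Icc 1 ⌊Y⌋₊).filter (Rg w) = (Icc 1 z).filter (Rg w) ∪ (Ioc z ⌊Y⌋₊).filter (Rg w) := by
    rw [← filter_union]
    congr 1
    ext x
    simp only [mem_Icc, mem_union, mem_Ioc]
    omega
  have hdisj : Disjoint ((Icc 1 z).filter (Rg w)) ((Ioc z ⌊Y⌋₊).filter (Rg w)) := by
    rw [Finset.disjoint_left]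
    intro x hx hx2
    simp only [mem_filter, mem_Icc, mem_Ioc] at hx hx2
    omega
  rw [hsplit, sum_union hdisj] at hT
  -- small d
  have h1 : |(∑ d ∈ (Icc 1 z).filter (Rg w),
      ∑ m ∈ (Icc 1 ⌊Y⌋₊).filter (fun m => Rf w m ∧ ⌊Y / 2⌋₊ < d * m ∧ d * m ≤ ⌊Y⌋₊), jj D d)
        - Y / 2 * Vw w * LL w D z| ≤ 4 ^ (⌊w⌋₊ + 1) * z := by
    have e1 : (∑ d ∈ (Icc 1 z).filter (Rg w),
      ∑ m ∈ (Icc 1 ⌊Y⌋₊).filter (fun m => Rf w m ∧ ⌊Y / 2⌋₊ < d * m ∧ d * m ≤ ⌊Y⌋₊), jj D d)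
        - Y / 2 * Vw w * LL w D z = ∑ d ∈ (Icc 1 z).filter (Rg w), jj D d *
          (((((Ioc ⌊Y / d / 2⌋₊ ⌊Y / d⌋₊).filter (Rf w)).card : ℕ) : ℝ) - Y / d / 2 * Vw w) := by
      have e2 : LL w D z = ∑ d ∈ (Icc 1 z).filter (Rg w), jj D d / d := by
        unfold LL
        congr 1
      rw [e2, mul_sum, ← sum_sub_distrib]
      refine sum_congr rfl fun d hd => ?_
      simp only [mem_filter, mem_Icc] at hd
      have hd0 : 0 < d := hd.1.1
      have hd1 : (0 : ℝ) < d := by exact_mod_cast hd0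
      have hset : (Icc 1 ⌊Y⌋₊).filter (fun m => Rf w m ∧ ⌊Y / 2⌋₊ < d * m ∧ d * m ≤ ⌊Y⌋₊) =
          (Ioc ⌊Y / d / 2⌋₊ ⌊Y / d⌋₊).filter (Rf w) := by
        ext m
        simp only [mem_filter, mem_Icc, mem_Ioc]
        rw [Nat.floor_lt (by positivity), Nat.floor_lt (by positivity), Nat.le_floor_iff hY0,
          Nat.le_floor_iff hY0, Nat.le_floor_iff (by positivity)]
        push_cast
        have c1 : Y / 2 < (d : ℝ) * m ↔ Y / d / 2 < m := by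
          rw [div_div, div_lt_iff₀ (by positivity), div_lt_iff₀ (by positivity)]
          constructor <;> intro h <;> linarith
        have c2 : (d : ℝ) * m ≤ Y ↔ (m : ℝ) ≤ Y / d := by
          rw [le_div_iff₀ hd1, mul_comm]
        rw [c1, c2]
        constructor
        · rintro ⟨_, h3, h4, h5⟩
          exact ⟨⟨h4, h5⟩, h3⟩
        · rintro ⟨⟨h4, h5⟩, h3⟩
          refine ⟨⟨(Hyp_odd hw h3).pos, ?_⟩, h3, h4, h5⟩
          have : Y / d ≤ Y := by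
            apply div_le_self hY0
            exact_mod_cast hd0
          linarith
      rw [hset, sum_const, nsmul_eq_mul]
      field_simp
    rw [e1]
    refine (abs_sum_le_sum_abs _ _).trans ?_
    have e3 : ∀ d ∈ (Icc 1 z).filter (Rg w), |jj D d *
          (((((Ioc ⌊Y / d / 2⌋₊ ⌊Y / d⌋₊).filter (Rf w)).card : ℕ) : ℝ) - Y / d / 2 * Vw w)| ≤ 4 ^ (⌊w⌋₊ + 1) := by
      intro d hd
      simp only [mem_filter, mem_Icc] at hd
      rw [abs_mul]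
      have h5 := Hyp_cnt2 w hw (Y / d) (by positivity)
      calc _ ≤ (1 : ℝ) * 4 ^ (⌊w⌋₊ + 1) :=
            mul_le_mul (Hyp_jj D d) h5 (abs_nonneg _) zero_le_one
        _ = 4 ^ (⌊w⌋₊ + 1) := one_mul _
    refine (sum_le_sum e3).trans ?_
    rw [sum_const, nsmul_eq_mul, mul_comm]
    have h6 : ((Icc 1 z).filter (Rg w)).card ≤ z := by
      refine (card_filter_le _ _).trans ?_
      simp
    exact mul_le_mul_of_nonneg_left (by exact_mod_cast h6) (by positivity)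
  -- large d
  have h2 : |∑ d ∈ (Ioc z ⌊Y⌋₊).filter (Rg w),
      ∑ m ∈ (Icc 1 ⌊Y⌋₊).filter (fun m => Rf w m ∧ ⌊Y / 2⌋₊ < d * m ∧ d * m ≤ ⌊Y⌋₊), jj D d|
        ≤ Er w D z Y := by
    have e1 : (∑ d ∈ (Ioc z ⌊Y⌋₊).filter (Rg w),
      ∑ m ∈ (Icc 1 ⌊Y⌋₊).filter (fun m => Rf w m ∧ ⌊Y / 2⌋₊ < d * m ∧ d * m ≤ ⌊Y⌋₊), jj D d)
        = ∑ m ∈ (Icc 1 ⌊Y⌋₊).filter (Rf w), VV w D (max z ⌊Y / (2 * m)⌋₊) ⌊Y / m⌋₊ := by
      have e2 : ∀ m ∈ (Icc 1 ⌊Y⌋₊).filter (Rf w), VV w D (max z ⌊Y / (2 * m)⌋₊) ⌊Y / m⌋₊ =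
          ∑ d ∈ (Ioc z ⌊Y⌋₊).filter (Rg w),
            if ⌊Y / 2⌋₊ < d * m ∧ d * m ≤ ⌊Y⌋₊ then jj D d else 0 := by
        intro m hm
        simp only [mem_filter, mem_Icc] at hm
        have hm0 : 0 < m := hm.1.1
        have hm1 : (0 : ℝ) < m := by exact_mod_cast hm0
        have hm2 : (1 : ℝ) ≤ m := by exact_mod_cast hm0
        unfold VV
        rw [← sum_filter, filter_filter]
        refine sum_congr ?_ fun _ _ => rfl
        ext d
        simp only [mem_filter, mem_Ioc, max_lt_iff]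
        rw [Nat.floor_lt (by positivity), Nat.floor_lt (by positivity), Nat.le_floor_iff hY0,
          Nat.le_floor_iff hY0, Nat.le_floor_iff (by positivity)]
        push_cast
        have c1 : Y / 2 < (d : ℝ) * m ↔ Y / (2 * m) < d := by
          rw [div_lt_iff₀ (by positivity), div_lt_iff₀ (by positivity)]
          constructor <;> intro h <;> linarith
        have c2 : (d : ℝ) * m ≤ Y ↔ (d : ℝ) ≤ Y / m := by
          rw [le_div_iff₀ hm1]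
        rw [c1, c2]
        constructor
        · rintro ⟨⟨⟨h3, h4⟩, h5⟩, h6⟩
          have : Y / m ≤ Y := div_le_self hY0 hm2
          exact ⟨⟨h3, by linarith⟩, h6, h4, h5⟩
        · rintro ⟨⟨h3, h4⟩, h5, h6, h7⟩
          exact ⟨⟨⟨h3, h6⟩, h7⟩, h5⟩
      rw [sum_congr rfl e2, sum_comm]
      refine sum_congr rfl fun d _ => ?_
      rw [← sum_filter, filter_filter]
    rw [e1]
    have e3 : ∑ m ∈ (Icc 1 ⌊Y⌋₊).filter (Rf w), VV w D (max z ⌊Y / (2 * m)⌋₊) ⌊Y / m⌋₊ =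
        ∑ m ∈ (Icc 1 ⌊Y / z⌋₊).filter (Rf w), VV w D (max z ⌊Y / (2 * m)⌋₊) ⌊Y / m⌋₊ := by
      symm
      refine sum_subset ?_ ?_
      · intro m hm
        simp only [mem_filter, mem_Icc] at hm ⊢
        refine ⟨⟨hm.1.1, hm.1.2.trans (Nat.floor_mono ?_)⟩, hm.2⟩
        exact div_le_self hY0 hz1
      · intro m hm hm2
        simp only [mem_filter, mem_Icc] at hm hm2
        have hm0 : 0 < m := hm.1.1
        have hm1 : (0 : ℝ) < m := by exact_mod_cast hm0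
        have h3 : ⌊Y / z⌋₊ < m := by
          by_contra hc
          exact hm2 ⟨⟨hm0, by omega⟩, hm.2⟩
        rw [Nat.floor_lt (by positivity)] at h3
        have h4 : ⌊Y / m⌋₊ < z := by
          rw [Nat.floor_lt (by positivity)]
          rw [div_lt_iff₀ (by positivity)] at h3 ⊢
          linarith
        unfold VV
        rw [Ioc_eq_empty (by omega)]
        simp
    rw [e3]
    unfold Er
    refine (abs_sum_le_sum_abs _ _).trans (le_of_eq ?_)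
    convert rfl
  rw [hT]
  have h3 : ∀ a b c : ℝ, a + b - c = (a - c) + b := by intros; ring
  rw [h3]
  exact (abs_add_le _ _).trans (add_le_add h1 h2)

end Pool.Agent.PP5LR
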