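import Pool.Agent.PP5LR.Defs

/-!
# Prd: sums over squarefree numbers without small prime factors (difficulty 3)

`rg_sum`: the `u ≤ z` with `Rg w u` are products of subsets of the primes `w < p ≤ z`, so the sum is `≤ ∏_{w < p ≤ z} (1 + h p)`
(`Finset.prod_one_add`) `≤ exp (∑ C / p²) ≤ exp (C / ⌊w⌋) ≤ exp (2 C / w)` (`∑_{n > k} 1 / n² ≤ 1 / k`).
-/

set_option autoImplicit false

namespace Pool.Agent.PP5LR

open Finset

private theorem prd_dvd_prod {S : Finset ℕ} (hS : ∀ p ∈ S, p.Prime) {q : ℕ} (hq : q.Prime)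
    (h : q ∣ ∏ p ∈ S, p) : q ∈ S := by
  obtain ⟨p, hp, hqp⟩ := (Prime.dvd_finsetProd_iff hq.prime (fun p : ℕ => p)).1 h
  have := (Nat.prime_dvd_prime_iff_eq hq (hS p hp)).1 hqp
  rw [this]
  exact hp

private theorem prd_sqf {S : Finset ℕ} (hS : ∀ p ∈ S, p.Prime) : Squarefree (∏ p ∈ S, p) := by
  refine squarefree_prod_of_pairwise_isCoprime ?_ (fun p hp => (hS p hp).squarefree)
  intro p hp q hq hpq
  exact Nat.coprime_iff_isRelPrime.1 ((Nat.coprime_primes (hS p hp) (hS q hq)).2 hpq)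

open Classical in
theorem rg_sum (w C : ℝ) (hw : 2 ≤ w) (hC : 0 ≤ C) (h : ℕ → ℝ)
    (hh : ∀ p : ℕ, p.Prime → w < (p : ℝ) → 0 ≤ h p ∧ h p ≤ C / (p : ℝ) ^ 2) (z : ℕ) :
    ∑ u ∈ (Icc 1 z).filter (Rg w), ∏ p ∈ u.primeFactors, h p ≤ Real.exp (2 * C / w) := by
  have hw0 : (0 : ℝ) ≤ w := by linarith
  set S : Finset ℕ := (Icc 1 z).filter (fun p : ℕ => p.Prime ∧ w < (p : ℝ)) with hS
  have hSm : ∀ p ∈ S, p.Prime ∧ w < (p : ℝ) ∧ p ≤ z := by
    intro p hp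
    rw [hS, mem_filter, mem_Icc] at hp
    exact ⟨hp.2.1, hp.2.2, hp.1.2⟩
  have h1 : ∑ u ∈ (Icc 1 z).filter (Rg w), ∏ p ∈ u.primeFactors, h p ≤
      ∑ t ∈ S.powerset, ∏ p ∈ t, h p := by
    have hinj : Set.InjOn (fun u : ℕ => u.primeFactors) ((Icc 1 z).filter (Rg w) : Finset ℕ) := by
      intro a ha b hb hab
      rw [mem_coe, mem_filter] at ha hb
      rw [← Nat.prod_primeFactors_of_squarefree ha.2.1, ← Nat.prod_primeFactors_of_squarefree hb.2.1]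
      exact Finset.prod_congr hab fun _ _ => rfl
    have h2 : ∑ u ∈ (Icc 1 z).filter (Rg w), ∏ p ∈ u.primeFactors, h p =
        ∑ t ∈ ((Icc 1 z).filter (Rg w)).image (fun u : ℕ => u.primeFactors), ∏ p ∈ t, h p := by
      rw [Finset.sum_image hinj]
    rw [h2]
    refine Finset.sum_le_sum_of_subset_of_nonneg ?_ ?_
    · intro t ht
      obtain ⟨u, hu, rfl⟩ := mem_image.1 ht
      rw [mem_filter, mem_Icc] at hu
      rw [mem_powerset]
      intro p hp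
      have hpp := Nat.prime_of_mem_primeFactors hp
      have hpd := Nat.dvd_of_mem_primeFactors hp
      rw [hS, mem_filter, mem_Icc]
      exact ⟨⟨hpp.one_le, (Nat.le_of_dvd (by omega) hpd).trans hu.1.2⟩, hpp, hu.2.2.2 p hpp hpd⟩
    · intro t ht _
      refine Finset.prod_nonneg fun p hp => ?_
      have := hSm p (mem_powerset.1 ht hp)
      exact (hh p this.1 this.2.1).1
  refine h1.trans ?_
  rw [← Finset.prod_one_add]
  have h3 : ∏ p ∈ S, (1 + h p) ≤ ∏ p ∈ S, Real.exp (C / (p : ℝ) ^ 2) := by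
    refine Finset.prod_le_prod ?_ ?_
    · intro p hp
      have := hSm p hp
      have := (hh p this.1 this.2.1).1
      linarith
    · intro p hp
      have h4 := hSm p hp
      have h5 := (hh p h4.1 h4.2.1).2
      have h6 := Real.add_one_le_exp (C / (p : ℝ) ^ 2)
      linarith
  refine h3.trans ?_
  rw [← Real.exp_sum, Real.exp_le_exp]
  -- the sum of `C / p ^ 2`
  set k : ℕ := ⌊w⌋₊ with hk
  have hk2 : 2 ≤ k := Nat.le_floor (by exact_mod_cast hw)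
  have hkw : w < (k : ℝ) + 1 := Nat.lt_floor_add_one w
  have hk2' : (2 : ℝ) ≤ (k : ℝ) := by exact_mod_cast hk2
  have hk0 : (0 : ℝ) < (k : ℝ) := by linarith
  have h7 : ∑ p ∈ S, C / (p : ℝ) ^ 2 ≤ ∑ i ∈ Ioc k (max k z), C * (((i : ℝ)) ^ 2)⁻¹ := by
    have h8 : ∑ p ∈ S, C / (p : ℝ) ^ 2 = ∑ p ∈ S, C * (((p : ℝ)) ^ 2)⁻¹ :=
      Finset.sum_congr rfl fun p _ => by rw [div_eq_mul_inv]
    rw [h8]
    refine Finset.sum_le_sum_of_subset_of_nonneg ?_ ?_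
    · intro p hp
      obtain ⟨hp1, hp2, hp3⟩ := hSm p hp
      rw [mem_Ioc]
      refine ⟨?_, hp3.trans (le_max_right _ _)⟩
      exact (Nat.floor_lt hw0).2 hp2
    · intro i _ _
      positivity
  refine h7.trans ?_
  rw [← Finset.mul_sum]
  have h9 : ∑ i ∈ Ioc k (max k z), (((i : ℝ)) ^ 2)⁻¹ ≤ (k : ℝ)⁻¹ - ((max k z : ℕ) : ℝ)⁻¹ :=
    sum_Ioc_inv_sq_le_sub (by omega) (le_max_left _ _)
  have h10 : (0 : ℝ) ≤ ((max k z : ℕ) : ℝ)⁻¹ := by positivity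
  have h11 : (k : ℝ)⁻¹ ≤ 2 / w := by
    rw [inv_eq_one_div, div_le_div_iff₀ hk0 (by linarith)]
    linarith
  calc C * ∑ i ∈ Ioc k (max k z), (((i : ℝ)) ^ 2)⁻¹ ≤ C * (2 / w) :=
        mul_le_mul_of_nonneg_left (by linarith) hC
    _ = 2 * C / w := by ring

end Pool.Agent.PP5LR
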