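import Pool.Agent.PP5LR.Nng
import Pool.Agent.PP5LR.Prd

/-!
# Lfm: the first moment of `LL` (difficulty 2)

(Simplification of PP5LD/Lfm.lean of helper68: no `d1`.)
`mean` with `g = 1`: `∑_x jj (D x) d ≥ |X| (∏ e p - R ^ (-δ))` for `Rg w d`, `d ≤ z ≤ R ^ δ`.  `|∏ e p| / d ≤ ∏ C / p²`; `rg_sum` (the term `d = 1` is `1`,
it occurs because `1 ≤ z`): `∑_{d ≤ z} (∏ e p) / d ≥ 1 - (exp (2C/w) - 1) ≥ 3/4` for `w ≥ w0`.  The error is `≤ |X| R ^ (-δ) ∑_{d ≤ z} 1/d ≤ |X| R ^ (-δ) (1 + log z) ≤ |X| / 4`.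
-/

set_option autoImplicit false

namespace Pool.Agent.PP5LR

open Finset

private theorem lfm_rg_one (w : ℝ) : Rg w 1 :=
  ⟨squarefree_one, odd_one, fun p hp h => absurd (Nat.dvd_one.mp h) hp.one_lt.ne'⟩

open Classical in
private theorem lfm_harm (w : ℝ) {n z : ℕ} (hn : n ≤ z) (hz : 1 ≤ z) :
    ∑ d ∈ (Icc 1 n).filter (Rg w), (1 : ℝ) / d ≤ 1 + Real.log z := by
  have h1 : ∑ d ∈ (Icc 1 n).filter (Rg w), (1 : ℝ) / d ≤ ∑ d ∈ Icc 1 z, (1 : ℝ) / d := by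
    apply Finset.sum_le_sum_of_subset_of_nonneg
    · exact (Finset.filter_subset _ _).trans (Finset.Icc_subset_Icc le_rfl hn)
    · intro i _ _
      positivity
  have h2 : ∑ d ∈ Icc 1 z, (1 : ℝ) / d = ((harmonic z : ℚ) : ℝ) := by
    rw [harmonic_eq_sum_Icc]
    push_cast
    exact Finset.sum_congr rfl fun i _ => by rw [one_div]
  rw [h2] at h1
  exact h1.trans (harmonic_le_one_add_log z)

private theorem lfm_prod {C w : ℝ} {e : ℕ → ℝ} (hea : ∀ p : ℕ, p.Prime → w < (p : ℝ) → |e p| ≤ C / p)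
    {d : ℕ} (hd : Rg w d) :
    |(∏ p ∈ d.primeFactors, e p) / d| ≤ ∏ p ∈ d.primeFactors, C / (p : ℝ) ^ 2 := by
  have h1 : (d : ℝ) = ∏ p ∈ d.primeFactors, (p : ℝ) := by
    have := Nat.prod_primeFactors_of_squarefree hd.1
    conv_lhs => rw [← this]
    push_cast
    rfl
  have h2 : (∏ p ∈ d.primeFactors, e p) / (d : ℝ) = ∏ p ∈ d.primeFactors, e p / (p : ℝ) := by
    rw [Finset.prod_div_distrib, ← h1]
  rw [h2, Finset.abs_prod]
  apply Finset.prod_le_prod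
  · intro i _
    exact abs_nonneg _
  · intro p hp
    have hpp : p.Prime := Nat.prime_of_mem_primeFactors hp
    have hpw : w < (p : ℝ) := hd.2.2 p hpp (Nat.dvd_of_mem_primeFactors hp)
    have hp0 : (0 : ℝ) < p := by exact_mod_cast hpp.pos
    rw [abs_div, abs_of_pos hp0, sq, ← div_div]
    exact div_le_div_of_nonneg_right (hea p hpp hpw) hp0.le

open Classical in
private theorem lfm_main {C w : ℝ} (hw : 2 ≤ w) (hC : 0 ≤ C) (hexp : Real.exp (2 * C / w) ≤ 5 / 4)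
    {e : ℕ → ℝ} (hea : ∀ p : ℕ, p.Prime → w < (p : ℝ) → |e p| ≤ C / p) {n : ℕ} (hn : 1 ≤ n) :
    (3 : ℝ) / 4 ≤ ∑ d ∈ (Icc 1 n).filter (Rg w), (∏ p ∈ d.primeFactors, e p) / d := by
  have h0 := rg_sum w C hw hC (fun p => C / (p : ℝ) ^ 2)
    (fun p _ _ => ⟨by positivity, le_rfl⟩) n
  have hmem : 1 ∈ (Icc 1 n).filter (Rg w) :=
    Finset.mem_filter.mpr ⟨Finset.mem_Icc.mpr ⟨le_rfl, hn⟩, lfm_rg_one w⟩
  rw [← Finset.add_sum_erase _ _ hmem] at h0 ⊢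
  have h1 : ∏ p ∈ (1 : ℕ).primeFactors, C / (p : ℝ) ^ 2 = 1 := by simp
  have h2 : (∏ p ∈ (1 : ℕ).primeFactors, e p) / ((1 : ℕ) : ℝ) = 1 := by simp
  rw [h1] at h0
  rw [h2]
  have h3 : |∑ d ∈ ((Icc 1 n).filter (Rg w)).erase 1, (∏ p ∈ d.primeFactors, e p) / (d : ℝ)| ≤
      ∑ d ∈ ((Icc 1 n).filter (Rg w)).erase 1, ∏ p ∈ d.primeFactors, C / (p : ℝ) ^ 2 := by
    refine (Finset.abs_sum_le_sum_abs _ _).trans (Finset.sum_le_sum fun d hd => ?_)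
    exact lfm_prod hea (Finset.mem_filter.mp (Finset.mem_of_mem_erase hd)).2
  have h4 := (abs_le.mp h3).1
  linarith

private theorem lfm_err {t : ℝ} (ht : 64 ≤ t) {z : ℕ} (hz : 1 ≤ z) (hzt : (z : ℝ) ≤ t) :
    t⁻¹ * (1 + Real.log z) ≤ 1 / 4 := by
  have h0 : (0 : ℝ) < t := by linarith
  have h1 : Real.log z ≤ Real.log t := Real.log_le_log (by exact_mod_cast hz) hzt
  have h2 : 8 ≤ Real.sqrt t := by
    rw [show (8 : ℝ) = Real.sqrt 64 by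
      rw [show (64 : ℝ) = 8 ^ 2 by norm_num, Real.sqrt_sq (by norm_num)]]
    exact Real.sqrt_le_sqrt ht
  have h3 : Real.log t = 2 * Real.log (Real.sqrt t) := by
    rw [Real.log_sqrt h0.le]; ring
  have h4 : Real.log (Real.sqrt t) ≤ Real.sqrt t - 1 := Real.log_le_sub_one_of_pos (by linarith)
  have h5 : Real.sqrt t * Real.sqrt t = t := Real.mul_self_sqrt h0.le
  rw [inv_mul_le_iff₀ h0]
  nlinarith

theorem lfm (δ C A : ℝ) (hδ : 0 < δ) (hC : 0 ≤ C) (hA : 1 ≤ A) : ∃ w0 : ℝ, 2 ≤ w0 ∧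
    ∀ w : ℝ, w0 ≤ w → ∃ R0 : ℝ, 1 ≤ R0 ∧ ∀ R : ℝ, R0 ≤ R →
    ∀ (ι : Type) (X : Finset ι) (D : ι → ℤ) (e f : ℕ → ℝ), Fam X D e f w R δ C A →
    ∀ z : ℕ, 1 ≤ z → (z : ℝ) ≤ R ^ δ → (X.card : ℝ) / 2 ≤ ∑ x ∈ X, LL w (D x) z := by
  classical
  refine ⟨max 2 (2 * C / Real.log (5 / 4)), le_max_left _ _, fun w hw => ?_⟩
  have hw2 : 2 ≤ w := (le_max_left _ _).trans hw
  have hwC : 2 * C / Real.log (5 / 4) ≤ w := (le_max_right _ _).trans hw
  have hexp : Real.exp (2 * C / w) ≤ 5 / 4 := by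
    rw [← Real.le_log_iff_exp_le (by norm_num)]
    have hl : 0 < Real.log (5 / 4) := Real.log_pos (by norm_num)
    rw [div_le_iff₀ hl] at hwC
    rw [div_le_iff₀ (by linarith)]
    linarith
  refine ⟨max 1 ((64 : ℝ) ^ (1 / δ)), le_max_left _ _, fun R hR ι X D e f hF z hz1 hzR => ?_⟩
  have hR1 : 1 ≤ R := (le_max_left _ _).trans hR
  have ht : 64 ≤ R ^ δ := by
    have h1 : ((64 : ℝ) ^ (1 / δ)) ^ δ ≤ R ^ δ :=
      Real.rpow_le_rpow (by positivity) ((le_max_right _ _).trans hR) hδ.le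
    rw [← Real.rpow_mul (by norm_num), one_div, inv_mul_cancel₀ hδ.ne', Real.rpow_one] at h1
    exact h1
  have hRneg : R ^ (-δ) = (R ^ δ)⁻¹ := Real.rpow_neg (by linarith) δ
  have herr := lfm_err ht hz1 hzR
  have hRpos : 0 < R ^ δ := by linarith
  -- the mean
  have hmean : ∀ d : ℕ, Rg w d → d ≤ z →
      (X.card : ℝ) * (∏ p ∈ d.primeFactors, e p) - X.card * (R ^ δ)⁻¹ ≤ ∑ x ∈ X, jj (D x) d := by
    intro d hd hdz
    have h1 := hF.mean d 1 hd (lfm_rg_one w) (Nat.coprime_one_right d) (by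
      rw [mul_one]
      exact (Nat.cast_le.mpr hdz).trans hzR)
    have h2 : ∑ x ∈ X, (if Int.gcd (D x) ((1 : ℕ) : ℤ) = 1 then jj (D x) d else 0) = ∑ x ∈ X, jj (D x) d := by
      apply Finset.sum_congr rfl
      intro x _
      simp
    rw [h2, hRneg] at h1
    have h3 := (abs_le.mp h1).1
    have h4 : (∏ p ∈ (1 : ℕ).primeFactors, f p) = 1 := by simp
    rw [h4, mul_one] at h3
    linarith
  have h1 : ∑ x ∈ X, LL w (D x) z = ∑ d ∈ (Icc 1 z).filter (Rg w), (∑ x ∈ X, jj (D x) d) / d := by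
    unfold LL
    rw [Finset.sum_comm]
    apply Finset.sum_congr (by congr!)
    intro d _
    rw [Finset.sum_div]
  rw [h1]
  have h3 : ∑ d2 ∈ (Icc 1 z).filter (Rg w), ((X.card : ℝ) * ((∏ p ∈ d2.primeFactors, e p) / d2)
      - X.card * (R ^ δ)⁻¹ * (1 / d2)) ≤
      ∑ d2 ∈ (Icc 1 z).filter (Rg w), (∑ x ∈ X, jj (D x) d2) / d2 := by
    apply Finset.sum_le_sum
    intro d2 hd2
    obtain ⟨h4, h5⟩ := Finset.mem_filter.mp hd2
    obtain ⟨h6, h7⟩ := Finset.mem_Icc.mp h4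
    have h8 := hmean d2 h5 h7
    have h9 : (0 : ℝ) < d2 := by exact_mod_cast h6
    rw [le_div_iff₀ h9]
    calc _ = (X.card : ℝ) * (∏ p ∈ d2.primeFactors, e p) - X.card * (R ^ δ)⁻¹ := by
          field_simp
      _ ≤ _ := h8
  rw [Finset.sum_sub_distrib, ← Finset.mul_sum, ← Finset.mul_sum] at h3
  have h4 := lfm_main hw2 hC hexp hF.ea hz1
  have h5 := lfm_harm w le_rfl hz1
  have h6 : (0 : ℝ) ≤ X.card := Nat.cast_nonneg _
  have h7 : (X.card : ℝ) * (3 / 4) ≤ X.card * ∑ d ∈ (Icc 1 z).filter (Rg w), (∏ p ∈ d.primeFactors, e p) / d :=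
    mul_le_mul_of_nonneg_left (by convert h4) h6
  have h8 : (X.card : ℝ) * (R ^ δ)⁻¹ * ∑ d ∈ (Icc 1 z).filter (Rg w), (1 : ℝ) / d ≤ X.card * (1 / 4) := by
    rw [mul_assoc]
    apply mul_le_mul_of_nonneg_left _ h6
    refine (mul_le_mul_of_nonneg_left ?_ (inv_nonneg.mpr hRpos.le)).trans herr
    convert h5
  linarith

end Pool.Agent.PP5LR
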