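import Pool.Agent.PP5LR.Nng
import Pool.Agent.PP5LR.Prd

/-!
# Lsm: the second moment of `LL` (difficulty 3)

(Simplification of PP5LD/Lsm.lean of helper67: no `d1`, `d1'`.)
`∑_x LL ^ 2 = ∑_{d, d' ≤ z, Rg} 1/(d d') ∑_x jj (D x) d * jj (D x) d'`.  With `g = gcd(d, d')`,
`m = d d' / g²`: `jj D d * jj D d' = if gcd (D, g) = 1 then jj D m else 0`, `m`, `g` coprime, `Rg`, `m g ≤ z ^ 2 ≤ R ^ δ`; `mean`:
`∑_x .. ≤ |X| (∏_{p | m} C/p + R ^ (-δ))`.  `(d, d') ↦ (g, d/g, d'/g)` is injective and `1/(d d') ∏_{p | m} C/p = (1/g²) ∏_{p | u} C/p² ∏_{p | v} C/p²`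
(`m = u v`, `u`, `v` coprime), so by `rg_sum` (with `h p = 1/p²`, `C/p²`) the main term is `≤ |X| exp (1) exp (C) ^ 2`;
the error is `≤ |X| R ^ (-δ) (1 + log z) ^ 2 ≤ K |X|`.
-/

set_option autoImplicit false

namespace Pool.Agent.PP5LR

open Finset

open Classical in
/-- the sum over the rough numbers -/
private noncomputable def LsmS (w : ℝ) (D : ℤ) (y : ℕ) : ℝ :=
  ∑ d ∈ (Icc 1 y).filter (Rg w), jj D d / d

private theorem LsmRg {w : ℝ} {m d : ℕ} (h : Rg w m) (hd : d ∣ m) : Rg w d :=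
  ⟨h.1.squarefree_of_dvd hd, h.2.1.of_dvd_nat hd, fun p hp hpd => h.2.2 p hp (hpd.trans hd)⟩

private theorem LsmSq (D : ℤ) {g : ℕ} (hg : g ≠ 0) :
    jj D g * jj D g = if Int.gcd D g = 1 then 1 else 0 := by
  unfold jj
  split_ifs with h
  · have := jacobiSym.sq_one h
    have h2 : ((jacobiSym D g : ℤ) : ℝ) ^ 2 = 1 := by exact_mod_cast this
    rw [← sq]; exact h2
  · have : NeZero g := ⟨hg⟩
    have : jacobiSym D g = 0 := jacobiSym.eq_zero_iff_not_coprime.2 h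
    rw [this]; simp

/-- the mean of the product of two characters -/
private theorem LsmPair {ι : Type} {X : Finset ι} {D : ι → ℤ} {e f : ℕ → ℝ} {w R δ C A : ℝ}
    (h : Fam X D e f w R δ C A) {g u v : ℕ} (hg : Rg w g) (hu : Rg w u) (hv : Rg w v)
    (h1 : Nat.Coprime u v) (h2 : Nat.Coprime g u) (h3 : Nat.Coprime g v)
    (hR : ((u * v * g : ℕ) : ℝ) ≤ R ^ δ) :
    ∑ x ∈ X, jj (D x) (g * u) * jj (D x) (g * v) ≤
      X.card * ((∏ p ∈ u.primeFactors, C / (p : ℝ)) * (∏ p ∈ v.primeFactors, C / (p : ℝ)) + R ^ (-δ)) := by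
  have hg0 : g ≠ 0 := hg.1.ne_zero
  have hu0 : u ≠ 0 := hu.1.ne_zero
  have hv0 : v ≠ 0 := hv.1.ne_zero
  have huv : Rg w (u * v) := by
    refine ⟨(Nat.squarefree_mul h1).2 ⟨hu.1, hv.1⟩, hu.2.1.mul hv.2.1, fun p hp hpd => ?_⟩
    rcases (hp.dvd_mul).1 hpd with h | h
    · exact hu.2.2 p hp h
    · exact hv.2.2 p hp h
  have hm := h.mean (u * v) g huv hg (Nat.Coprime.mul_left h2.symm h3.symm) hR
  have e1 : ∑ x ∈ X, jj (D x) (g * u) * jj (D x) (g * v)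
      = ∑ x ∈ X, (if Int.gcd (D x) g = 1 then jj (D x) (u * v) else 0) := by
    refine Finset.sum_congr rfl fun x _ => ?_
    rw [jj_mul _ hg0 hu0, jj_mul _ hg0 hv0, jj_mul _ hu0 hv0]
    have e2 : jj (D x) g * jj (D x) u * (jj (D x) g * jj (D x) v)
        = (jj (D x) g * jj (D x) g) * (jj (D x) u * jj (D x) v) := by ring
    rw [e2, LsmSq _ hg0]
    split_ifs <;> ring
  rw [e1]
  have hm2 := (abs_le.1 hm).2
  have hE : (∏ p ∈ (u * v).primeFactors, e p) * ∏ p ∈ g.primeFactors, f p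
      ≤ (∏ p ∈ u.primeFactors, C / (p : ℝ)) * (∏ p ∈ v.primeFactors, C / (p : ℝ)) := by
    have f1 : ∏ p ∈ g.primeFactors, f p ≤ 1 := Finset.prod_le_one
      (fun p hp => (h.fa p (Nat.prime_of_mem_primeFactors hp)
        (hg.2.2 p (Nat.prime_of_mem_primeFactors hp) (Nat.dvd_of_mem_primeFactors hp))).1)
      (fun p hp => (h.fa p (Nat.prime_of_mem_primeFactors hp)
        (hg.2.2 p (Nat.prime_of_mem_primeFactors hp) (Nat.dvd_of_mem_primeFactors hp))).2.1)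
    have f0 : 0 ≤ ∏ p ∈ g.primeFactors, f p := Finset.prod_nonneg
      (fun p hp => (h.fa p (Nat.prime_of_mem_primeFactors hp)
        (hg.2.2 p (Nat.prime_of_mem_primeFactors hp) (Nat.dvd_of_mem_primeFactors hp))).1)
    have a1 : |∏ p ∈ (u * v).primeFactors, e p| ≤ ∏ p ∈ (u * v).primeFactors, C / (p : ℝ) := by
      rw [Finset.abs_prod]
      exact Finset.prod_le_prod (fun p _ => abs_nonneg _) (fun p hp =>
        h.ea p (Nat.prime_of_mem_primeFactors hp)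
          (huv.2.2 p (Nat.prime_of_mem_primeFactors hp) (Nat.dvd_of_mem_primeFactors hp)))
    have a2 : ∏ p ∈ (u * v).primeFactors, C / (p : ℝ)
        = (∏ p ∈ u.primeFactors, C / (p : ℝ)) * (∏ p ∈ v.primeFactors, C / (p : ℝ)) := by
      rw [h1.primeFactors_mul, Finset.prod_union h1.disjoint_primeFactors]
    rw [← a2]
    calc (∏ p ∈ (u * v).primeFactors, e p) * ∏ p ∈ g.primeFactors, f p
        ≤ |∏ p ∈ (u * v).primeFactors, e p| * ∏ p ∈ g.primeFactors, f p :=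
          mul_le_mul_of_nonneg_right (le_abs_self _) f0
      _ ≤ |∏ p ∈ (u * v).primeFactors, e p| * 1 :=
          mul_le_mul_of_nonneg_left f1 (abs_nonneg _)
      _ ≤ _ := by rw [mul_one]; exact a1
  have hX : (0 : ℝ) ≤ X.card := Nat.cast_nonneg _
  have := mul_le_mul_of_nonneg_left hE hX
  rw [mul_add]
  linarith

private theorem LsmG {w : ℝ} {g : ℕ} (hg : Rg w g) :
    ∏ p ∈ g.primeFactors, (1 : ℝ) / (p : ℝ) ^ 2 = 1 / (g : ℝ) ^ 2 := by
  have h := Nat.prod_primeFactors_of_squarefree hg.1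
  have h2 : (∏ p ∈ g.primeFactors, (p : ℝ)) = g := by
    have h3 := congrArg (fun n : ℕ => (n : ℝ)) h
    simp only [Nat.cast_prod] at h3
    exact h3
  rw [Finset.prod_div_distrib, Finset.prod_const_one, Finset.prod_pow, h2]

private theorem LsmU {w C : ℝ} {u : ℕ} (hu : Rg w u) :
    ∏ p ∈ u.primeFactors, C / (p : ℝ) ^ 2 = (∏ p ∈ u.primeFactors, C / (p : ℝ)) / u := by
  have h := Nat.prod_primeFactors_of_squarefree hu.1
  have h2 : (∏ p ∈ u.primeFactors, (p : ℝ)) = u := by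
    have h3 := congrArg (fun n : ℕ => (n : ℝ)) h
    simp only [Nat.cast_prod] at h3
    exact h3
  conv_rhs => rw [← h2]
  rw [← Finset.prod_div_distrib]
  refine Finset.prod_congr rfl fun p _ => ?_
  rw [div_div, sq]

private theorem LsmMain {ι : Type} {X : Finset ι} {D : ι → ℤ} {e f : ℕ → ℝ} {w R δ C A : ℝ}
    (hδ : 0 < δ) (hR1 : 1 ≤ R) (hw : 2 ≤ w)
    (hC : 0 ≤ C) (h : Fam X D e f w R δ C A) {y : ℕ} (hy : (y : ℝ) ^ 2 ≤ R ^ δ) :
    ∑ x ∈ X, LsmS w (D x) y ^ 2 ≤ (Real.exp 1 * Real.exp C ^ 2 + 1) * X.card := by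
  classical
  set P : Finset ℕ := (Icc 1 y).filter (Rg w) with hP
  have hPm : ∀ d, d ∈ P ↔ (1 ≤ d ∧ d ≤ y) ∧ Rg w d := by
    intro d; rw [hP, Finset.mem_filter, Finset.mem_Icc]
  have hX : (0 : ℝ) ≤ X.card := Nat.cast_nonneg _
  have hS : ∀ x, LsmS w (D x) y = ∑ d ∈ P, jj (D x) d / d := by
    intro x; unfold LsmS; congr!
  -- expand
  have e1 : ∑ x ∈ X, LsmS w (D x) y ^ 2
      = ∑ t ∈ P ×ˢ P, (1 / ((t.1 : ℝ) * t.2)) * ∑ x ∈ X, jj (D x) t.1 * jj (D x) t.2 := by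
    rw [Finset.sum_congr rfl fun x _ => by rw [hS x, sq, Finset.sum_mul_sum]]
    rw [Finset.sum_congr rfl fun x _ => (Finset.sum_product' P P
      (fun d d' => jj (D x) d / d * (jj (D x) d' / d'))).symm]
    rw [Finset.sum_comm]
    refine Finset.sum_congr rfl fun t _ => ?_
    rw [Finset.mul_sum]
    refine Finset.sum_congr rfl fun x _ => ?_
    rw [div_mul_div_comm]
    ring
  set a : ℕ → ℝ := fun g => ∏ p ∈ g.primeFactors, (1 : ℝ) / (p : ℝ) ^ 2 with ha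
  set b : ℕ → ℝ := fun u => ∏ p ∈ u.primeFactors, C / (p : ℝ) ^ 2 with hb
  set φ : ℕ × ℕ → ℕ × ℕ × ℕ := fun t =>
    (Nat.gcd t.1 t.2, t.1 / Nat.gcd t.1 t.2, t.2 / Nat.gcd t.1 t.2) with hφ
  have hterm : ∀ t ∈ P ×ˢ P, φ t ∈ P ×ˢ P ×ˢ P ∧
      (1 / ((t.1 : ℝ) * t.2)) * ∑ x ∈ X, jj (D x) t.1 * jj (D x) t.2
        ≤ X.card * (a (φ t).1 * (b (φ t).2.1 * b (φ t).2.2)) + X.card * R ^ (-δ) := by
    rintro ⟨d, d'⟩ ht
    rw [Finset.mem_product] at ht
    obtain ⟨⟨hd1, hdy⟩, hdR⟩ := (hPm d).1 ht.1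
    obtain ⟨⟨hd1', hdy'⟩, hdR'⟩ := (hPm d').1 ht.2
    set g := Nat.gcd d d' with hgd
    have hgpos : 0 < g := Nat.gcd_pos_of_pos_left _ hd1
    have hgd1 : g ∣ d := Nat.gcd_dvd_left _ _
    have hgd2 : g ∣ d' := Nat.gcd_dvd_right _ _
    obtain ⟨u, hu⟩ := hgd1
    obtain ⟨v, hv⟩ := hgd2
    have hdu : d / g = u := by rw [hu]; exact Nat.mul_div_cancel_left _ hgpos
    have hdv : d' / g = v := by rw [hv]; exact Nat.mul_div_cancel_left _ hgpos
    have hupos : 0 < u := Nat.pos_of_ne_zero (by rintro rfl; simp at hu; omega)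
    have hvpos : 0 < v := Nat.pos_of_ne_zero (by rintro rfl; simp at hv; omega)
    have hgR : Rg w g := LsmRg hdR ⟨u, hu⟩
    have huR : Rg w u := LsmRg hdR ⟨g, by rw [hu]; ring⟩
    have hvR : Rg w v := LsmRg hdR' ⟨g, by rw [hv]; ring⟩
    have hcop : Nat.Coprime u v := by
      have := Nat.coprime_div_gcd_div_gcd (m := d) (n := d') hgpos
      rwa [← hgd, hdu, hdv] at this
    have hcgu : Nat.Coprime g u := Nat.coprime_of_squarefree_mul (hu ▸ hdR.1)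
    have hcgv : Nat.Coprime g v := Nat.coprime_of_squarefree_mul (hv ▸ hdR'.1)
    have hgle : g ≤ d := Nat.le_of_dvd hd1 ⟨u, hu⟩
    have hule : u ≤ d := Nat.le_of_dvd hd1 ⟨g, by rw [hu]; ring⟩
    have hvle : v ≤ d' := Nat.le_of_dvd hd1' ⟨g, by rw [hv]; ring⟩
    have hφt : φ (d, d') = (g, u, v) := by
      show (Nat.gcd d d', d / Nat.gcd d d', d' / Nat.gcd d d') = _
      rw [← hgd, hdu, hdv]
    constructor
    · rw [hφt, Finset.mem_product, Finset.mem_product]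
      exact ⟨(hPm _).2 ⟨⟨hgpos, hgle.trans hdy⟩, hgR⟩, (hPm _).2 ⟨⟨hupos, hule.trans hdy⟩, huR⟩,
        (hPm _).2 ⟨⟨hvpos, hvle.trans hdy'⟩, hvR⟩⟩
    · rw [hφt]
      simp only
      have hRle : ((u * v * g : ℕ) : ℝ) ≤ R ^ δ := by
        refine le_trans ?_ hy
        have h1 : u * v * g ≤ d * d' := by
          calc u * v * g = (g * u) * v := by ring
            _ = d * v := by rw [← hu]
            _ ≤ d * d' := Nat.mul_le_mul_left _ hvle
        have h2 : d * d' ≤ y * y := Nat.mul_le_mul hdy hdy'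
        have h3 : u * v * g ≤ y ^ 2 := by rw [sq]; exact h1.trans h2
        exact_mod_cast h3
      have hp := LsmPair h hgR huR hvR hcop hcgu hcgv hRle
      rw [← hu, ← hv] at hp
      have hdd : (0 : ℝ) < 1 / ((d : ℝ) * d') := by
        have : (0 : ℝ) < d := by exact_mod_cast hd1
        have : (0 : ℝ) < d' := by exact_mod_cast hd1'
        positivity
      have hdd1 : 1 / ((d : ℝ) * d') ≤ 1 := by
        have h1 : (1 : ℝ) ≤ d := by exact_mod_cast hd1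
        have h2 : (1 : ℝ) ≤ d' := by exact_mod_cast hd1'
        rw [div_le_one (by positivity)]
        nlinarith
      have hRδ : (0 : ℝ) ≤ R ^ (-δ) := Real.rpow_nonneg (by linarith) _
      refine (mul_le_mul_of_nonneg_left hp hdd.le).trans ?_
      rw [ha, hb]
      simp only
      rw [LsmG hgR, LsmU huR, LsmU hvR]
      have hd' : (d : ℝ) = g * u := by exact_mod_cast hu
      have hd'' : (d' : ℝ) = g * v := by exact_mod_cast hv
      have hg0 : (g : ℝ) ≠ 0 := by exact_mod_cast hgpos.ne'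
      have hu0 : (u : ℝ) ≠ 0 := by exact_mod_cast hupos.ne'
      have hv0 : (v : ℝ) ≠ 0 := by exact_mod_cast hvpos.ne'
      have e2 : 1 / ((d : ℝ) * d') * (X.card * ((∏ p ∈ u.primeFactors, C / (p : ℝ)) *
          (∏ p ∈ v.primeFactors, C / (p : ℝ)) + R ^ (-δ)))
          = X.card * (1 / (g : ℝ) ^ 2 * ((∏ p ∈ u.primeFactors, C / (p : ℝ)) / u *
          ((∏ p ∈ v.primeFactors, C / (p : ℝ)) / v))) + (X.card * R ^ (-δ)) * (1 / ((d : ℝ) * d')) := by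
        generalize (∏ p ∈ u.primeFactors, C / (p : ℝ)) = Q1
        generalize (∏ p ∈ v.primeFactors, C / (p : ℝ)) = Q2
        generalize R ^ (-δ) = Q3
        generalize (X.card : ℝ) = Q4
        rw [hd', hd'']
        clear_value g
        generalize (g : ℝ) = g' at hg0 ⊢
        generalize (u : ℝ) = u' at hu0 ⊢
        generalize (v : ℝ) = v' at hv0 ⊢
        field_simp
      rw [e2]
      have := mul_le_mul_of_nonneg_left hdd1 (mul_nonneg hX hRδ)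
      rw [mul_one] at this
      linarith
  have hinj : Set.InjOn φ (P ×ˢ P : Finset (ℕ × ℕ)) := by
    rintro ⟨d, d'⟩ ht ⟨c, c'⟩ hs heq
    simp only [hφ, Prod.mk.injEq] at heq
    obtain ⟨h1, h2, h3⟩ := heq
    have k1 := Nat.div_mul_cancel (Nat.gcd_dvd_left d d')
    have k2 := Nat.div_mul_cancel (Nat.gcd_dvd_right d d')
    have k3 := Nat.div_mul_cancel (Nat.gcd_dvd_left c c')
    have k4 := Nat.div_mul_cancel (Nat.gcd_dvd_right c c')
    rw [h2, h1, k3] at k1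
    rw [h3, h1, k4] at k2
    rw [← k1, ← k2]
  have ha0 : ∀ g, 0 ≤ a g := fun g => Finset.prod_nonneg fun p _ => by positivity
  have hb0 : ∀ g, 0 ≤ b g := fun g => Finset.prod_nonneg fun p _ => by positivity
  have hcard : ((P ×ˢ P).card : ℝ) * R ^ (-δ) ≤ 1 := by
    have h1 : P.card ≤ y := by
      refine (Finset.card_filter_le _ _).trans ?_
      rw [Nat.card_Icc]; omega
    have h2 : ((P ×ˢ P).card : ℝ) ≤ (y : ℝ) ^ 2 := by
      rw [Finset.card_product, sq]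
      exact_mod_cast Nat.mul_le_mul h1 h1
    have h3 : (0 : ℝ) < R ^ δ := Real.rpow_pos_of_pos (by linarith) _
    rw [Real.rpow_neg (by linarith), ← div_eq_mul_inv, div_le_one h3]
    exact h2.trans hy
  have hsum3 : ∑ t ∈ P ×ˢ P, a (φ t).1 * (b (φ t).2.1 * b (φ t).2.2)
      ≤ Real.exp 1 * Real.exp C ^ 2 := by
    have s1 : ∑ t ∈ P ×ˢ P, a (φ t).1 * (b (φ t).2.1 * b (φ t).2.2)
        = ∑ s ∈ (P ×ˢ P).image φ, a s.1 * (b s.2.1 * b s.2.2) :=
      (Finset.sum_image (f := fun s : ℕ × ℕ × ℕ => a s.1 * (b s.2.1 * b s.2.2)) hinj).symm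
    have s2 : ∑ s ∈ (P ×ˢ P).image φ, a s.1 * (b s.2.1 * b s.2.2)
        ≤ ∑ s ∈ P ×ˢ P ×ˢ P, a s.1 * (b s.2.1 * b s.2.2) := by
      refine Finset.sum_le_sum_of_subset_of_nonneg ?_ (fun s _ _ =>
        mul_nonneg (ha0 _) (mul_nonneg (hb0 _) (hb0 _)))
      intro s hs
      obtain ⟨t, ht, rfl⟩ := Finset.mem_image.1 hs
      exact (hterm t ht).1
    have s3 : ∑ s ∈ P ×ˢ P ×ˢ P, a s.1 * (b s.2.1 * b s.2.2)
        = (∑ g ∈ P, a g) * ((∑ u ∈ P, b u) * (∑ v ∈ P, b v)) := by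
      rw [Finset.sum_product, Finset.sum_mul]
      refine Finset.sum_congr rfl fun g _ => ?_
      simp only
      rw [← Finset.mul_sum, Finset.sum_product, Finset.sum_mul_sum]
    have r1 : ∑ g ∈ P, a g ≤ Real.exp 1 := by
      refine (rg_sum w 1 hw zero_le_one (fun p => (1 : ℝ) / (p : ℝ) ^ 2)
        (fun p _ _ => ⟨by positivity, le_rfl⟩) y).trans (Real.exp_le_exp.2 ?_)
      rw [div_le_one (by linarith)]; linarith
    have r2 : ∑ g ∈ P, b g ≤ Real.exp C := by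
      refine (rg_sum w C hw hC (fun p => C / (p : ℝ) ^ 2)
        (fun p _ _ => ⟨by positivity, le_rfl⟩) y).trans (Real.exp_le_exp.2 ?_)
      rw [div_le_iff₀ (by linarith)]; nlinarith
    have n1 : 0 ≤ ∑ g ∈ P, b g := Finset.sum_nonneg fun g _ => hb0 g
    have n0 : 0 ≤ ∑ g ∈ P, a g := Finset.sum_nonneg fun g _ => ha0 g
    rw [s1]
    refine s2.trans ?_
    rw [s3, sq]
    exact mul_le_mul r1 (mul_le_mul r2 r2 n1 (Real.exp_pos _).le) (mul_nonneg n1 n1)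
      (Real.exp_pos _).le
  rw [e1]
  calc ∑ t ∈ P ×ˢ P, (1 / ((t.1 : ℝ) * t.2)) * ∑ x ∈ X, jj (D x) t.1 * jj (D x) t.2
      ≤ ∑ t ∈ P ×ˢ P, (X.card * (a (φ t).1 * (b (φ t).2.1 * b (φ t).2.2)) + X.card * R ^ (-δ)) :=
        Finset.sum_le_sum fun t ht => (hterm t ht).2
    _ = X.card * (∑ t ∈ P ×ˢ P, a (φ t).1 * (b (φ t).2.1 * b (φ t).2.2))
        + X.card * (((P ×ˢ P).card : ℝ) * R ^ (-δ)) := by
        rw [Finset.sum_add_distrib, ← Finset.mul_sum, Finset.sum_const, nsmul_eq_mul]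
        ring
    _ ≤ X.card * (Real.exp 1 * Real.exp C ^ 2) + X.card * 1 :=
        add_le_add (mul_le_mul_of_nonneg_left hsum3 hX) (mul_le_mul_of_nonneg_left hcard hX)
    _ = _ := by ring

theorem lsm (δ C A : ℝ) (hδ : 0 < δ) (hC : 0 ≤ C) (hA : 1 ≤ A) : ∃ K : ℝ, 1 ≤ K ∧
    ∀ w : ℝ, 2 ≤ w → ∃ R0 : ℝ, 1 ≤ R0 ∧ ∀ R : ℝ, R0 ≤ R →
    ∀ (ι : Type) (X : Finset ι) (D : ι → ℤ) (e f : ℕ → ℝ), Fam X D e f w R δ C A →
    ∀ z : ℕ, (z : ℝ) ^ 2 ≤ R ^ δ → ∑ x ∈ X, LL w (D x) z ^ 2 ≤ K * X.card := by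
  refine ⟨Real.exp 1 * Real.exp C ^ 2 + 1, ?_, ?_⟩
  · have := mul_pos (Real.exp_pos 1) (pow_pos (Real.exp_pos C) 2)
    linarith
  intro w hw
  refine ⟨1, le_rfl, ?_⟩
  intro R hR ι X D e f h z hz
  exact LsmMain hδ hR hw hC h hz

end Pool.Agent.PP5LR
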