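import Pool.Agent.PP5LR.Defs
import Pool.Agent.PPS.Ggl

/-!
# Vwl: Mertens' lower bound (difficulty 1)

`PPS.prodinv` with `z = ⌊w⌋₊` (`NTot.PZ z` = the primes `≤ z`), `∏ (1 - 1/p) = (∏ (1 - 1/p)⁻¹)⁻¹ ≥ (C log ⌊w⌋₊)⁻¹ ≥ (C log w)⁻¹`.
-/

set_option autoImplicit false

namespace Pool.Agent.PP5LR

open Finset

private theorem Vwl_f {p : ℕ} (hp : p.Prime) : (0 : ℝ) < 1 - 1 / (p : ℝ) ∧ 1 - 1 / (p : ℝ) ≤ 1 := by
  have h2 : (2 : ℝ) ≤ p := by exact_mod_cast hp.two_le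
  have h3 : 1 / (p : ℝ) ≤ 1 / 2 := one_div_le_one_div_of_le (by norm_num) h2
  have h4 : 0 ≤ 1 / (p : ℝ) := by positivity
  constructor <;> linarith

theorem Vw_pos (w : ℝ) : 0 < Vw w := by
  unfold Vw
  exact Finset.prod_pos (fun p hp => (Vwl_f (Finset.mem_filter.1 hp).2).1)

theorem Vw_le (w : ℝ) : Vw w ≤ 1 := by
  unfold Vw
  exact Finset.prod_le_one (fun p hp => (Vwl_f (Finset.mem_filter.1 hp).2).1.le)
    (fun p hp => (Vwl_f (Finset.mem_filter.1 hp).2).2)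

theorem vwl : ∃ c : ℝ, 0 < c ∧ ∀ w : ℝ, 2 ≤ w → c / Real.log w ≤ Vw w := by
  obtain ⟨C, hC, h⟩ := Pool.Agent.PPS.prodinv
  refine ⟨1 / C, by positivity, ?_⟩
  intro w hw
  have hz : 2 ≤ ⌊w⌋₊ := Nat.le_floor (by exact_mod_cast hw)
  have h1 := h ⌊w⌋₊ hz
  have hset : (Icc 2 ⌊w⌋₊).filter Nat.Prime = Pool.Agent.NTot.PZ ⌊w⌋₊ := by
    ext p
    rw [Finset.mem_filter, Finset.mem_Icc, Pool.Agent.NTot.mem_PZ]
    constructor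
    · rintro ⟨⟨_, h2⟩, h3⟩; exact ⟨h3, h2⟩
    · rintro ⟨h3, h2⟩; exact ⟨⟨h3.two_le, h2⟩, h3⟩
  have hV : Vw w = (∏ l ∈ Pool.Agent.NTot.PZ ⌊w⌋₊, (1 - 1 / (l : ℝ))⁻¹)⁻¹ := by
    unfold Vw
    rw [hset, Finset.prod_inv_distrib, inv_inv]
  have hVp := Vw_pos w
  have hlogz : 0 < Real.log ⌊w⌋₊ := Real.log_pos (by exact_mod_cast hz)
  have hlog : Real.log ⌊w⌋₊ ≤ Real.log w :=
    Real.log_le_log (by exact_mod_cast (by omega : 0 < ⌊w⌋₊)) (Nat.floor_le (by linarith))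
  have hlw : 0 < Real.log w := lt_of_lt_of_le hlogz hlog
  have h2 : (Vw w)⁻¹ ≤ C * Real.log w := by
    rw [hV, inv_inv]
    exact h1.trans (mul_le_mul_of_nonneg_left hlog hC.le)
  rw [div_div, one_div]
  exact inv_le_of_inv_le₀ hVp h2

end Pool.Agent.PP5LR
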