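import Pool.Agent.PP5LR.Nng
import Pool.Agent.PP5LR.Prd

/-!
# Yex: the `x` such that `D(x)` has many prime factors (difficulty 2)

`∑_x ∑_{p ∈ Dp} 1/p = ∑_{w < p ≤ P} (1/p) #{x : p | D x}`, `#{x : p | D x} = |X| - ∑_x (if gcd (D x, p) = 1 then jj (D x) 1 else 0)`
`≤ |X| (1 - f p + R ^ (-δ)) ≤ |X| (C/p + R ^ (-δ))` (`mean` with `m = 1`, `g = p`).  Sum `≤ |X| (2C/w + R ^ (-δ) (1 + log P)) ≤ |X| (2C+1)/w`.
-/

set_option autoImplicit false

namespace Pool.Agent.PP5LR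

open Finset

private theorem yex_sq (w : ℝ) (hw : 2 ≤ w) (P : ℕ) :
    ∑ p ∈ (Icc 1 P).filter (fun p : ℕ => w < (p : ℝ)), (1 : ℝ) / ((p : ℝ) * p) ≤ 2 / w := by
  have hf1 : 1 ≤ ⌊w⌋₊ := Nat.one_le_iff_ne_zero.2 (by
    intro h
    have := Nat.floor_eq_zero.1 h
    linarith)
  have hfw : w / 2 ≤ (⌊w⌋₊ : ℝ) := by
    have := Nat.lt_floor_add_one w
    linarith
  have key : ∀ P : ℕ, ⌊w⌋₊ ≤ P → ∑ p ∈ Ioc ⌊w⌋₊ P, (1 : ℝ) / ((p : ℝ) * p) ≤ 1 / (⌊w⌋₊ : ℝ) - 1 / (P : ℝ) := by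
    intro P hP
    induction P, hP using Nat.le_induction with
    | base => simp
    | succ P hP ih =>
      rw [Finset.sum_Ioc_succ_top hP]
      have hP0 : (1 : ℝ) ≤ P := by exact_mod_cast hf1.trans hP
      have h1 : (1 : ℝ) / (((P + 1 : ℕ) : ℝ) * ((P + 1 : ℕ) : ℝ)) ≤ 1 / (P : ℝ) - 1 / ((P + 1 : ℕ) : ℝ) := by
        push_cast
        rw [div_sub_div _ _ (by positivity) (by positivity), div_le_div_iff₀ (by positivity) (by positivity)]
        nlinarith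
      linarith
  have hsub : (Icc 1 P).filter (fun p : ℕ => w < (p : ℝ)) ⊆ Ioc ⌊w⌋₊ (max P ⌊w⌋₊) := by
    intro p hp
    rw [mem_filter, mem_Icc] at hp
    rw [mem_Ioc]
    exact ⟨(Nat.floor_lt (by linarith)).2 hp.2, le_max_of_le_left hp.1.2⟩
  calc _ ≤ ∑ p ∈ Ioc ⌊w⌋₊ (max P ⌊w⌋₊), (1 : ℝ) / ((p : ℝ) * p) :=
        Finset.sum_le_sum_of_subset_of_nonneg hsub (fun _ _ _ => by positivity)
    _ ≤ 1 / (⌊w⌋₊ : ℝ) - 1 / ((max P ⌊w⌋₊ : ℕ) : ℝ) := key _ (le_max_right _ _)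
    _ ≤ 1 / (⌊w⌋₊ : ℝ) := by
        have : (0 : ℝ) ≤ 1 / ((max P ⌊w⌋₊ : ℕ) : ℝ) := by positivity
        linarith
    _ ≤ 1 / (w / 2) := one_div_le_one_div_of_le (by linarith) hfw
    _ = 2 / w := by rw [one_div_div]

private theorem yex_harm (P : ℕ) : ∑ p ∈ Icc 1 P, (1 : ℝ) / p ≤ 1 + Real.log P := by
  have h := harmonic_le_one_add_log P
  rw [harmonic_eq_sum_Icc] at h
  push_cast at h
  simpa [one_div] using h

private theorem yex_R0 (δ w : ℝ) (hδ : 0 < δ) (hw : 2 ≤ w) :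
    ∃ R0 : ℝ, 1 ≤ R0 ∧ ∀ R : ℝ, R0 ≤ R → R ^ (-δ) * (1 + δ * Real.log R) ≤ 1 / w := by
  have h1 := (isLittleO_log_rpow_atTop hδ).bound (c := 1 / (2 * w * δ)) (by positivity)
  have h2 := (tendsto_rpow_atTop hδ).eventually_ge_atTop (2 * w)
  obtain ⟨R0, hR0⟩ := Filter.eventually_atTop.1 (h1.and h2)
  refine ⟨max R0 1, le_max_right _ _, fun R hR => ?_⟩
  have hR1 : 1 ≤ R := (le_max_right _ _).trans hR
  obtain ⟨h3, h4⟩ := hR0 R ((le_max_left _ _).trans hR)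
  have hpos : 0 < R ^ δ := Real.rpow_pos_of_pos (by linarith) _
  have hlog : Real.log R ≤ 1 / (2 * w * δ) * R ^ δ := by
    have h5 := (le_abs_self _).trans h3
    rwa [Real.norm_of_nonneg hpos.le] at h5
  have h6 : δ * Real.log R ≤ R ^ δ / (2 * w) := by
    calc δ * Real.log R ≤ δ * (1 / (2 * w * δ) * R ^ δ) := by gcongr
      _ = R ^ δ / (2 * w) := by field_simp
  have h7 : 1 ≤ R ^ δ / (2 * w) := by
    rw [le_div_iff₀ (by linarith)]; linarith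
  rw [Real.rpow_neg (by linarith), inv_mul_le_iff₀ hpos]
  calc 1 + δ * Real.log R ≤ R ^ δ / (2 * w) + R ^ δ / (2 * w) := add_le_add h7 h6
    _ = R ^ δ * (1 / w) := by field_simp; ring

open Classical in
theorem yex (δ C A : ℝ) (hδ : 0 < δ) (hC : 0 ≤ C) (hA : 1 ≤ A) :
    ∀ w : ℝ, 2 ≤ w → ∃ R0 : ℝ, 1 ≤ R0 ∧ ∀ R : ℝ, R0 ≤ R →
    ∀ (ι : Type) (X : Finset ι) (D : ι → ℤ) (e f : ℕ → ℝ), Fam X D e f w R δ C A →
    ∀ P : ℕ, (P : ℝ) ≤ R ^ δ →
      ((X.filter (fun x => 1 / 2 < ∑ p ∈ Dp w (D x) P, (1 : ℝ) / p)).card : ℝ) ≤ (4 * C + 2) / w * X.card := by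
  intro w hw
  obtain ⟨R0, hR01, hR0⟩ := yex_R0 δ w hδ hw
  refine ⟨R0, hR01, fun R hR ι X D e f hF P hP => ?_⟩
  have hR1 : 1 ≤ R := hR01.trans hR
  have hRpos : 0 < R := by linarith
  have hneg : 0 ≤ R ^ (-δ) := (Real.rpow_pos_of_pos hRpos _).le
  -- the count for one prime
  have hone : ∀ p : ℕ, p ∈ Icc 1 P → p.Prime → w < (p : ℝ) →
      ((X.filter (fun x => (p : ℤ) ∣ D x)).card : ℝ) ≤ X.card * (C / p + R ^ (-δ)) := by
    intro p hp hpp hwp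
    have hp2 : p ≠ 2 := by
      rintro rfl
      have : (w : ℝ) < 2 := by exact_mod_cast hwp
      linarith
    have hmean := hF.mean 1 p ⟨squarefree_one, odd_one, fun q hq hq1 => absurd (Nat.dvd_one.1 hq1) hq.ne_one⟩
      ⟨hpp.squarefree, hpp.odd_of_ne_two hp2, fun q hq hqp => by
        rw [(Nat.prime_dvd_prime_iff_eq hq hpp).1 hqp]; exact hwp⟩ (Nat.coprime_one_left p) (by
        rw [one_mul]
        exact le_trans (by exact_mod_cast (mem_Icc.1 hp).2) hP)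
    rw [hpp.primeFactors, prod_singleton, Nat.primeFactors_one, prod_empty, one_mul] at hmean
    have hsum : ∑ x ∈ X, (if Int.gcd (D x) p = 1 then jj (D x) 1 else 0)
        = X.card - ((X.filter (fun x => (p : ℤ) ∣ D x)).card : ℝ) := by
      have h1 : ∀ x ∈ X, (if Int.gcd (D x) p = 1 then jj (D x) 1 else 0) = 1 - (if (p : ℤ) ∣ D x then (1 : ℝ) else 0) := by
        intro x _
        have h2 : Int.gcd (D x) p = 1 ↔ ¬ (p : ℤ) ∣ D x := by
          rw [Int.gcd_comm, ← Int.isCoprime_iff_gcd_eq_one]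
          exact Prime.coprime_iff_not_dvd (Nat.prime_iff_prime_int.1 hpp)
        by_cases h3 : (p : ℤ) ∣ D x
        · rw [if_neg (by rw [h2]; exact not_not.2 h3), if_pos h3]; ring
        · rw [if_pos (h2.2 h3), if_neg h3, jj, jacobiSym.one_right]; simp
      rw [sum_congr rfl h1, sum_sub_distrib, sum_const, nsmul_eq_mul, mul_one, ← sum_filter, sum_const, nsmul_eq_mul, mul_one]
    rw [hsum] at hmean
    have h4 := (abs_le.1 hmean).1
    have h5 := (hF.fa p hpp hwp).2.2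
    have h6 : (X.card : ℝ) * (1 - f p) ≤ X.card * (C / p) := by gcongr
    nlinarith
  -- Markov
  set T := X.filter (fun x => 1 / 2 < ∑ p ∈ Dp w (D x) P, (1 : ℝ) / p) with hT
  set Q := (Icc 1 P).filter (fun p : ℕ => p.Prime ∧ w < (p : ℝ)) with hQ
  have hmk : (T.card : ℝ) * (1 / 2) ≤ ∑ x ∈ X, ∑ p ∈ Dp w (D x) P, (1 : ℝ) / p := by
    calc (T.card : ℝ) * (1 / 2) = ∑ x ∈ T, (1 / 2 : ℝ) := by rw [sum_const, nsmul_eq_mul]
      _ ≤ ∑ x ∈ T, ∑ p ∈ Dp w (D x) P, (1 : ℝ) / p := sum_le_sum fun x hx => (mem_filter.1 hx).2.le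
      _ ≤ _ := sum_le_sum_of_subset_of_nonneg (filter_subset _ _) fun _ _ _ =>
          sum_nonneg fun _ _ => by positivity
  have hsw : ∑ x ∈ X, ∑ p ∈ Dp w (D x) P, (1 : ℝ) / p
      = ∑ p ∈ Q, (1 : ℝ) / p * ((X.filter (fun x => (p : ℤ) ∣ D x)).card : ℝ) := by
    have h1 : ∀ x ∈ X, ∑ p ∈ Dp w (D x) P, (1 : ℝ) / p = ∑ p ∈ Q, if (p : ℤ) ∣ D x then (1 : ℝ) / p else 0 := by
      intro x _
      rw [← sum_filter]
      refine sum_congr ?_ fun _ _ => rfl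
      ext p
      simp only [Dp, hQ, mem_filter]
      tauto
    rw [sum_congr rfl h1, sum_comm]
    refine sum_congr rfl fun p _ => ?_
    rw [← sum_filter, sum_const, nsmul_eq_mul]; ring
  have hbd : ∑ p ∈ Q, (1 : ℝ) / p * ((X.filter (fun x => (p : ℤ) ∣ D x)).card : ℝ) ≤ (2 * C + 1) / w * X.card := by
    have h1 : ∀ p ∈ Q, (1 : ℝ) / p * ((X.filter (fun x => (p : ℤ) ∣ D x)).card : ℝ)
        ≤ X.card * (C * (1 / ((p : ℝ) * p)) + R ^ (-δ) * (1 / p)) := by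
      intro p hp
      rw [hQ, mem_filter] at hp
      have hp0 : (0 : ℝ) < p := by exact_mod_cast hp.2.1.pos
      calc (1 : ℝ) / p * ((X.filter (fun x => (p : ℤ) ∣ D x)).card : ℝ)
          ≤ 1 / p * (X.card * (C / p + R ^ (-δ))) := by
            gcongr
            exact hone p hp.1 hp.2.1 hp.2.2
        _ = X.card * (C * (1 / ((p : ℝ) * p)) + R ^ (-δ) * (1 / p)) := by field_simp
    refine (sum_le_sum h1).trans ?_
    rw [← mul_sum, sum_add_distrib, ← mul_sum, ← mul_sum]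
    have hQ1 : ∑ p ∈ Q, (1 : ℝ) / ((p : ℝ) * p) ≤ 2 / w := by
      refine le_trans (sum_le_sum_of_subset_of_nonneg ?_ fun _ _ _ => by positivity) (yex_sq w hw P)
      intro p hp
      rw [hQ, mem_filter] at hp
      rw [mem_filter]
      exact ⟨hp.1, hp.2.2⟩
    have hQ2 : ∑ p ∈ Q, (1 : ℝ) / p ≤ 1 + δ * Real.log R := by
      rcases Nat.eq_zero_or_pos P with h0 | h0
      · have : Q = ∅ := by rw [hQ, h0]; simp
        rw [this, sum_empty]
        have := Real.log_nonneg hR1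
        positivity
      · refine le_trans (sum_le_sum_of_subset_of_nonneg (filter_subset _ _) fun _ _ _ => by positivity)
          ((yex_harm P).trans ?_)
        have h3 : Real.log P ≤ Real.log (R ^ δ) := Real.log_le_log (by exact_mod_cast h0) hP
        rw [Real.log_rpow hRpos] at h3
        linarith
    have h4 : R ^ (-δ) * ∑ p ∈ Q, (1 : ℝ) / p ≤ 1 / w :=
      (mul_le_mul_of_nonneg_left hQ2 hneg).trans (hR0 R hR)
    have h5 : C * ∑ p ∈ Q, (1 : ℝ) / ((p : ℝ) * p) ≤ C * (2 / w) := mul_le_mul_of_nonneg_left hQ1 hC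
    calc (X.card : ℝ) * (C * ∑ p ∈ Q, (1 : ℝ) / ((p : ℝ) * p) + R ^ (-δ) * ∑ p ∈ Q, (1 : ℝ) / p)
        ≤ X.card * (C * (2 / w) + 1 / w) := by gcongr
      _ = (2 * C + 1) / w * X.card := by ring
  have hfin : (T.card : ℝ) * (1 / 2) ≤ (2 * C + 1) / w * X.card := hmk.trans (hsw.le.trans hbd)
  have : (T.card : ℝ) ≤ 2 * ((2 * C + 1) / w * X.card) := by linarith
  calc (T.card : ℝ) ≤ 2 * ((2 * C + 1) / w * X.card) := this
    _ = (4 * C + 2) / w * X.card := by ring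

end Pool.Agent.PP5LR
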