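import Pool.Agent.PP5LR.FnA
import Pool.Agent.PP5LR.FnB
import Pool.Agent.PP5LR.Hyp
import Pool.Agent.PP5LR.Vwl
import Pool.Agent.PP5LR.Lfm
import Pool.Agent.PP5LR.Lsm
import Pool.Agent.PP5LR.Yex

/-!
# FnC: preparations for Fin
-/

set_option autoImplicit false

namespace Pool.Agent.PP5LR

open Finset Filter

theorem fin_small (K κ A ε : ℝ) (hκ : 0 < κ) (hε : 0 < ε) :
    ∀ᶠ R : ℝ in atTop, K * R ^ (-κ) * (1 + A * Real.log R) ^ 2 ≤ ε := by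
  have h1 : Tendsto (fun R : ℝ => R ^ (-(κ / 2))) atTop (nhds 0) :=
    tendsto_rpow_neg_atTop (by linarith)
  have h2 : Tendsto (fun R : ℝ => Real.log R / R ^ (κ / 4)) atTop (nhds 0) :=
    (isLittleO_log_rpow_atTop (by linarith : 0 < κ / 4)).tendsto_div_nhds_zero
  have h4 : Tendsto (fun R : ℝ => R ^ (-(κ / 4))) atTop (nhds 0) :=
    tendsto_rpow_neg_atTop (by linarith)
  have h5 : Tendsto (fun R : ℝ => K * R ^ (-(κ / 2)) * (R ^ (-(κ / 4)) + A * (Real.log R / R ^ (κ / 4))) ^ 2)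
      atTop (nhds (K * 0 * (0 + A * 0) ^ 2)) :=
    (h1.const_mul K).mul ((h4.add (h2.const_mul A)).pow 2)
  have h6 : K * 0 * (0 + A * 0) ^ 2 = 0 := by ring
  rw [h6] at h5
  filter_upwards [h5.eventually (gt_mem_nhds hε), eventually_gt_atTop (0 : ℝ)] with R hR hR0
  refine le_trans (le_of_eq ?_) hR.le
  have e1 : R ^ (-κ) = R ^ (-(κ / 2)) * (R ^ (-(κ / 4))) ^ 2 := by
    rw [← Real.rpow_natCast (R ^ (-(κ / 4))) 2, ← Real.rpow_mul hR0.le, ← Real.rpow_add hR0]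
    congr 1; push_cast; ring
  have e2 : Real.log R / R ^ (κ / 4) = Real.log R * R ^ (-(κ / 4)) := by
    rw [Real.rpow_neg hR0.le]; rfl
  rw [e1, e2]
  ring

theorem cs_sum {ι : Type} (Z : Finset ι) (F : ι → ℝ) {M : ℝ} (hM : ∑ x ∈ Z, F x ^ 2 ≤ M) :
    |∑ x ∈ Z, F x| ≤ √(Z.card * M) := by
  have h1 : (∑ x ∈ Z, F x) ^ 2 ≤ Z.card * ∑ x ∈ Z, F x ^ 2 := sq_sum_le_card_mul_sum_sq
  apply Real.abs_le_sqrt
  exact h1.trans (mul_le_mul_of_nonneg_left hM (Nat.cast_nonneg _))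

/-- numerical facts on `z` and `P` -/
theorem fin_zP {u R N Q : ℝ} (hu : 4 ≤ u) (h1 : u ^ 4 ≤ Q) (h2 : u ^ 4 ≤ R) (hN : R ≤ N) :
    (1 ≤ ⌈u⌉₊ ∧ u ≤ (⌈u⌉₊ : ℝ) ∧ ((⌈u⌉₊ : ℕ) : ℝ) ^ 2 ≤ Q ∧ (⌈u⌉₊ : ℝ) ≤ Q) ∧
    ((⌊u⌋₊ : ℝ) ≤ u ∧ u / 2 ≤ (⌊u⌋₊ : ℝ) ∧ (2 : ℝ) ≤ ⌊u⌋₊ ∧ (⌊u⌋₊ : ℝ) ≤ Q ∧ (⌊u⌋₊ : ℝ) ≤ N) ∧
    (⌈u⌉₊ : ℝ) * ⌊u⌋₊ ≤ 2 * u * u ∧ (⌈u⌉₊ : ℝ) * ⌊u⌋₊ ≤ N := by
  have hu0 : 0 < u := by linarith
  have a1 : u ≤ (⌈u⌉₊ : ℝ) := Nat.le_ceil _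
  have a2 : (⌈u⌉₊ : ℝ) ≤ 2 * u := by
    have := (Nat.ceil_lt_add_one hu0.le).le
    linarith
  have a3 : (⌊u⌋₊ : ℝ) ≤ u := Nat.floor_le hu0.le
  have a4 : u / 2 ≤ (⌊u⌋₊ : ℝ) := by
    have := Nat.lt_floor_add_one u
    linarith
  have b1 : 16 ≤ u * u := by nlinarith
  have b2 : u * u * 4 ≤ u ^ 4 := by
    have : u ^ 4 = u * u * (u * u) := by ring
    rw [this]
    have : 0 ≤ u * u := by positivity
    nlinarith
  have b3 : u ≤ u * u := by nlinarith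
  have c1 : ((⌈u⌉₊ : ℕ) : ℝ) ^ 2 ≤ u ^ 4 := by
    have : ((⌈u⌉₊ : ℕ) : ℝ) ^ 2 ≤ (2 * u) ^ 2 := pow_le_pow_left₀ (by positivity) a2 2
    nlinarith
  have c2 : (⌈u⌉₊ : ℝ) * ⌊u⌋₊ ≤ 2 * u * u :=
    mul_le_mul a2 a3 (Nat.cast_nonneg _) (by positivity)
  refine ⟨⟨?_, a1, c1.trans h1, ?_⟩, ⟨a3, a4, by linarith, by linarith, by linarith⟩, c2, by linarith⟩
  · have : (1 : ℝ) ≤ (⌈u⌉₊ : ℝ) := by linarith
    exact_mod_cast this
  · linarith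

theorem fin_E1 {R A d0 u N ℓ : ℝ} {P : ℕ} (hR : 1 ≤ R) (hA : 0 ≤ A) (hd0 : 0 < d0) (hu : u = R ^ d0) (h4 : 4 ≤ u)
    (hP2 : u / 2 ≤ (P : ℝ)) (hN : 1 ≤ N) (hℓ : 1 + Real.log N ≤ ℓ) :
    0 ≤ Real.log (R ^ A) / Real.log P * (N / P * (1 + Real.log N)) ∧
    Real.log (R ^ A) / Real.log P * (N / P * (1 + Real.log N)) ≤ N * ((4 * A / d0 + 4) * R ^ (-d0) * ℓ) := by
  have hRp : 0 < R := by linarith
  have hu0 : 0 < u := by linarith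
  have hPp : (0 : ℝ) < P := by linarith
  have hlP0 : 0 < Real.log P := Real.log_pos (by linarith)
  have hlu : Real.log u = d0 * Real.log R := by rw [hu, Real.log_rpow hRp]
  have hlR : 0 ≤ Real.log R := Real.log_nonneg hR
  have hlN : 0 ≤ Real.log N := Real.log_nonneg hN
  have hN0 : 0 < N := by linarith
  have hℓ0 : 0 ≤ ℓ := by linarith
  have hlP : Real.log u / 2 ≤ Real.log P := by
    have h1 : Real.log (u / 2) ≤ Real.log P := Real.log_le_log (by linarith) hP2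
    rw [Real.log_div hu0.ne' (by norm_num)] at h1
    have h2 : Real.log 4 ≤ Real.log u := Real.log_le_log (by norm_num) h4
    have h3 : Real.log 4 = 2 * Real.log 2 := by
      rw [show (4 : ℝ) = 2 ^ 2 by norm_num, Real.log_pow]; push_cast; ring
    linarith
  have h4 : Real.log (R ^ A) / Real.log P ≤ 2 * A / d0 := by
    rw [div_le_div_iff₀ hlP0 hd0, Real.log_rpow hRp]
    have h5 : d0 * Real.log R / 2 ≤ Real.log P := by rw [← hlu]; exact hlP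
    have h6 : 2 * A * (d0 * Real.log R / 2) ≤ 2 * A * Real.log P :=
      mul_le_mul_of_nonneg_left h5 (by linarith)
    linarith
  have h7 : N / P ≤ N * (2 * R ^ (-d0)) := by
    rw [Real.rpow_neg hRp.le, ← hu, div_le_iff₀ hPp]
    have h8 : u / 2 * (2 * u⁻¹) = 1 := by field_simp
    calc N = N * (u / 2 * (2 * u⁻¹)) := by rw [h8, mul_one]
      _ ≤ N * (P * (2 * u⁻¹)) := by
          apply mul_le_mul_of_nonneg_left _ hN0.le
          exact mul_le_mul_of_nonneg_right hP2 (by positivity)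
      _ = _ := by ring
  have hlRA : 0 ≤ Real.log (R ^ A) / Real.log P := by
    rw [Real.log_rpow hRp]; positivity
  have hRd : 0 ≤ R ^ (-d0) := Real.rpow_nonneg hRp.le _
  refine ⟨by positivity, ?_⟩
  calc _ ≤ 2 * A / d0 * (N * (2 * R ^ (-d0)) * ℓ) := by
        apply mul_le_mul h4 _ (by positivity) (by positivity)
        exact mul_le_mul h7 hℓ (by positivity) (by positivity)
    _ = N * (4 * A / d0 * R ^ (-d0) * ℓ) := by ring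
    _ ≤ _ := by
        apply mul_le_mul_of_nonneg_left _ hN0.le
        apply mul_le_mul_of_nonneg_right _ hℓ0
        apply mul_le_mul_of_nonneg_right _ hRd
        linarith

theorem fin_L {ι : Type} [DecidableEq ι] {X Y' : Finset ι} {F : ι → ℝ} {K2 ε0 : ℝ} (hK2 : 1 ≤ K2)
    (hε0 : ε0 = 1 / (32 * K2)) (hYX : Y' ⊆ X) (h1 : (X.card : ℝ) / 2 ≤ ∑ x ∈ X, F x)
    (h2 : ∑ x ∈ X, F x ^ 2 ≤ K2 * X.card) (hc : (Y'.card : ℝ) ≤ 2 * ε0 * X.card) :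
    (X.card : ℝ) / 4 ≤ ∑ x ∈ X \ Y', F x := by
  have hX0 : (0 : ℝ) ≤ X.card := Nat.cast_nonneg _
  have h3 : ∑ x ∈ X \ Y', F x + ∑ x ∈ Y', F x = ∑ x ∈ X, F x := Finset.sum_sdiff hYX
  have h4 : ∑ x ∈ Y', F x ^ 2 ≤ K2 * X.card :=
    (Finset.sum_le_sum_of_subset_of_nonneg hYX (fun x _ _ => sq_nonneg _)).trans h2
  have h5 := cs_sum Y' F h4
  have h6 : √((Y'.card : ℝ) * (K2 * X.card)) ≤ (X.card : ℝ) / 4 := by
    apply Real.sqrt_le_iff.2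
    refine ⟨by positivity, ?_⟩
    calc (Y'.card : ℝ) * (K2 * X.card) ≤ 2 * ε0 * X.card * (K2 * X.card) :=
          mul_le_mul_of_nonneg_right hc (by positivity)
      _ = ((X.card : ℝ) / 4) ^ 2 := by
          rw [hε0]; field_simp; ring
  have h7 := (abs_le.1 (h5.trans h6)).2
  linarith

/-- errors summed over `x` -/
theorem fin_err {w : ℝ} (hw : 2 ≤ w) {ι : Type} {X : Finset ι} {D : ι → ℤ} {R A K κ d0 ℓ : ℝ} (hR : 1 ≤ R) (hK : 0 ≤ K)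
    (H : ∀ a b : ℕ, R ^ d0 ≤ (b : ℝ) → (b : ℝ) ≤ R ^ A → ∑ x ∈ X, |VV w (D x) a b| ≤ K * X.card * b * R ^ (-κ))
    {z : ℕ} (hz : 1 ≤ z) (hzR : R ^ d0 ≤ (z : ℝ)) {T : ℝ} (hzT : (z : ℝ) ≤ T) (hTA : T ≤ R ^ A)
    (hℓ : 1 + Real.log T ≤ ℓ) :
    ∑ x ∈ X, |TT w (D x) T - T / 2 * Vw w * LL w (D x) z| ≤ X.card * (4 ^ (⌊w⌋₊ + 1) * z + K * T * R ^ (-κ) * ℓ) := by
  have hz1' : (1 : ℝ) ≤ z := by exact_mod_cast hz
  have hT0 : 0 < T := by linarith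
  have hRp : 0 < R := by linarith
  have h1 : ∑ x ∈ X, |TT w (D x) T - T / 2 * Vw w * LL w (D x) z| ≤
      ∑ x ∈ X, (4 ^ (⌊w⌋₊ + 1) * (z : ℝ) + Er w (D x) z T) :=
    Finset.sum_le_sum (fun x _ => hyp w hw (D x) z T hz hzT)
  rw [Finset.sum_add_distrib, Finset.sum_const, nsmul_eq_mul] at h1
  have h2 := erx hR hK H hz hzR hzT hTA
  have h4 : K * X.card * T * R ^ (-κ) * (1 + Real.log T) ≤ K * X.card * T * R ^ (-κ) * ℓ :=
    mul_le_mul_of_nonneg_left hℓ (by positivity)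
  calc _ ≤ _ := h1
    _ ≤ X.card * (4 ^ (⌊w⌋₊ + 1) * (z : ℝ)) + K * X.card * T * R ^ (-κ) * ℓ := by linarith
    _ = _ := by ring

/-- errors summed over `x` and `p` -/
theorem fin_errp {w : ℝ} (hw : 2 ≤ w) {ι : Type} {X : Finset ι} {D : ι → ℤ} {R A K κ d0 ℓ : ℝ} (hR : 1 ≤ R) (hK : 0 ≤ K)
    (H : ∀ a b : ℕ, R ^ d0 ≤ (b : ℝ) → (b : ℝ) ≤ R ^ A → ∑ x ∈ X, |VV w (D x) a b| ≤ K * X.card * b * R ^ (-κ))
    {z P : ℕ} (hz : 1 ≤ z) (hzR : R ^ d0 ≤ (z : ℝ)) {N : ℝ} (hzP : (z : ℝ) * P ≤ N) (hP : 1 ≤ P) (hPN : (P : ℝ) ≤ N)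
    (hNA : N ≤ R ^ A) (hℓ : 1 + Real.log N ≤ ℓ) :
    ∑ p ∈ (Icc 1 P).filter Nat.Prime, ∑ x ∈ X, |TT w (D x) (N / p) - N / p / 2 * Vw w * LL w (D x) z| ≤
      X.card * (4 ^ (⌊w⌋₊ + 1) * z * P + K * N * R ^ (-κ) * ℓ ^ 2) := by
  have hRp : 0 < R := by linarith
  have hX0 : (0 : ℝ) ≤ X.card := Nat.cast_nonneg _
  have hz1' : (1 : ℝ) ≤ z := by exact_mod_cast hz
  have hP1' : (1 : ℝ) ≤ P := by exact_mod_cast hP
  have hN1 : 1 ≤ N := by linarith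
  have hN0 : 0 < N := by linarith
  have hlN : 0 ≤ Real.log N := Real.log_nonneg hN1
  have hℓ0 : 0 ≤ ℓ := by linarith
  have h1 : ∀ p ∈ (Icc 1 P).filter Nat.Prime,
      ∑ x ∈ X, |TT w (D x) (N / p) - N / p / 2 * Vw w * LL w (D x) z| ≤
      X.card * (4 ^ (⌊w⌋₊ + 1) * z + K * N * R ^ (-κ) * ℓ * (1 / p)) := by
    intro p hp
    rw [Finset.mem_filter, Finset.mem_Icc] at hp
    have hp1 : (1 : ℝ) ≤ p := by exact_mod_cast hp.1.1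
    have hp0 : (0 : ℝ) < p := by linarith
    have hpP : (p : ℝ) ≤ P := by exact_mod_cast hp.1.2
    have hzp : (z : ℝ) ≤ N / p := by
      rw [le_div_iff₀ hp0]
      calc (z : ℝ) * p ≤ z * P := mul_le_mul_of_nonneg_left hpP (by linarith)
        _ ≤ N := hzP
    have hNp : N / p ≤ N := div_le_self hN0.le hp1
    have hl : 1 + Real.log (N / p) ≤ ℓ := by
      have := Real.log_le_log (by positivity) hNp
      linarith
    refine (fin_err hw hR hK H hz hzR hzp (hNp.trans hNA) hl).trans (le_of_eq ?_)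
    ring
  refine (Finset.sum_le_sum h1).trans ?_
  rw [← Finset.mul_sum, Finset.sum_add_distrib, Finset.sum_const, nsmul_eq_mul, ← Finset.mul_sum]
  apply mul_le_mul_of_nonneg_left _ hX0
  have hc : (((Icc 1 P).filter Nat.Prime).card : ℝ) ≤ P := by
    have : ((Icc 1 P).filter Nat.Prime).card ≤ P := by
      refine (Finset.card_filter_le _ _).trans ?_
      simp
    exact_mod_cast this
  have hs : ∑ p ∈ (Icc 1 P).filter Nat.Prime, (1 : ℝ) / p ≤ ℓ := by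
    have h2 : ∑ p ∈ (Icc 1 P).filter Nat.Prime, (1 : ℝ) / p ≤ ∑ p ∈ Icc 1 P, (1 : ℝ) / p :=
      Finset.sum_le_sum_of_subset_of_nonneg (Finset.filter_subset _ _) (fun m _ _ => by positivity)
    have h3 : Real.log P ≤ Real.log N := Real.log_le_log (by linarith) hPN
    linarith [fna_harm P]
  have hRk : 0 ≤ R ^ (-κ) := Real.rpow_nonneg hRp.le _
  have h5 : (((Icc 1 P).filter Nat.Prime).card : ℝ) * (4 ^ (⌊w⌋₊ + 1) * z) ≤ 4 ^ (⌊w⌋₊ + 1) * z * P := by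
    have h51 : (4 : ℝ) ^ (⌊w⌋₊ + 1) * z * (((Icc 1 P).filter Nat.Prime).card : ℝ) ≤ 4 ^ (⌊w⌋₊ + 1) * z * P :=
      mul_le_mul_of_nonneg_left hc (by positivity)
    refine le_trans (le_of_eq ?_) h51
    ring
  have h6 : K * N * R ^ (-κ) * ℓ * ∑ p ∈ (Icc 1 P).filter Nat.Prime, (1 : ℝ) / p ≤
      K * N * R ^ (-κ) * ℓ ^ 2 := by
    rw [pow_two, ← mul_assoc]
    exact mul_le_mul_of_nonneg_left hs (by positivity)
  exact add_le_add h5 h6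

/-- the final numerical inequality -/
theorem fin_num {c N z zP K1k ℓ rh E1 q S1 S2 S3 v : ℝ} (hc : 0 ≤ c) (hN : 0 ≤ N) (hℓ : 1 ≤ ℓ) (hKk : 0 ≤ K1k)
    (hrh : 0 ≤ rh) (hv : 0 ≤ v)
    (q1 : 12 * rh * ℓ ^ 2 ≤ v / 400) (q2 : 3 * K1k * ℓ ^ 2 ≤ v / 400) (q3 : q ≤ v / 400)
    (q4 : zP ≤ N * (2 * rh)) (q5 : z ≤ N * (2 * rh)) (hE : E1 ≤ N * q)
    (p1 : S1 ≤ c * (z + N * K1k * ℓ)) (p2 : S2 ≤ c * (zP + N * K1k * ℓ ^ 2)) (p4 : c / 4 ≤ S3) :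
    1 / 64 * c * N * v ≤ N / 4 * v * S3 - 2 * S1 - S2 - c * E1 := by
  have hl2 : 1 ≤ ℓ ^ 2 := one_le_pow₀ hℓ
  have hll : ℓ ≤ ℓ ^ 2 := by nlinarith
  have r1 : 12 * rh ≤ v / 400 := by
    have : 12 * rh * 1 ≤ 12 * rh * ℓ ^ 2 := mul_le_mul_of_nonneg_left hl2 (by linarith)
    linarith
  have r2 : 3 * K1k * ℓ ≤ v / 400 := by
    have : 3 * K1k * ℓ ≤ 3 * K1k * ℓ ^ 2 := mul_le_mul_of_nonneg_left hll (by linarith)
    linarith
  have hcN : 0 ≤ c * N := mul_nonneg hc hN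
  have s1 : S1 ≤ c * N * (2 * rh + K1k * ℓ) := by
    refine p1.trans ?_
    have : c * (z + N * K1k * ℓ) ≤ c * (N * (2 * rh) + N * K1k * ℓ) :=
      mul_le_mul_of_nonneg_left (by linarith) hc
    refine this.trans (le_of_eq ?_)
    ring
  have s2 : S2 ≤ c * N * (2 * rh + K1k * ℓ ^ 2) := by
    refine p2.trans ?_
    have : c * (zP + N * K1k * ℓ ^ 2) ≤ c * (N * (2 * rh) + N * K1k * ℓ ^ 2) :=
      mul_le_mul_of_nonneg_left (by linarith) hc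
    refine this.trans (le_of_eq ?_)
    ring
  have t1 : c * N * (2 * rh + K1k * ℓ) ≤ c * N * (v / 400) :=
    mul_le_mul_of_nonneg_left (by linarith) hcN
  have t2 : c * N * (2 * rh + K1k * ℓ ^ 2) ≤ c * N * (v / 400) :=
    mul_le_mul_of_nonneg_left (by linarith) hcN
  have t3 : c * E1 ≤ c * N * (v / 400) := by
    have h1 : c * E1 ≤ c * (N * q) := mul_le_mul_of_nonneg_left hE hc
    have h2 : c * (N * q) ≤ c * (N * (v / 400)) :=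
      mul_le_mul_of_nonneg_left (mul_le_mul_of_nonneg_left q3 hN) hc
    have e : c * (N * (v / 400)) = c * N * (v / 400) := by ring
    linarith
  have t4 : N / 4 * v * (c / 4) ≤ N / 4 * v * S3 := mul_le_mul_of_nonneg_left p4 (by positivity)
  have hcNv : 0 ≤ c * N * v := mul_nonneg hcN hv
  have e4 : N / 4 * v * (c / 4) = c * N * v * (1 / 16) := by ring
  have e5 : 1 / 64 * c * N * v = c * N * v * (1 / 64) := by ring
  have e6 : c * N * (v / 400) = c * N * v * (1 / 400) := by ring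
  rw [e5]
  rw [e4] at t4
  rw [e6] at t1 t2 t3
  linarith

end Pool.Agent.PP5LR
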