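import Pool.Agent.PP5LR.Defs

/-!
# Jac: the sum of `(a / m)` over odd `m ≤ M` (difficulty 3)

1. For `a` odd and not a square there is an odd `b` with `(a / b) = -1`: if `|a|` is a square, `a = -s²`: `b = 4 s² - 1`
   (`jacobiSym.at_neg_one`; `jacobiSym.sq_one'`), else there is a prime `p` with `|a| = p ^ k m`, `k` odd, `p` not dividing `m`
   (factorization); `u` a non residue mod `p` (`FiniteField.exists_nonsquare`); CRT: `b = 1` mod `4 m`, `b = u` mod `p`;
   then `(-1 / b) = 1`, `(|a| / b) = (b / |a|) = (b / p) ^ k (b / m) = -1` (`jacobiSym.quadratic_reciprocity_one_mod_four'`,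
   `mul_right`, `pow_right`, `mod_left`).
2. `q := 4 |a|`: `(a / m)` depends only on `m` mod `q` for odd `m` (`jacobiSym.mod_right`), `m ↦ b m` mod `q` permutes the odd
   `m < q` prime to `a` (the others have symbol `0`), so the sum over a period is `0`.
3. split `[1, M]` into full periods and a rest of at most `q` terms.
-/

set_option autoImplicit false

namespace Pool.Agent.PP5LR

open Finset

/-- a prime with odd exponent -/
private theorem Jac_fac (n : ℕ) (hn : n ≠ 0) (hs : ¬ IsSquare n) :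
    ∃ p k m : ℕ, p.Prime ∧ Odd k ∧ ¬ p ∣ m ∧ n = p ^ k * m := by
  obtain ⟨a, b, hab, hsq⟩ := Nat.sq_mul_squarefree n
  have ha1 : a ≠ 1 := by
    rintro rfl
    exact hs ⟨b, by rw [← hab]; ring⟩
  obtain ⟨p, hp, hpa⟩ := Nat.exists_prime_and_dvd ha1
  have ha0 : a ≠ 0 := fun h => hn (by rw [← hab, h, mul_zero])
  have hb0 : b ≠ 0 := fun h => hn (by rw [← hab, h]; simp)
  refine ⟨p, n.factorization p, n / p ^ n.factorization p, hp, ?_, Nat.not_dvd_ordCompl hp hn,
    (Nat.ordProj_mul_ordCompl_eq_self n p).symm⟩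
  have h1 : a.factorization p = 1 := by
    have h2 := hsq.natFactorization_le_one p
    have h3 : 0 < a.factorization p := hp.factorization_pos_of_dvd ha0 hpa
    omega
  have h4 : n.factorization p = 2 * b.factorization p + a.factorization p := by
    rw [← hab, Nat.factorization_mul (pow_ne_zero 2 hb0) ha0, Nat.factorization_pow]
    simp
  rw [h4, h1]
  exact odd_two_mul_add_one _

private theorem Jac_ex1 (n : ℕ) (hodd : Odd n) (hs : ¬ IsSquare n) :
    ∃ b : ℕ, b % 4 = 1 ∧ jacobiSym (n : ℤ) b = -1 := by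
  have hn : n ≠ 0 := by
    rintro rfl
    exact hs ⟨0, rfl⟩
  obtain ⟨p, k, m, hp, hk, hpm, hnm⟩ := Jac_fac n hn hs
  haveI : Fact p.Prime := ⟨hp⟩
  have hp2 : p ≠ 2 := by
    rintro rfl
    have h2 : 2 ∣ n := by
      rw [hnm]
      exact Dvd.dvd.mul_right (dvd_pow_self 2 hk.pos.ne') m
    exact (Nat.not_even_iff_odd.2 hodd) (even_iff_two_dvd.2 h2)
  have hm0 : m ≠ 0 := fun h => hn (by rw [hnm, h, mul_zero])
  have hchar : ringChar (ZMod p) ≠ 2 := by
    rw [ZMod.ringChar_zmod_n]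
    exact hp2
  obtain ⟨x, hx⟩ := FiniteField.exists_nonsquare hchar
  have hco : Nat.Coprime (4 * m) p := by
    apply Nat.Coprime.mul_left
    · have : Nat.Coprime 2 p := (Nat.coprime_primes Nat.prime_two hp).2 (Ne.symm hp2)
      exact (Nat.Coprime.pow_left 2 this : Nat.Coprime (2 ^ 2) p)
    · exact ((Nat.Prime.coprime_iff_not_dvd hp).2 hpm).symm
  let B := Nat.chineseRemainder hco 1 x.val
  have hB1 : (B : ℕ) ≡ 1 [MOD 4 * m] := B.2.1
  have hB2 : (B : ℕ) ≡ x.val [MOD p] := B.2.2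
  have hb4 : (B : ℕ) % 4 = 1 := by
    have : (B : ℕ) ≡ 1 [MOD 4] := hB1.of_mul_right m
    simpa [Nat.ModEq] using this
  have hbm : (B : ℕ) ≡ 1 [MOD m] := hB1.of_mul_left 4
  refine ⟨B, hb4, ?_⟩
  rw [jacobiSym.quadratic_reciprocity_one_mod_four' hodd hb4]
  rw [hnm, jacobiSym.mul_right' _ (pow_ne_zero k hp.ne_zero) hm0, jacobiSym.pow_right]
  have h1 : jacobiSym (((B : ℕ)) : ℤ) m = 1 := by
    rw [jacobiSym.mod_left' (a₂ := 1), jacobiSym.one_left]
    have := (Int.natCast_modEq_iff.2 hbm : ((B : ℕ) : ℤ) ≡ ((1 : ℕ) : ℤ) [ZMOD (m : ℤ)])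
    simpa [Int.ModEq] using this
  have h2 : jacobiSym (((B : ℕ)) : ℤ) p = -1 := by
    rw [← jacobiSym.legendreSym.to_jacobiSym, legendreSym.eq_neg_one_iff]
    have h3 : ((((B : ℕ)) : ℤ) : ZMod p) = x := by
      have h4 : ((B : ℕ) : ZMod p) = ((x.val : ℕ) : ZMod p) := (ZMod.natCast_eq_natCast_iff _ _ _).2 hB2
      rw [Int.cast_natCast, h4, ZMod.natCast_zmod_val]
    rw [h3]
    exact hx
  rw [h1, h2, hk.neg_one_pow]
  norm_num

private theorem Jac_ex (a : ℤ) (ha : Odd a) (hs : ¬ IsSquare a) : ∃ b : ℕ, Odd b ∧ jacobiSym a b = -1 := by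
  have hna : Odd a.natAbs := Int.natAbs_odd.2 ha
  by_cases hsq : IsSquare a.natAbs
  · obtain ⟨s, hs'⟩ := hsq
    have ha' : a = -((s : ℤ) ^ 2) := by
      rcases Int.natAbs_eq a with h | h
      · exfalso
        apply hs
        refine ⟨(s : ℤ), ?_⟩
        rw [h, hs']
        push_cast
        ring
      · rw [h, hs']
        push_cast
        ring
    have hs0 : 0 < s := by
      rcases Nat.eq_zero_or_pos s with h | h
      · exfalso
        rw [h] at hs'
        rw [hs'] at hna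
        exact absurd hna (by decide)
      · exact h
    have hss : 1 ≤ s ^ 2 := Nat.one_le_pow _ _ hs0
    refine ⟨4 * s ^ 2 - 1, ?_, ?_⟩
    · rw [Nat.odd_iff]; omega
    · have hodd : Odd (4 * s ^ 2 - 1) := by rw [Nat.odd_iff]; omega
      rw [ha', jacobiSym.neg _ hodd]
      have h3 : ((4 * s ^ 2 - 1 : ℕ)) % 4 = 3 := by omega
      have hg : Int.gcd (s : ℤ) ((4 * s ^ 2 - 1 : ℕ) : ℤ) = 1 := by
        rw [Int.gcd_natCast_natCast]
        have h5 : Nat.Coprime s (4 * s ^ 2 - 1) := by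
          rw [Nat.coprime_iff_gcd_eq_one]
          have hd1 := Nat.gcd_dvd_left s (4 * s ^ 2 - 1)
          have hd2 := Nat.gcd_dvd_right s (4 * s ^ 2 - 1)
          have hd3 : Nat.gcd s (4 * s ^ 2 - 1) ∣ 4 * s ^ 2 :=
            Dvd.dvd.mul_left (Dvd.dvd.pow hd1 (by norm_num)) 4
          have hd4 : Nat.gcd s (4 * s ^ 2 - 1) ∣ 4 * s ^ 2 - (4 * s ^ 2 - 1) := Nat.dvd_sub hd3 hd2
          have h6 : 4 * s ^ 2 - (4 * s ^ 2 - 1) = 1 := by omega
          rw [h6] at hd4
          exact Nat.dvd_one.1 hd4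
        exact h5
      rw [jacobiSym.sq_one' hg, ZMod.χ₄_nat_three_mod_four h3]
      norm_num
  · obtain ⟨b, hb4, hb⟩ := Jac_ex1 a.natAbs hna hsq
    have hodd : Odd b := by rw [Nat.odd_iff]; omega
    refine ⟨b, hodd, ?_⟩
    rcases Int.natAbs_eq a with h | h
    · rw [h]; exact hb
    · rw [h, jacobiSym.neg _ hodd, ZMod.χ₄_nat_one_mod_four hb4, hb]
      norm_num

open Classical in
private noncomputable def Jac_F (a : ℤ) (m : ℕ) : ℝ := if Odd m then jj a m else 0

private theorem Jac_F_mod (a : ℤ) (m : ℕ) : Jac_F a m = Jac_F a (m % (4 * a.natAbs)) := by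
  classical
  unfold Jac_F
  have hev : Even (4 * a.natAbs) := Even.mul_right (by decide) _
  by_cases hm : Odd m
  · have hm' : Odd (m % (4 * a.natAbs)) := hm.mod_even hev
    rw [if_pos hm, if_pos hm']
    unfold jj
    rw [← jacobiSym.mod_right a hm]
  · have hm' : ¬ Odd (m % (4 * a.natAbs)) := by
      rw [Nat.not_odd_iff_even] at hm ⊢
      exact (Nat.even_iff).2 (by
        obtain ⟨t, ht⟩ := hev
        rw [Nat.even_iff] at hm
        rw [ht, ← two_mul, Nat.mod_mul_right_mod]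
        exact hm)
    rw [if_neg hm, if_neg hm']

private theorem Jac_F_abs (a : ℤ) (m : ℕ) : |Jac_F a m| ≤ 1 := by
  classical
  unfold Jac_F
  split_ifs
  · unfold jj
    rcases jacobiSym.trichotomy a m with h | h | h <;> rw [h] <;> norm_num
  · norm_num

private theorem Jac_F_mul (a : ℤ) (b m : ℕ) (hb : Odd b) (hJ : jacobiSym a b = -1) :
    Jac_F a (b * m) = - Jac_F a m := by
  classical
  unfold Jac_F
  by_cases hm : Odd m
  · rw [if_pos (Nat.odd_mul.2 ⟨hb, hm⟩), if_pos hm]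
    unfold jj
    rw [jacobiSym.mul_right' a hb.pos.ne' hm.pos.ne', hJ]
    push_cast
    ring
  · rw [if_neg (fun h => hm (Nat.odd_mul.1 h).2), if_neg hm]
    simp

private theorem Jac_period (a : ℤ) (ha : Odd a) (hs : ¬ IsSquare a) :
    ∑ m ∈ range (4 * a.natAbs), Jac_F a m = 0 := by
  obtain ⟨b, hb, hJ⟩ := Jac_ex a ha hs
  have ha0 : 0 < a.natAbs := (Int.natAbs_odd.2 ha).pos
  have hq : 0 < 4 * a.natAbs := by positivity
  have hco : Nat.Coprime b (4 * a.natAbs) := by
    apply Nat.Coprime.mul_right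
    · have h2 : Nat.Coprime b 2 := Nat.coprime_two_right.2 hb
      exact (Nat.Coprime.pow_right 2 h2 : Nat.Coprime b (2 ^ 2))
    · have h1 : a.gcd (b : ℤ) = 1 := by
        by_contra hne
        have := jacobiSym.eq_zero_iff.2 ⟨hb.pos.ne', hne⟩
        rw [hJ] at this
        norm_num at this
      have h2 : Nat.gcd a.natAbs b = 1 := by
        simpa [Int.gcd] using h1
      exact Nat.Coprime.symm h2
  obtain ⟨c, hc⟩ : ∃ c : ℕ, b * c ≡ 1 [MOD 4 * a.natAbs] := by
    obtain ⟨c, hc⟩ := Nat.exists_mul_mod_eq_one_of_coprime hco (by omega)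
    exact ⟨c, by
      unfold Nat.ModEq
      rw [hc.2]
      exact (Nat.mod_eq_of_lt (by omega)).symm⟩
  have key : ∑ m ∈ range (4 * a.natAbs), Jac_F a m = ∑ m ∈ range (4 * a.natAbs), Jac_F a (b * m) := by
    symm
    refine Finset.sum_nbij' (fun m => (b * m) % (4 * a.natAbs)) (fun m => (c * m) % (4 * a.natAbs)) ?_ ?_ ?_ ?_ ?_
    · intro m _
      exact mem_range.2 (Nat.mod_lt _ hq)
    · intro m _
      exact mem_range.2 (Nat.mod_lt _ hq)
    · intro m hm
      have hm' := mem_range.1 hm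
      have h1 : c * ((b * m) % (4 * a.natAbs)) ≡ m [MOD 4 * a.natAbs] := by
        calc c * ((b * m) % (4 * a.natAbs)) ≡ c * (b * m) [MOD 4 * a.natAbs] :=
              (Nat.mod_modEq _ _).mul_left c
          _ = (b * c) * m := by ring
          _ ≡ 1 * m [MOD 4 * a.natAbs] := hc.mul_right m
          _ = m := one_mul m
      have h2 : (c * ((b * m) % (4 * a.natAbs))) % (4 * a.natAbs) = m % (4 * a.natAbs) := h1
      show (c * ((b * m) % (4 * a.natAbs))) % (4 * a.natAbs) = m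
      rw [h2, Nat.mod_eq_of_lt hm']
    · intro m hm
      have hm' := mem_range.1 hm
      have h1 : b * ((c * m) % (4 * a.natAbs)) ≡ m [MOD 4 * a.natAbs] := by
        calc b * ((c * m) % (4 * a.natAbs)) ≡ b * (c * m) [MOD 4 * a.natAbs] :=
              (Nat.mod_modEq _ _).mul_left b
          _ = (b * c) * m := by ring
          _ ≡ 1 * m [MOD 4 * a.natAbs] := hc.mul_right m
          _ = m := one_mul m
      have h2 : (b * ((c * m) % (4 * a.natAbs))) % (4 * a.natAbs) = m % (4 * a.natAbs) := h1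
      show (b * ((c * m) % (4 * a.natAbs))) % (4 * a.natAbs) = m
      rw [h2, Nat.mod_eq_of_lt hm']
    · intro m _
      exact Jac_F_mod a (b * m)
  have key2 : ∑ m ∈ range (4 * a.natAbs), Jac_F a (b * m) = - ∑ m ∈ range (4 * a.natAbs), Jac_F a m := by
    rw [← Finset.sum_neg_distrib]
    exact Finset.sum_congr rfl fun m _ => Jac_F_mul a b m hb hJ
  rw [key2] at key
  linarith

private theorem Jac_full (a : ℤ) (ha : Odd a) (hs : ¬ IsSquare a) (k : ℕ) :
    ∑ m ∈ range (4 * a.natAbs * k), Jac_F a m = 0 := by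
  induction k with
  | zero => simp
  | succ k ih =>
    rw [Nat.mul_succ, Finset.sum_range_add, ih, zero_add, ← Jac_period a ha hs]
    refine Finset.sum_congr rfl fun m _ => ?_
    rw [Jac_F_mod a (4 * a.natAbs * k + m), Jac_F_mod a m, Nat.mul_add_mod]

open Classical in
theorem per (a : ℤ) (ha : Odd a) (hs : ¬ IsSquare a) (M : ℕ) :
    |∑ m ∈ (Icc 1 M).filter Odd, jj a m| ≤ 4 * |(a : ℝ)| := by
  have ha0 : 0 < a.natAbs := (Int.natAbs_odd.2 ha).pos
  have hq : 0 < 4 * a.natAbs := by positivity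
  have h1 : ∑ m ∈ (Icc 1 M).filter Odd, jj a m = ∑ m ∈ range (M + 1), Jac_F a m := by
    rw [Finset.sum_filter]
    rw [Finset.range_eq_Ico, Finset.sum_eq_sum_Ico_succ_bot (Nat.succ_pos M)]
    have h0 : Jac_F a 0 = 0 := by
      unfold Jac_F
      rw [if_neg (by decide)]
    rw [h0, zero_add]
    rfl
  rw [h1]
  have h2 : 4 * a.natAbs * ((M + 1) / (4 * a.natAbs)) + (M + 1) % (4 * a.natAbs) = M + 1 :=
    Nat.div_add_mod _ _
  rw [← h2, Finset.sum_range_add, Jac_full a ha hs, zero_add]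
  calc |∑ m ∈ range ((M + 1) % (4 * a.natAbs)), Jac_F a (4 * a.natAbs * ((M + 1) / (4 * a.natAbs)) + m)|
      ≤ ∑ m ∈ range ((M + 1) % (4 * a.natAbs)), |Jac_F a (4 * a.natAbs * ((M + 1) / (4 * a.natAbs)) + m)| :=
        Finset.abs_sum_le_sum_abs _ _
    _ ≤ ∑ _m ∈ range ((M + 1) % (4 * a.natAbs)), (1 : ℝ) := Finset.sum_le_sum fun m _ => Jac_F_abs a _
    _ = (((M + 1) % (4 * a.natAbs) : ℕ) : ℝ) := by simp
    _ ≤ ((4 * a.natAbs : ℕ) : ℝ) := by
        exact_mod_cast (Nat.mod_lt _ hq).le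
    _ = 4 * |(a : ℝ)| := by
        push_cast
        rw [Nat.cast_natAbs]
        push_cast
        rfl

end Pool.Agent.PP5LR
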