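import Pool.Agent.PP5LR.Nng

/-!
# Jlo: removing the `n` which are not prime to `D` (difficulty 2)

For `n` rough in `(N/2, N]` with `(n, D) > 1` there is a prime `p ∣ n`, `p ∣ D`, `p > w`.
`rr D n ≤ ∑_{p} rr D n`, and `n = p m`, `rr D (p m) = rr D m` (`rr_mul`), `N/(2p) < m ≤ N/p`, `m` rough.
-/

set_option autoImplicit false

namespace Pool.Agent.PP5LR

open Finset

private theorem Jlo_ex (D : ℤ) (w : ℝ) (N n : ℕ)
    (hn0 : 0 < n) (hnN : n ≤ N) (hodd : Rf w n) (hg : ¬ Int.gcd D (n : ℤ) = 1) :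
    ∃ p ∈ Dp w D N, p ∣ n := by
  classical
  obtain ⟨p, hp, hpg⟩ := Nat.exists_prime_and_dvd hg
  have hpn : p ∣ n := by
    have h := hpg.trans (Int.gcd_dvd_natAbs_right D (n : ℤ))
    simpa using h
  have hpD : (p : ℤ) ∣ D := by
    have h := hpg.trans (Int.gcd_dvd_natAbs_left D (n : ℤ))
    exact Int.natCast_dvd.2 h
  have hpw : w < (p : ℝ) := hodd p hp hpn
  refine ⟨p, ?_, hpn⟩
  unfold Dp
  rw [mem_filter, mem_Icc]
  exact ⟨⟨hp.one_le, (Nat.le_of_dvd hn0 hpn).trans hnN⟩, hp, hpw, hpD⟩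

open Classical in
private theorem Jlo_one (w : ℝ) (D : ℤ) (N p : ℕ) (hp : p.Prime) (hD : (p : ℤ) ∣ D) :
    ∑ n ∈ ((Ioc (N / 2) N).filter (Rf w)).filter (fun n : ℕ => p ∣ n), rr D n ≤ TT w D ((N : ℝ) / p) := by
  classical
  have hp0 : (0 : ℝ) < (p : ℝ) := by exact_mod_cast hp.pos
  have hmem : ∀ n ∈ ((Ioc (N / 2) N).filter (Rf w)).filter (fun n : ℕ => p ∣ n),
      0 < n ∧ n ≤ N ∧ N < 2 * n ∧ Rf w n ∧ p ∣ n := by
    intro n hn
    rw [mem_filter, mem_filter, mem_Ioc] at hn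
    obtain ⟨⟨⟨ha, hb⟩, hc⟩, hd⟩ := hn
    exact ⟨by omega, hb, by omega, hc, hd⟩
  have hinj : Set.InjOn (fun n : ℕ => n / p)
      (((Ioc (N / 2) N).filter (Rf w)).filter (fun n : ℕ => p ∣ n) : Finset ℕ) := by
    intro a ha b hb hab
    have h1 := (hmem a ha).2.2.2.2
    have h2 := (hmem b hb).2.2.2.2
    have hab' : a / p = b / p := hab
    rw [← Nat.mul_div_cancel' h1, ← Nat.mul_div_cancel' h2, hab']
  have hval : ∀ n ∈ ((Ioc (N / 2) N).filter (Rf w)).filter (fun n : ℕ => p ∣ n), rr D n = rr D (n / p) := by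
    intro n hn
    obtain ⟨h0, -, -, -, hd⟩ := hmem n hn
    have hne : n / p ≠ 0 := (Nat.div_pos (Nat.le_of_dvd h0 hd) hp.pos).ne'
    have := rr_mul D hp hD hne
    rwa [Nat.mul_div_cancel' hd] at this
  rw [Finset.sum_congr rfl hval, ← Finset.sum_image (f := fun m => rr D m) hinj]
  unfold TT
  refine Finset.sum_le_sum_of_subset_of_nonneg ?_ (fun m _ _ => rr_nonneg D m)
  intro m hm
  rw [mem_image] at hm
  obtain ⟨n, hn, rfl⟩ := hm
  obtain ⟨h0, hN, hN2, hodd, hd⟩ := hmem n hn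
  obtain ⟨k, rfl⟩ := hd
  have hk : p * k / p = k := Nat.mul_div_cancel_left k hp.pos
  rw [hk, mem_filter, mem_Ioc]
  have hk0 : 0 < k := Nat.pos_of_mul_pos_left h0 |> fun _ => by
    rcases Nat.eq_zero_or_pos k with h | h
    · simp [h] at h0
    · exact h
  refine ⟨⟨?_, ?_⟩, ?_⟩
  · rw [Nat.floor_lt' hk0.ne']
    rw [div_div, div_lt_iff₀ (by positivity)]
    have : ((N : ℕ) : ℝ) < ((2 * (p * k) : ℕ) : ℝ) := by exact_mod_cast hN2
    push_cast at this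
    linarith
  · apply Nat.le_floor
    rw [le_div_iff₀ hp0]
    have : (((p * k : ℕ)) : ℝ) ≤ ((N : ℕ) : ℝ) := by exact_mod_cast hN
    push_cast at this
    linarith
  · exact fun q hq hqk => hodd q hq (hqk.mul_left p)

theorem jlo (D : ℤ) (w : ℝ) (N : ℕ) :
    TT w D N - ∑ p ∈ Dp w D N, TT w D ((N : ℝ) / p) ≤ JJ w D N := by
  classical
  have hfl1 : ⌊((N : ℝ))⌋₊ = N := Nat.floor_natCast N
  have hfl2 : ⌊(N : ℝ) / 2⌋₊ = N / 2 := by
    have := Nat.floor_div_ofNat (N : ℝ) 2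
    simpa using this
  have hTT : TT w D N = ∑ n ∈ (Ioc (N / 2) N).filter (Rf w), rr D n := by
    unfold TT
    rw [hfl1, hfl2]
  have hsplit : ∑ n ∈ (Ioc (N / 2) N).filter (Rf w), rr D n
      = ∑ n ∈ ((Ioc (N / 2) N).filter (Rf w)).filter (fun n : ℕ => Int.gcd D (n : ℤ) = 1), rr D n
        + ∑ n ∈ ((Ioc (N / 2) N).filter (Rf w)).filter (fun n : ℕ => ¬ Int.gcd D (n : ℤ) = 1), rr D n :=
    (Finset.sum_filter_add_sum_filter_not _ _ _).symm
  have hJJ : JJ w D N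
      = ∑ n ∈ ((Ioc (N / 2) N).filter (Rf w)).filter (fun n : ℕ => Int.gcd D (n : ℤ) = 1), rr D n := by
    unfold JJ
    rw [Finset.filter_filter]
  have h2 : ∑ n ∈ ((Ioc (N / 2) N).filter (Rf w)).filter (fun n : ℕ => ¬ Int.gcd D (n : ℤ) = 1), rr D n
      ≤ ∑ p ∈ Dp w D N, TT w D ((N : ℝ) / p) := by
    calc ∑ n ∈ ((Ioc (N / 2) N).filter (Rf w)).filter (fun n : ℕ => ¬ Int.gcd D (n : ℤ) = 1), rr D n
        ≤ ∑ n ∈ ((Ioc (N / 2) N).filter (Rf w)).filter (fun n : ℕ => ¬ Int.gcd D (n : ℤ) = 1),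
            ∑ p ∈ (Dp w D N).filter (fun p : ℕ => p ∣ n), rr D n := by
          refine Finset.sum_le_sum fun n hn => ?_
          rw [mem_filter, mem_filter, mem_Ioc] at hn
          obtain ⟨⟨⟨ha, hb⟩, hc⟩, hd⟩ := hn
          obtain ⟨p, hp, hpn⟩ := Jlo_ex D w N n (by omega) hb hc hd
          exact Finset.single_le_sum (f := fun _ : ℕ => rr D n) (fun _ _ => rr_nonneg D n)
            (mem_filter.2 ⟨hp, hpn⟩)
      _ ≤ ∑ n ∈ (Ioc (N / 2) N).filter (Rf w),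
            ∑ p ∈ (Dp w D N).filter (fun p : ℕ => p ∣ n), rr D n :=
          Finset.sum_le_sum_of_subset_of_nonneg (Finset.filter_subset _ _)
            (fun n _ _ => Finset.sum_nonneg fun p _ => rr_nonneg D n)
      _ = ∑ p ∈ Dp w D N, ∑ n ∈ ((Ioc (N / 2) N).filter (Rf w)).filter (fun n : ℕ => p ∣ n), rr D n := by
          simp_rw [Finset.sum_filter (fun p : ℕ => p ∣ _) _]
          rw [Finset.sum_comm]
          refine Finset.sum_congr rfl fun p _ => ?_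
          rw [Finset.sum_filter (fun n : ℕ => p ∣ n)]
      _ ≤ ∑ p ∈ Dp w D N, TT w D ((N : ℝ) / p) := by
          refine Finset.sum_le_sum fun p hp => ?_
          have hp' : p.Prime ∧ w < (p : ℝ) ∧ (p : ℤ) ∣ D := by
            unfold Dp at hp
            exact (mem_filter.1 hp).2
          exact Jlo_one w D N p hp'.1 hp'.2.2
  rw [hTT, hsplit, ← hJJ]
  linarith

end Pool.Agent.PP5LR
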