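import Pool.Agent.PP5LR.Defs
import Pool.Agent.FTA.DivB

/-!
# Tup: the number of factorisations (difficulty 1)

Every component divides `m`, so `S.card ≤ m.divisors.card ^ k`; `FTA.divisor_bound` with `ε / (k + 1)`.
-/

set_option autoImplicit false

namespace Pool.Agent.PP5LR

open Finset

theorem tup (k : ℕ) (ε : ℝ) (hε : 0 < ε) : ∃ K : ℝ, 1 ≤ K ∧ ∀ m : ℕ, 1 ≤ m → ∀ S : Finset (Fin k → ℕ),
    (∀ d ∈ S, ∏ i, d i = m) → (S.card : ℝ) ≤ K * (m : ℝ) ^ ε := by
  classical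
  have hk : (0 : ℝ) < (k : ℝ) + 1 := by positivity
  obtain ⟨C, hC0, hC⟩ := Pool.Agent.FTA.divisor_bound (ε := ε / ((k : ℝ) + 1)) (by positivity)
  set K := max C 1 with hK
  have hK1 : 1 ≤ K := le_max_right _ _
  refine ⟨K ^ k, one_le_pow₀ hK1, ?_⟩
  intro m hm S hS
  have hm0 : m ≠ 0 := by omega
  have hm1 : (1 : ℝ) ≤ m := by exact_mod_cast hm
  have hsub : S ⊆ Fintype.piFinset (fun _ : Fin k => m.divisors) := by
    intro d hd
    rw [Fintype.mem_piFinset]
    intro i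
    rw [Nat.mem_divisors]
    refine ⟨?_, hm0⟩
    rw [← hS d hd]
    exact Finset.dvd_prod_of_mem _ (Finset.mem_univ i)
  have h1 : S.card ≤ m.divisors.card ^ k := by
    refine (Finset.card_le_card hsub).trans (le_of_eq ?_)
    rw [Fintype.card_piFinset, Finset.prod_const, Finset.card_univ, Fintype.card_fin]
  have h2 : (m.divisors.card : ℝ) ≤ K * (m : ℝ) ^ (ε / (k + 1)) :=
    (hC m hm0).trans (mul_le_mul_of_nonneg_right (le_max_left _ _) (by positivity))
  calc (S.card : ℝ) ≤ (m.divisors.card : ℝ) ^ k := by exact_mod_cast h1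
    _ ≤ (K * (m : ℝ) ^ (ε / (k + 1))) ^ k := pow_le_pow_left₀ (Nat.cast_nonneg _) h2 k
    _ = K ^ k * (m : ℝ) ^ (ε / (k + 1) * k) := by
        rw [mul_pow, ← Real.rpow_natCast ((m : ℝ) ^ (ε / (k + 1))), ← Real.rpow_mul (by linarith)]
    _ ≤ K ^ k * (m : ℝ) ^ ε := by
        refine mul_le_mul_of_nonneg_left (Real.rpow_le_rpow_of_exponent_le hm1 ?_) (by positivity)
        rw [div_mul_eq_mul_div, div_le_iff₀ hk]
        nlinarith

end Pool.Agent.PP5LR
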