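import Pool.Agent.PP5LR.Sqp
import Pool.Agent.PP5LR.Jac
import Pool.Agent.PP5LR.Tup

/-!
# Mom: the sums `VV w (D x) a b` are small on average (difficulty 4)

`η, K` from `sqp`; `k` even, `k ≥ 2` with `k d0 ≥ 2 A + η`; `ε = η / (4 A k)` (so `(b ^ k) ^ ε ≤ R ^ (η/4)`), `tup k ε`.
`∑_x (VV w (D x) a b) ^ k = ∑_{d ∈ (Ioc a b, Rg w) ^ k} ∑_x jj (D x) (∏ d_i) = ∑_{m ≤ M, m odd} c_m ∑_x jj (D x) m`, `M = b ^ k`,
`c_m` = number of tuples with product `m`, `c_m ≤ K1 M ^ ε`, `∑ c_m ≤ M`, so `∑ c_m ^ 2 ≤ K1 M ^ (1+ε)`.  Cauchy: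
`(∑_x V ^ k) ^ 2 ≤ K1 M ^ (1+ε) ∑_{m ≤ M, odd} (∑_x jj (D x) m) ^ 2`, and the last sum is `∑_{x,x'} ∑_{m ≤ M odd} jj (D x D x') m`
`≤ M #(square pairs) + |X| ^ 2 4 R ^ (2A)` (`per`) `≤ (K + 4) |X| ^ 2 M R ^ (-η)`.
So `∑_x V ^ k ≤ K2 |X| M R ^ (-η/4)`, and `(∑_x |V|) ^ k ≤ |X| ^ (k-1) ∑ |V| ^ k` (`inner_mul_le_norm..`, `pow_sum_div_card_le_sum_pow`):
`∑_x |V| ≤ K3 |X| b R ^ (-η/(4k))`.
-/

set_option autoImplicit false

namespace Pool.Agent.PP5LR

open Finset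

private lemma mom_jj_abs (D : ℤ) (m : ℕ) : |jj D m| ≤ 1 := by
  unfold jj
  rcases jacobiSym.trichotomy D m with h | h | h <;> rw [h] <;> simp

private lemma mom_jj_prod (D : ℤ) {k : ℕ} (t : Fin k → ℕ) (ht : ∀ i, t i ≠ 0) :
    ∏ i, jj D (t i) = jj D (∏ i, t i) := by
  have key : ∀ s : Finset (Fin k), ∏ i ∈ s, jj D (t i) = jj D (∏ i ∈ s, t i) := by
    intro s
    classical
    induction s using Finset.induction_on with
    | empty => simp [jj]
    | insert i s hi ih =>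
      rw [Finset.prod_insert hi, Finset.prod_insert hi, ih]
      unfold jj
      rw [jacobiSym.mul_right' D (ht i) (Finset.prod_ne_zero_iff.2 fun j _ => ht j)]
      push_cast
      ring
  exact key Finset.univ

open Classical in
private lemma mom_expand {ι : Type} (X : Finset ι) (D : ι → ℤ) (S : Finset ℕ) (k b : ℕ)
    (hS : ∀ d ∈ S, 1 ≤ d ∧ Odd d ∧ d ≤ b) :
    ∑ x ∈ X, (∑ d ∈ S, jj (D x) d) ^ k = ∑ m ∈ (Icc 1 (b ^ k)).filter Odd,
      (((Fintype.piFinset (fun _ : Fin k => S)).filter (fun t => ∏ i, t i = m)).card : ℝ) *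
        ∑ x ∈ X, jj (D x) m := by
  have hmem : ∀ t ∈ Fintype.piFinset (fun _ : Fin k => S), ∀ i, t i ∈ S := by
    intro t ht i
    exact (Fintype.mem_piFinset.1 ht) i
  calc ∑ x ∈ X, (∑ d ∈ S, jj (D x) d) ^ k
      = ∑ x ∈ X, ∑ t ∈ Fintype.piFinset (fun _ : Fin k => S), jj (D x) (∏ i, t i) := by
        refine Finset.sum_congr rfl fun x _ => ?_
        have h1 : (∑ d ∈ S, jj (D x) d) ^ k = ∏ _i : Fin k, ∑ d ∈ S, jj (D x) d := by simp
        rw [h1, Finset.prod_univ_sum]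
        refine Finset.sum_congr rfl fun t ht => ?_
        refine mom_jj_prod (D x) t fun i => ?_
        have := (hS _ (hmem t ht i)).1
        omega
    _ = ∑ t ∈ Fintype.piFinset (fun _ : Fin k => S), ∑ x ∈ X, jj (D x) (∏ i, t i) :=
        Finset.sum_comm
    _ = ∑ m ∈ (Icc 1 (b ^ k)).filter Odd,
          ∑ t ∈ (Fintype.piFinset (fun _ : Fin k => S)).filter (fun t => ∏ i, t i = m),
            ∑ x ∈ X, jj (D x) (∏ i, t i) := by
        refine (Finset.sum_fiberwise_of_maps_to ?_ _).symm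
        intro t ht
        rw [Finset.mem_filter, Finset.mem_Icc]
        refine ⟨⟨?_, ?_⟩, ?_⟩
        · exact Nat.one_le_iff_ne_zero.2 (Finset.prod_ne_zero_iff.2 fun i _ => by
            have := (hS _ (hmem t ht i)).1
            omega)
        · calc ∏ i, t i ≤ ∏ _i : Fin k, b :=
                Finset.prod_le_prod' fun i _ => (hS _ (hmem t ht i)).2.2
            _ = b ^ k := by simp
        · refine Finset.prod_induction _ Odd (fun _ _ => Odd.mul) odd_one ?_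
          intro i _
          exact (hS _ (hmem t ht i)).2.1
    _ = _ := by
        refine Finset.sum_congr rfl fun m _ => ?_
        rw [← nsmul_eq_mul, ← Finset.sum_const]
        refine Finset.sum_congr rfl fun t ht => ?_
        rw [(Finset.mem_filter.1 ht).2]

open Classical in
private lemma mom_csq (k : ℕ) (ε K1 : ℝ) (hε : 0 < ε) (hK1 : 1 ≤ K1)
    (htup : ∀ m : ℕ, 1 ≤ m → ∀ S : Finset (Fin k → ℕ),
    (∀ d ∈ S, ∏ i, d i = m) → (S.card : ℝ) ≤ K1 * (m : ℝ) ^ ε) (S : Finset ℕ) (b : ℕ)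
    (hcard : S.card ≤ b) :
    ∑ m ∈ (Icc 1 (b ^ k)).filter Odd,
      (((Fintype.piFinset (fun _ : Fin k => S)).filter (fun t => ∏ i, t i = m)).card : ℝ) ^ 2
      ≤ K1 * ((b ^ k : ℕ) : ℝ) ^ ε * ((b ^ k : ℕ) : ℝ) := by
  have h1 : ∀ m ∈ (Icc 1 (b ^ k)).filter Odd,
      (((Fintype.piFinset (fun _ : Fin k => S)).filter (fun t => ∏ i, t i = m)).card : ℝ) ^ 2
      ≤ K1 * ((b ^ k : ℕ) : ℝ) ^ ε *
        (((Fintype.piFinset (fun _ : Fin k => S)).filter (fun t => ∏ i, t i = m)).card : ℝ) := by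
    intro m hm
    obtain ⟨hm1, hm2⟩ := Finset.mem_Icc.1 (Finset.mem_filter.1 hm).1
    have h2 := htup m hm1
      ((Fintype.piFinset (fun _ : Fin k => S)).filter (fun t => ∏ i, t i = m))
      (fun d hd => (Finset.mem_filter.1 hd).2)
    have h3 : (m : ℝ) ^ ε ≤ ((b ^ k : ℕ) : ℝ) ^ ε :=
      Real.rpow_le_rpow (by positivity) (by exact_mod_cast hm2) hε.le
    have h4 : (((Fintype.piFinset (fun _ : Fin k => S)).filter
        (fun t => ∏ i, t i = m)).card : ℝ) ≤ K1 * ((b ^ k : ℕ) : ℝ) ^ ε :=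
      h2.trans (mul_le_mul_of_nonneg_left h3 (by linarith))
    rw [sq]
    exact mul_le_mul_of_nonneg_right h4 (Nat.cast_nonneg _)
  refine (Finset.sum_le_sum h1).trans ?_
  rw [← Finset.mul_sum]
  refine mul_le_mul_of_nonneg_left ?_ (by positivity)
  have h5 : ∑ m ∈ (Icc 1 (b ^ k)).filter Odd,
      ((Fintype.piFinset (fun _ : Fin k => S)).filter (fun t => ∏ i, t i = m)).card
      ≤ (Fintype.piFinset (fun _ : Fin k => S)).card := by
    rw [Finset.sum_card_fiberwise_eq_card_filter]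
    exact Finset.card_filter_le _ _
  have h6 : (Fintype.piFinset (fun _ : Fin k => S)).card ≤ b ^ k := by
    rw [Fintype.card_piFinset]
    simp only [Finset.prod_const, Finset.card_univ, Fintype.card_fin]
    exact Nat.pow_le_pow_left hcard k
  exact_mod_cast h5.trans h6

open Classical in
private lemma mom_gsq {ι : Type} (X : Finset ι) (D : ι → ℤ) (hodd : ∀ x ∈ X, Odd (D x)) (B : ℝ)
    (hB : 0 ≤ B) (hD : ∀ x ∈ X, |(D x : ℝ)| ≤ B) (M : ℕ) :
    ∑ m ∈ (Icc 1 M).filter Odd, (∑ x ∈ X, jj (D x) m) ^ 2 ≤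
      (((X ×ˢ X).filter (fun q => IsSquare (D q.1 * D q.2))).card : ℝ) * M
        + (X.card : ℝ) ^ 2 * (4 * B ^ 2) := by
  have h1 : ∑ m ∈ (Icc 1 M).filter Odd, (∑ x ∈ X, jj (D x) m) ^ 2
      = ∑ q ∈ X ×ˢ X, ∑ m ∈ (Icc 1 M).filter Odd, jj (D q.1 * D q.2) m := by
    rw [Finset.sum_comm]
    refine Finset.sum_congr rfl fun m _ => ?_
    rw [sq, Finset.sum_mul_sum, ← Finset.sum_product']
    refine Finset.sum_congr rfl fun q _ => ?_
    unfold jj
    rw [jacobiSym.mul_left]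
    push_cast
    ring
  rw [h1]
  have h2 : ∀ q ∈ X ×ˢ X, ∑ m ∈ (Icc 1 M).filter Odd, jj (D q.1 * D q.2) m ≤
      (if IsSquare (D q.1 * D q.2) then (M : ℝ) else 0) + 4 * B ^ 2 := by
    intro q hq
    obtain ⟨hq1, hq2⟩ := Finset.mem_product.1 hq
    by_cases hs : IsSquare (D q.1 * D q.2)
    · rw [if_pos hs]
      have h3 : ∑ m ∈ (Icc 1 M).filter Odd, jj (D q.1 * D q.2) m ≤
          ∑ m ∈ (Icc 1 M).filter Odd, (1 : ℝ) :=
        Finset.sum_le_sum fun m _ => (le_abs_self _).trans (mom_jj_abs _ _)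
      have h4 : ∑ m ∈ (Icc 1 M).filter Odd, (1 : ℝ) ≤ M := by
        rw [Finset.sum_const, nsmul_eq_mul, mul_one]
        have h5 : ((Icc 1 M).filter Odd).card ≤ M := by
          refine (Finset.card_filter_le _ _).trans ?_
          simp
        exact_mod_cast h5
      have : 0 ≤ 4 * B ^ 2 := by positivity
      linarith
    · rw [if_neg hs, zero_add]
      refine (le_abs_self _).trans ((per _ ((hodd _ hq1).mul (hodd _ hq2)) hs M).trans ?_)
      push_cast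
      rw [abs_mul, sq]
      refine mul_le_mul_of_nonneg_left ?_ (by norm_num)
      exact mul_le_mul (hD _ hq1) (hD _ hq2) (abs_nonneg _) hB
  refine (Finset.sum_le_sum h2).trans (le_of_eq ?_)
  rw [Finset.sum_add_distrib, ← Finset.sum_filter, Finset.sum_const, Finset.sum_const,
    nsmul_eq_mul, nsmul_eq_mul, Finset.card_product]
  push_cast
  ring

open Classical in
private lemma mom_core (δ C A d0 : ℝ) (hδ : 0 < δ) (hC : 0 ≤ C) (hA : 1 ≤ A) (hd0 : 0 < d0) : ∃ κ K : ℝ, 0 < κ ∧ 0 < K ∧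
    ∀ w : ℝ, 2 ≤ w → ∃ R0 : ℝ, 1 ≤ R0 ∧ ∀ R : ℝ, R0 ≤ R →
    ∀ (ι : Type) (X : Finset ι) (D : ι → ℤ) (e f : ℕ → ℝ), Fam X D e f w R δ C A →
    ∀ a b : ℕ, R ^ d0 ≤ (b : ℝ) → (b : ℝ) ≤ R ^ A →
      ∑ x ∈ X, |VV w (D x) a b| ≤ K * X.card * b * R ^ (-κ) := by
  obtain ⟨η, K, hη, hK, hsq⟩ := sqp δ C A hδ hC hA
  set n : ℕ := ⌈(2 * A + η) / d0⌉₊ with hn
  set k : ℕ := 2 * (n + 1) with hk
  have hkpos : (0 : ℝ) < k := by
    have : 0 < k := by omega
    exact_mod_cast this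
  have hkd : 2 * A + η ≤ k * d0 := by
    have h1 : (2 * A + η) / d0 ≤ n := Nat.le_ceil _
    have h2 : (n : ℝ) ≤ k := by
      have : n ≤ k := by omega
      exact_mod_cast this
    rw [div_le_iff₀ hd0] at h1
    have h3 : (n : ℝ) * d0 ≤ k * d0 := mul_le_mul_of_nonneg_right h2 hd0.le
    linarith
  have hA0 : 0 < A := by linarith
  set ε : ℝ := η / (2 * A * k) with hε
  have hεpos : 0 < ε := by positivity
  obtain ⟨K1, hK1, htup⟩ := tup k ε hεpos
  set L : ℝ := K1 * (K + 4) with hL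
  have hL1 : 1 ≤ L := by
    have h1 : (1 : ℝ) ≤ K + 4 := by linarith
    calc (1 : ℝ) = 1 * 1 := by ring
      _ ≤ K1 * (K + 4) := mul_le_mul hK1 h1 (by norm_num) (by linarith)
  clear_value L
  refine ⟨η / (4 * k), L, by positivity, by linarith, ?_⟩
  intro w hw
  obtain ⟨R0, hR0, hR⟩ := hsq w hw
  refine ⟨R0, hR0, ?_⟩
  intro R hRR ι X D e f hF a b hb1 hb2
  have hR1 : 1 ≤ R := hR0.trans hRR
  have hRpos : 0 < R := by linarith
  have hpairs := hR R hRR ι X D e f hF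
  have hb : (1 : ℝ) ≤ b := (Real.one_le_rpow hR1 hd0.le).trans hb1
  have hbpos : (0 : ℝ) < b := by linarith
  set S : Finset ℕ := (Ioc a b).filter (Rg w) with hS
  have hSm : ∀ d ∈ S, 1 ≤ d ∧ Odd d ∧ d ≤ b := by
    intro d hd
    rw [hS, Finset.mem_filter, Finset.mem_Ioc] at hd
    exact ⟨by omega, hd.2.2.1, hd.1.2⟩
  have hScard : S.card ≤ b := by
    refine (Finset.card_filter_le _ _).trans ?_
    simp
  have hVV : ∀ x, VV w (D x) a b = ∑ d ∈ S, jj (D x) d := fun x => rfl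
  set M : ℕ := b ^ k with hM
  have hMr : (M : ℝ) = (b : ℝ) ^ k := by rw [hM]; push_cast; rfl
  have hMpos : (0 : ℝ) < M := by rw [hMr]; positivity
  have hMε : (M : ℝ) ^ ε ≤ R ^ (η / 2) := by
    have h1 : (M : ℝ) ≤ R ^ (A * k) := by
      rw [hMr, Real.rpow_mul hRpos.le, Real.rpow_natCast]
      exact pow_le_pow_left₀ hbpos.le hb2 k
    calc (M : ℝ) ^ ε ≤ (R ^ (A * k)) ^ ε := Real.rpow_le_rpow hMpos.le h1 hεpos.le
      _ = R ^ (η / 2) := by
        rw [← Real.rpow_mul hRpos.le]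
        congr 1
        rw [hε]
        field_simp
  have hMlow : R ^ (2 * A) ≤ M * R ^ (-η) := by
    have h1 : R ^ (2 * A + η) ≤ M := by
      calc R ^ (2 * A + η) ≤ R ^ (d0 * k) :=
            Real.rpow_le_rpow_of_exponent_le hR1 (by linarith [mul_comm (k : ℝ) d0])
        _ = (R ^ d0) ^ k := by rw [Real.rpow_mul hRpos.le, Real.rpow_natCast]
        _ ≤ (b : ℝ) ^ k := pow_le_pow_left₀ (by positivity) hb1 k
        _ = M := hMr.symm
    calc R ^ (2 * A) = R ^ (2 * A + η) * R ^ (-η) := by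
          rw [← Real.rpow_add hRpos]; congr 1; ring
      _ ≤ M * R ^ (-η) := mul_le_mul_of_nonneg_right h1 (by positivity)
  have hg := mom_gsq X D hF.odd (R ^ A) (by positivity) hF.le M
  have hRA2 : (R ^ A) ^ 2 = R ^ (2 * A) := by
    rw [← Real.rpow_natCast, ← Real.rpow_mul hRpos.le]
    congr 1
    push_cast
    ring
  have hg' : ∑ m ∈ (Icc 1 M).filter Odd, (∑ x ∈ X, jj (D x) m) ^ 2 ≤
      (K + 4) * (X.card : ℝ) ^ 2 * M * R ^ (-η) := by
    refine hg.trans ?_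
    rw [hRA2]
    have h1 : (((X ×ˢ X).filter (fun q => IsSquare (D q.1 * D q.2))).card : ℝ) * M ≤
        K * (X.card : ℝ) ^ 2 * R ^ (-η) * M := mul_le_mul_of_nonneg_right hpairs hMpos.le
    have h2 : (X.card : ℝ) ^ 2 * (4 * R ^ (2 * A)) ≤ (X.card : ℝ) ^ 2 * (4 * (M * R ^ (-η))) :=
      mul_le_mul_of_nonneg_left (by linarith) (by positivity)
    calc _ ≤ K * (X.card : ℝ) ^ 2 * R ^ (-η) * M + (X.card : ℝ) ^ 2 * (4 * (M * R ^ (-η))) :=
          add_le_add h1 h2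
      _ = _ := by ring
  have hc := mom_csq k ε K1 hεpos hK1 htup S b hScard
  have hexp := mom_expand X D S k b hSm
  set Sk : ℝ := ∑ x ∈ X, |VV w (D x) a b| ^ k with hSk
  have hSk' : Sk = ∑ x ∈ X, (∑ d ∈ S, jj (D x) d) ^ k := by
    rw [hSk]
    refine Finset.sum_congr rfl fun x _ => ?_
    rw [hVV]
    exact Even.pow_abs ⟨n + 1, by omega⟩ _
  have hSk0 : 0 ≤ Sk := Finset.sum_nonneg fun x _ => by positivity
  have hCS : Sk ^ 2 ≤ (K1 * (M : ℝ) ^ ε * M) * ((K + 4) * (X.card : ℝ) ^ 2 * M * R ^ (-η)) := by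
    rw [hSk', hexp]
    refine (Finset.sum_mul_sq_le_sq_mul_sq _ _ _).trans ?_
    exact mul_le_mul hc hg' (Finset.sum_nonneg fun m _ => by positivity) (by positivity)
  have hSkle : Sk ≤ L * X.card * M * R ^ (-(η / 4)) := by
    have h0 : 0 ≤ L * X.card * M * R ^ (-(η / 4)) := by positivity
    refine le_of_sq_le_sq ?_ h0
    refine hCS.trans ?_
    have h1 : R ^ (-η) * R ^ (η / 2) = (R ^ (-(η / 4))) ^ 2 := by
      rw [← Real.rpow_natCast, ← Real.rpow_mul hRpos.le, ← Real.rpow_add hRpos]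
      congr 1
      push_cast
      ring
    calc (K1 * (M : ℝ) ^ ε * M) * ((K + 4) * (X.card : ℝ) ^ 2 * M * R ^ (-η))
        = (L * ((X.card : ℝ) ^ 2 * M ^ 2 * R ^ (-η))) * (M : ℝ) ^ ε := by rw [hL]; ring
      _ ≤ (L * ((X.card : ℝ) ^ 2 * M ^ 2 * R ^ (-η))) * R ^ (η / 2) :=
          mul_le_mul_of_nonneg_left hMε (by positivity)
      _ = L * ((X.card : ℝ) ^ 2 * M ^ 2 * (R ^ (-η) * R ^ (η / 2))) := by ring
      _ = L * ((X.card : ℝ) ^ 2 * M ^ 2 * (R ^ (-(η / 4))) ^ 2) := by rw [h1]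
      _ ≤ (L * L) * ((X.card : ℝ) ^ 2 * M ^ 2 * (R ^ (-(η / 4))) ^ 2) := by
          refine mul_le_mul_of_nonneg_right ?_ (by positivity)
          nlinarith
      _ = (L * X.card * M * R ^ (-(η / 4))) ^ 2 := by ring
  rcases Finset.eq_empty_or_nonempty X with hX | hX
  · rw [hX]; simp
  have hcard : (0 : ℝ) < X.card := by exact_mod_cast Finset.card_pos.2 hX
  have hkk : k = (2 * n + 1) + 1 := by omega
  have hJ : (∑ x ∈ X, |VV w (D x) a b|) ^ k ≤ (X.card : ℝ) ^ (2 * n + 1) * Sk := by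
    have h1 := pow_sum_le_card_mul_sum_pow (s := X) (f := fun x => |VV w (D x) a b|)
      (fun x _ => abs_nonneg _) (2 * n + 1)
    rw [hSk, hkk]
    exact h1
  have hfin : (∑ x ∈ X, |VV w (D x) a b|) ^ k ≤ (L * X.card * b * R ^ (-(η / (4 * k)))) ^ k := by
    refine hJ.trans ?_
    have h1 : (R ^ (-(η / (4 * k)))) ^ k = R ^ (-(η / 4)) := by
      rw [← Real.rpow_natCast, ← Real.rpow_mul hRpos.le]
      congr 1
      field_simp
    calc (X.card : ℝ) ^ (2 * n + 1) * Sk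
        ≤ (X.card : ℝ) ^ (2 * n + 1) * (L * X.card * M * R ^ (-(η / 4))) :=
          mul_le_mul_of_nonneg_left hSkle (by positivity)
      _ = L * ((X.card : ℝ) ^ k * (b : ℝ) ^ k * R ^ (-(η / 4))) := by
          rw [hMr, hkk]; ring
      _ ≤ L ^ k * ((X.card : ℝ) ^ k * (b : ℝ) ^ k * R ^ (-(η / 4))) := by
          refine mul_le_mul_of_nonneg_right ?_ (by positivity)
          exact le_self_pow₀ hL1 (by omega)
      _ = (L * X.card * b * R ^ (-(η / (4 * k)))) ^ k := by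
          rw [mul_pow, mul_pow, mul_pow, h1]
          ring
  exact le_of_pow_le_pow_left₀ (by omega) (by positivity) hfin

theorem mom (δ C A d0 : ℝ) (hδ : 0 < δ) (hC : 0 ≤ C) (hA : 1 ≤ A) (hd0 : 0 < d0) : ∃ κ K : ℝ, 0 < κ ∧ 0 < K ∧
    ∀ w : ℝ, 2 ≤ w → ∃ R0 : ℝ, 1 ≤ R0 ∧ ∀ R : ℝ, R0 ≤ R →
    ∀ (ι : Type) (X : Finset ι) (D : ι → ℤ) (e f : ℕ → ℝ), Fam X D e f w R δ C A →
    ∀ a b : ℕ, R ^ d0 ≤ (b : ℝ) → (b : ℝ) ≤ R ^ A →
      ∑ x ∈ X, |VV w (D x) a b| ≤ K * X.card * b * R ^ (-κ) :=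
  mom_core δ C A d0 hδ hC hA hd0

end Pool.Agent.PP5LR
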