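import Pool.Agent.PP5LR.Nng
import Pool.Agent.PP5C.Crt

/-!
# Rts: the number of roots modulo `n` (difficulty 3)

`PP5C.nn_prod` (with `ι = Fin 1` or `Unit`) or `ZMod.chineseRemainder`: the number of roots is multiplicative; `rr_prod`.  For `p ^ k ∥ n`:
`(D/p) = -1`: the factor of `rr` is `0`.  `(D/p) = 1`: Hensel gives `s` with `s² = D` mod `p ^ k`, the roots `(B ± s)/2` mod `p ^ k` are
different (`p` odd, `p ∤ s`).
-/

set_option autoImplicit false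

namespace Pool.Agent.PP5LR

open Finset

private theorem Rts_sqrt {p : ℕ} (hp : p.Prime) (h2 : p ≠ 2) {D : ℤ} (hD : ¬ (p : ℤ) ∣ D)
    (h1 : jj D p = 1) (k : ℕ) : ∃ s : ℤ, (p : ℤ) ^ (k + 1) ∣ s ^ 2 - D ∧ ¬ (p : ℤ) ∣ s := by
  have : Fact p.Prime := ⟨hp⟩
  have hpZ : Prime (p : ℤ) := Nat.prime_iff_prime_int.1 hp
  have hns : ∀ s : ℤ, ∀ j : ℕ, (p : ℤ) ^ (j + 1) ∣ s ^ 2 - D → ¬ (p : ℤ) ∣ s := by
    intro s j hs hps
    apply hD
    have e1 : (p : ℤ) ∣ s ^ 2 - D := (dvd_pow_self (p : ℤ) (Nat.succ_ne_zero j)).trans hs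
    have e2 : (p : ℤ) ∣ s ^ 2 := dvd_pow hps two_ne_zero
    have e3 := dvd_sub e2 e1
    rwa [sub_sub_cancel] at e3
  induction k with
  | zero =>
    have e1 : jacobiSym D p = 1 := by
      unfold jj at h1
      exact_mod_cast h1
    rw [← jacobiSym.legendreSym.to_jacobiSym] at e1
    have e2 : ((D : ℤ) : ZMod p) ≠ 0 := fun h => hD ((ZMod.intCast_zmod_eq_zero_iff_dvd D p).1 h)
    obtain ⟨y, hy⟩ := (legendreSym.eq_one_iff p e2).1 e1
    obtain ⟨s, hs⟩ := ZMod.intCast_surjective y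
    have e3 : (p : ℤ) ^ (0 + 1) ∣ s ^ 2 - D := by
      rw [zero_add, pow_one, ← ZMod.intCast_zmod_eq_zero_iff_dvd]
      push_cast
      rw [hs, hy]
      ring
    exact ⟨s, e3, hns s 0 e3⟩
  | succ k ih =>
    obtain ⟨s, ⟨m, hm⟩, hps⟩ := ih
    have h2s : ¬ (p : ℤ) ∣ 2 * s := by
      intro h
      rcases hpZ.dvd_or_dvd h with h | h
      · have : p ∣ 2 := by exact_mod_cast h
        exact h2 ((Nat.prime_dvd_prime_iff_eq hp Nat.prime_two).1 this)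
      · exact hps h
    have hcop : IsCoprime (p : ℤ) (2 * s) := (Prime.coprime_iff_not_dvd hpZ).2 h2s
    obtain ⟨a, b, hab⟩ := hcop
    have e : (s + (-m * b) * (p : ℤ) ^ (k + 1)) ^ 2 - D
        = (p : ℤ) ^ (k + 1 + 1) * (m * a + (m * b) ^ 2 * (p : ℤ) ^ k) := by
      have e1 : (s + (-m * b) * (p : ℤ) ^ (k + 1)) ^ 2 - D
          = (s ^ 2 - D) - (b * (2 * s)) * m * (p : ℤ) ^ (k + 1)
            + (m * b) ^ 2 * ((p : ℤ) ^ (k + 1)) ^ 2 := by ring
      have e2 : b * (2 * s) = 1 - a * p := by linarith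
      rw [e1, hm, e2]
      ring
    have e3 : (p : ℤ) ^ (k + 1 + 1) ∣ (s + (-m * b) * (p : ℤ) ^ (k + 1)) ^ 2 - D := ⟨_, e⟩
    exact ⟨_, e3, hns _ _ e3⟩

private theorem Rts_root {n : ℕ} (hn : 0 < n) {B E s c : ℤ} (hc : (n : ℤ) ∣ 2 * c - 1)
    (hodd : Odd n) (hs : (n : ℤ) ∣ s ^ 2 - (B ^ 2 - 4 * E)) :
    ∃ r : ℕ, r < n ∧ (n : ℤ) ∣ (r : ℤ) ^ 2 - B * r + E ∧ (n : ℤ) ∣ 2 * r - (B + s) := by
  have hn0 : (0 : ℤ) < n := by exact_mod_cast hn
  have h0 : 0 ≤ ((B + s) * c) % (n : ℤ) := Int.emod_nonneg _ hn0.ne'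
  have h1 : ((B + s) * c) % (n : ℤ) < n := Int.emod_lt_of_pos _ hn0
  have e0 : ((((B + s) * c) % (n : ℤ)).toNat : ℤ) = ((B + s) * c) % (n : ℤ) := Int.toNat_of_nonneg h0
  have e1 : (n : ℤ) ∣ 2 * (((((B + s) * c) % (n : ℤ)).toNat : ℕ) : ℤ) - (B + s) := by
    rw [e0]
    have h2 := Int.emod_add_mul_ediv ((B + s) * c) (n : ℤ)
    obtain ⟨t, ht⟩ := hc
    refine ⟨(B + s) * t - 2 * ((B + s) * c / (n : ℤ)), ?_⟩
    linear_combination 2 * h2 + (B + s) * ht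
  refine ⟨(((B + s) * c) % (n : ℤ)).toNat, ?_, ?_, e1⟩
  · have : ((((B + s) * c) % (n : ℤ)).toNat : ℤ) < n := by rw [e0]; exact h1
    exact_mod_cast this
  · set r : ℤ := (((((B + s) * c) % (n : ℤ)).toNat : ℕ) : ℤ) with hr
    have h4 : (n : ℤ) ∣ 4 * (r ^ 2 - B * r + E) := by
      obtain ⟨u, hu⟩ := e1
      obtain ⟨v, hv⟩ := hs
      refine ⟨u * (2 * r - B + s) + v, ?_⟩
      linear_combination (2 * r - B + s) * hu + hv
    have hcop : IsCoprime (n : ℤ) 4 := by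
      have h5 : Nat.Coprime n 4 := by
        have h6 : Nat.Coprime n 2 := Nat.coprime_two_right.2 hodd
        have h7 : Nat.Coprime n (2 ^ 2) := Nat.Coprime.pow_right 2 h6
        exact h7
      have := Nat.isCoprime_iff_coprime.2 h5
      exact_mod_cast this
    exact hcop.dvd_of_dvd_mul_left h4

private theorem Rts_half {n : ℕ} (hodd : Odd n) : ∃ c : ℤ, (n : ℤ) ∣ 2 * c - 1 := by
  obtain ⟨k, hk⟩ := hodd
  refine ⟨k + 1, 1, ?_⟩
  rw [hk]
  push_cast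
  ring

private theorem Rts_pp {p k : ℕ} (hp : p.Prime) (h2 : p ≠ 2) {B E : ℤ}
    (hD : ¬ (p : ℤ) ∣ B ^ 2 - 4 * E) :
    1 + jj (B ^ 2 - 4 * E) p ≤
      (((range (p ^ (k + 1))).filter
        (fun r : ℕ => ((p ^ (k + 1) : ℕ) : ℤ) ∣ (r : ℤ) ^ 2 - B * r + E)).card : ℝ) := by
  classical
  have : Fact p.Prime := ⟨hp⟩
  have hodd : Odd (p ^ (k + 1)) := (hp.odd_of_ne_two h2).pow
  have hpos : 0 < p ^ (k + 1) := pow_pos hp.pos _
  have hj : jj (B ^ 2 - 4 * E) p = 1 ∨ jj (B ^ 2 - 4 * E) p = -1 := by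
    unfold jj
    rw [← jacobiSym.legendreSym.to_jacobiSym]
    have e2 : ((B ^ 2 - 4 * E : ℤ) : ZMod p) ≠ 0 := fun h =>
      hD ((ZMod.intCast_zmod_eq_zero_iff_dvd _ p).1 h)
    rcases legendreSym.eq_one_or_neg_one p e2 with h | h
    · left; rw [h]; norm_num
    · right; rw [h]; norm_num
  rcases hj with hj | hj
  · obtain ⟨s, hs, hps⟩ := Rts_sqrt hp h2 hD hj k
    obtain ⟨c, hc⟩ := Rts_half hodd
    have hs' : ((p ^ (k + 1) : ℕ) : ℤ) ∣ s ^ 2 - (B ^ 2 - 4 * E) := by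
      push_cast
      exact hs
    have hs'' : ((p ^ (k + 1) : ℕ) : ℤ) ∣ (-s) ^ 2 - (B ^ 2 - 4 * E) := by
      rw [neg_sq]
      exact hs'
    obtain ⟨r, hr1, hr2, hr3⟩ := Rts_root hpos hc hodd hs'
    obtain ⟨r', hr1', hr2', hr3'⟩ := Rts_root hpos hc hodd hs''
    have hne : r ≠ r' := by
      rintro rfl
      have e1 := dvd_sub hr3' hr3
      have e2 : (p : ℤ) ∣ 2 * (r : ℤ) - (B + -s) - (2 * (r : ℤ) - (B + s)) := by
        refine dvd_trans ?_ e1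
        push_cast
        exact dvd_pow_self _ (Nat.succ_ne_zero k)
      have e3 : (p : ℤ) ∣ 2 * s := by
        have e4 : 2 * (r : ℤ) - (B + -s) - (2 * (r : ℤ) - (B + s)) = 2 * s := by ring
        rwa [e4] at e2
      rcases (Nat.prime_iff_prime_int.1 hp).dvd_or_dvd e3 with h | h
      · have : p ∣ 2 := by exact_mod_cast h
        exact h2 ((Nat.prime_dvd_prime_iff_eq hp Nat.prime_two).1 this)
      · exact hps h
    have hcard : 2 ≤ ((range (p ^ (k + 1))).filter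
        (fun r : ℕ => ((p ^ (k + 1) : ℕ) : ℤ) ∣ (r : ℤ) ^ 2 - B * r + E)).card := by
      refine Finset.one_lt_card.2 ⟨r, ?_, r', ?_, hne⟩
      · exact Finset.mem_filter.2 ⟨Finset.mem_range.2 hr1, hr2⟩
      · exact Finset.mem_filter.2 ⟨Finset.mem_range.2 hr1', hr2'⟩
    rw [hj]
    have : (2 : ℝ) ≤ (((range (p ^ (k + 1))).filter
        (fun r : ℕ => ((p ^ (k + 1) : ℕ) : ℤ) ∣ (r : ℤ) ^ 2 - B * r + E)).card : ℝ) := by
      exact_mod_cast hcard
    linarith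
  · rw [hj]
    have : (0 : ℝ) ≤ (((range (p ^ (k + 1))).filter
        (fun r : ℕ => ((p ^ (k + 1) : ℕ) : ℤ) ∣ (r : ℤ) ^ 2 - B * r + E)).card : ℝ) :=
      Nat.cast_nonneg _
    linarith

private theorem Rts_mul {a b : ℕ} (ha : a ≠ 0) (hb : b ≠ 0) (hab : Nat.Coprime a b) (B E : ℤ) :
    ((range a).filter (fun r : ℕ => (a : ℤ) ∣ (r : ℤ) ^ 2 - B * r + E)).card
      * ((range b).filter (fun r : ℕ => (b : ℤ) ∣ (r : ℤ) ^ 2 - B * r + E)).card
      ≤ ((range (a * b)).filter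
        (fun r : ℕ => ((a * b : ℕ) : ℤ) ∣ (r : ℤ) ^ 2 - B * r + E)).card := by
  classical
  rw [← Finset.card_product]
  have key : ∀ {n : ℕ} {x y : ℕ}, y ≡ x [MOD n] → (n : ℤ) ∣ (x : ℤ) ^ 2 - B * x + E →
      (n : ℤ) ∣ (y : ℤ) ^ 2 - B * y + E := by
    intro n x y hxy hx
    have h1 : (n : ℤ) ∣ (x : ℤ) - y := hxy.dvd
    have h2 : (y : ℤ) ^ 2 - B * y + E
        = ((x : ℤ) ^ 2 - B * x + E) - ((x : ℤ) - y) * (x + y - B) := by ring
    rw [h2]
    exact dvd_sub hx (h1.mul_right _)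
  refine Finset.card_le_card_of_injOn
    (fun q => (Nat.chineseRemainder hab q.1 q.2 : ℕ)) ?_ ?_
  · intro q hq
    simp only [Finset.coe_product, Set.mem_prod, Finset.mem_coe, Finset.mem_filter,
      Finset.mem_range] at hq
    simp only [Finset.coe_filter, Finset.mem_range, Set.mem_ofPred_eq]
    refine ⟨Nat.chineseRemainder_lt_mul hab _ _ ha hb, ?_⟩
    have h1 := key (Nat.chineseRemainder hab q.1 q.2).2.1 hq.1.2
    have h2 := key (Nat.chineseRemainder hab q.1 q.2).2.2 hq.2.2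
    have hcop : IsCoprime (a : ℤ) (b : ℤ) := Nat.isCoprime_iff_coprime.2 hab
    push_cast
    exact hcop.mul_dvd h1 h2
  · intro q hq q' hq' hqq
    simp only [Finset.coe_product, Set.mem_prod, Finset.mem_coe, Finset.mem_filter,
      Finset.mem_range] at hq hq'
    have hqq : (Nat.chineseRemainder hab q.1 q.2 : ℕ) = (Nat.chineseRemainder hab q'.1 q'.2 : ℕ) :=
      hqq
    have h1 := (Nat.chineseRemainder hab q.1 q.2).2.1
    have h2 := (Nat.chineseRemainder hab q.1 q.2).2.2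
    have h1' := (Nat.chineseRemainder hab q'.1 q'.2).2.1
    have h2' := (Nat.chineseRemainder hab q'.1 q'.2).2.2
    rw [← hqq] at h1' h2'
    refine Prod.ext ?_ ?_
    · exact (h1.symm.trans h1').eq_of_lt_of_lt hq.1.1 hq'.1.1
    · exact (h2.symm.trans h2').eq_of_lt_of_lt hq.2.1 hq'.2.1

private theorem Rts_main (B E : ℤ) (n : ℕ) : Odd n → Int.gcd (B ^ 2 - 4 * E) n = 1 →
    ∏ p ∈ n.primeFactors, (1 + jj (B ^ 2 - 4 * E) p) ≤
      (((range n).filter (fun r : ℕ => (n : ℤ) ∣ (r : ℤ) ^ 2 - B * r + E)).card : ℝ) := by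
  classical
  induction n using Nat.recOnPosPrimePosCoprime with
  | prime_pow p k hp hk =>
    intro hodd hD
    obtain ⟨k, rfl⟩ : ∃ k', k = k' + 1 := ⟨k - 1, by omega⟩
    rw [Nat.primeFactors_prime_pow (Nat.succ_ne_zero k) hp, Finset.prod_singleton]
    have h2 : p ≠ 2 := by
      rintro rfl
      have := hodd.of_dvd_nat (dvd_pow_self 2 (Nat.succ_ne_zero k))
      exact absurd this (by decide)
    refine Rts_pp hp h2 ?_
    intro hdv
    have h3 : (p : ℤ) ∣ ((p ^ (k + 1) : ℕ) : ℤ) := by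
      push_cast
      exact dvd_pow_self _ (Nat.succ_ne_zero k)
    have h4 : (p : ℤ) ∣ Int.gcd (B ^ 2 - 4 * E) ((p ^ (k + 1) : ℕ) : ℤ) :=
      Int.dvd_coe_gcd hdv h3
    rw [hD] at h4
    have h5 : p ∣ 1 := by exact_mod_cast h4
    exact hp.one_lt.ne' (Nat.dvd_one.1 h5)
  | zero => intro h; exact absurd h (by decide)
  | one =>
    intro _ _
    simp
  | coprime a b ha hb hab iha ihb =>
    intro hodd hD
    have hoa : Odd a := hodd.of_dvd_nat (dvd_mul_right a b)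
    have hob : Odd b := hodd.of_dvd_nat (dvd_mul_left b a)
    have hsub : ∀ c : ℕ, c ∣ a * b → Int.gcd (B ^ 2 - 4 * E) c = 1 := by
      intro c hc
      have h3 : (Int.gcd (B ^ 2 - 4 * E) (c : ℤ) : ℤ) ∣
          Int.gcd (B ^ 2 - 4 * E) ((a * b : ℕ) : ℤ) :=
        Int.dvd_coe_gcd (Int.gcd_dvd_left _ _)
          ((Int.gcd_dvd_right _ _).trans (by exact_mod_cast hc))
      rw [hD] at h3
      have h4 : Int.gcd (B ^ 2 - 4 * E) (c : ℤ) ∣ 1 := by exact_mod_cast h3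
      exact Nat.dvd_one.1 h4
    have h1 := iha hoa (hsub a (dvd_mul_right a b))
    have h2 := ihb hob (hsub b (dvd_mul_left b a))
    rw [hab.primeFactors_mul, Finset.prod_union hab.disjoint_primeFactors]
    have h3 := Rts_mul (by omega) (by omega) hab B E
    have hnn : ∀ m : ℕ, 0 ≤ ∏ p ∈ m.primeFactors, (1 + jj (B ^ 2 - 4 * E) p) := by
      intro m
      refine Finset.prod_nonneg fun p _ => ?_
      have := jj_abs (B ^ 2 - 4 * E) p
      rw [abs_le] at this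
      linarith [this.1]
    calc _ ≤ (((range a).filter (fun r : ℕ => (a : ℤ) ∣ (r : ℤ) ^ 2 - B * r + E)).card : ℝ)
          * (((range b).filter (fun r : ℕ => (b : ℤ) ∣ (r : ℤ) ^ 2 - B * r + E)).card : ℝ) :=
          mul_le_mul h1 h2 (hnn b) (Nat.cast_nonneg _)
      _ ≤ _ := by exact_mod_cast h3

open Classical in
theorem rts (B E : ℤ) (n : ℕ) (hn : Odd n) (hD : Int.gcd (B ^ 2 - 4 * E) n = 1) :
    rr (B ^ 2 - 4 * E) n ≤ (((range n).filter (fun r : ℕ => (n : ℤ) ∣ (r : ℤ) ^ 2 - B * r + E)).card : ℝ) := by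
  have hn0 : n ≠ 0 := by
    rintro rfl
    exact absurd hn (by decide)
  rw [rr_prod _ hn0]
  have h := Rts_main B E n hn hD
  convert h using 2

end Pool.Agent.PP5LR
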