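import Pool.Agent.PP5LR.Nng

/-!
# Sqp: pairs with `D(x) D(x')` a square (difficulty 4)

`Q` := the primes in `(w, R ^ (δ/2)]`, `π := #Q ≥ R ^ (δ/4) / 2` for `R ≥ R0` (`Chebyshev.psi_ge`, `psi_le_primeCounting_mul_log`).
`∑_{x, x'} (∑_{p ∈ Q} jj (D x) p * jj (D x') p) ^ 2 = ∑_{p, p'} (∑_x jj (D x) p * jj (D x) p') ^ 2`; `p = p'`: `≤ |X| ^ 2`; `p ≠ p'`: `mean`
with `m = p p'`, `g = 1`: `≤ |X| ^ 2 (C² / (p p') + R ^ (-δ)) ^ 2`; total `≤ |X| ^ 2 (π + 2 C ^ 4 + 2)`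
(`∑ 1/p² ≤ 1`, `(a+b)² ≤ 2a² + 2b²`, `π² ≤ R ^ δ`).
A square pair: `D D' = s²`, odd, so `jj D p * jj D' p = jj (D D') p = 1` for `p ∤ D D'`, `= 0` otherwise; the number of primes dividing
`D D' ≠ 0` is `≤ log |D D'| / log 2 ≤ 4 A log R ≤ π / 2`.  So `#pairs (π/2) ^ 2 ≤ |X| ^ 2 (π + 2 C ^ 4 + 2)`.
-/

set_option autoImplicit false

namespace Pool.Agent.PP5LR

open Finset

open Classical in
private noncomputable def sqpQ (w P : ℝ) : Finset ℕ :=
  (Icc 1 ⌊P⌋₊).filter (fun p : ℕ => p.Prime ∧ w < (p : ℝ))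

private theorem sqp_pi (w : ℝ) : ∃ u0 : ℝ, 1 ≤ u0 ∧ ∀ u : ℝ, u0 ≤ u →
    u ^ 2 ≤ ((sqpQ w (u ^ 4)).card : ℝ) := by
  classical
  set B : ℝ := (⌊w⌋₊ : ℝ) + 1 with hB
  have hB0 : 0 ≤ B := by positivity
  refine ⟨16 + B, by linarith, fun u hu => ?_⟩
  have hu16 : 16 ≤ u := by linarith
  have hu0 : 0 < u := by linarith
  have hP1 : 1 < u ^ 4 := one_lt_pow₀ (by linarith) (by norm_num)
  have h1 := Chebyshev.pi_ge' hP1
  -- the count
  have h2 : Nat.primeCounting ⌊u ^ 4⌋₊ ≤ (sqpQ w (u ^ 4)).card + (⌊w⌋₊ + 1) := by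
    rw [Nat.primeCounting, Nat.primeCounting', Nat.count_eq_card_filter_range]
    calc ((range (⌊u ^ 4⌋₊ + 1)).filter Nat.Prime).card
        ≤ (sqpQ w (u ^ 4) ∪ range (⌊w⌋₊ + 1)).card := by
          refine Finset.card_le_card fun p hp => ?_
          rw [Finset.mem_filter, Finset.mem_range] at hp
          rw [Finset.mem_union]
          by_cases hw : w < (p : ℝ)
          · left
            rw [sqpQ, Finset.mem_filter, Finset.mem_Icc]
            exact ⟨⟨hp.2.one_lt.le, by omega⟩, hp.2, hw⟩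
          · right
            rw [Finset.mem_range]
            have := Nat.le_floor (not_lt.1 hw)
            omega
      _ ≤ _ := by
          refine (Finset.card_union_le _ _).trans ?_
          rw [Finset.card_range]
  have h3 : (Nat.primeCounting ⌊u ^ 4⌋₊ : ℝ) ≤ ((sqpQ w (u ^ 4)).card : ℝ) + B := by
    rw [hB]; exact_mod_cast h2
  -- the logarithms
  have hl1 : Real.log (u ^ 4) ≤ 4 * u := by
    rw [Real.log_pow]
    have := Real.log_le_sub_one_of_pos hu0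
    push_cast
    linarith
  have hl2 : Real.log (u ^ 4 + 2) ≤ 2 + 4 * u := by
    have e1 : Real.log (u ^ 4 + 2) ≤ Real.log (3 * u ^ 4) :=
      Real.log_le_log (by positivity) (by linarith)
    rw [Real.log_mul (by norm_num) (by positivity)] at e1
    have e2 : Real.log 3 ≤ 2 := by
      have := Real.log_le_sub_one_of_pos (show (0 : ℝ) < 3 by norm_num)
      linarith
    linarith
  have hl3 : (1 : ℝ) / 2 ≤ Real.log 2 := by have := Real.log_two_gt_d9; linarith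
  have hlpos : 0 < Real.log (u ^ 4) := Real.log_pos hP1
  have h4 : (u ^ 2 + B) * Real.log (u ^ 4) ≤ (u ^ 4 - 1) * Real.log 2 - Real.log (u ^ 4 + 2) := by
    have e1 : (u ^ 2 + B) * Real.log (u ^ 4) ≤ (u ^ 2 + B) * (4 * u) :=
      mul_le_mul_of_nonneg_left hl1 (by positivity)
    have e2 : (u ^ 4 - 1) * (1 / 2) ≤ (u ^ 4 - 1) * Real.log 2 :=
      mul_le_mul_of_nonneg_left hl3 (by linarith)
    have e3 : (u ^ 2 + B) * (4 * u) ≤ (u ^ 4 - 1) * (1 / 2) - (2 + 4 * u) := by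
      have f1 : (16 + B) * u ^ 3 ≤ u * u ^ 3 := mul_le_mul_of_nonneg_right hu (by positivity)
      have f2 : 16 ^ 2 ≤ u ^ 2 := pow_le_pow_left₀ (by norm_num) hu16 2
      have f3 : 16 ^ 2 * u ≤ u ^ 2 * u := mul_le_mul_of_nonneg_right f2 hu0.le
      have f4 : B * (16 ^ 2 * u) ≤ B * (u ^ 2 * u) := mul_le_mul_of_nonneg_left f3 hB0
      have f5 : 0 ≤ B * u := by positivity
      linarith
    linarith
  have h5 : u ^ 2 + B ≤ ((u ^ 4 - 1) * Real.log 2 - Real.log (u ^ 4 + 2)) / Real.log (u ^ 4) := by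
    rw [le_div_iff₀ hlpos]; exact h4
  linarith

private theorem sqp_inv (w P : ℝ) : ∑ p ∈ sqpQ w P, 1 / (p : ℝ) ^ 2 ≤ 1 := by
  classical
  by_cases hN : 1 ≤ ⌊P⌋₊
  · calc ∑ p ∈ sqpQ w P, 1 / (p : ℝ) ^ 2 ≤ ∑ p ∈ Ioc 1 ⌊P⌋₊, ((p : ℝ) ^ 2)⁻¹ := by
          simp_rw [one_div]
          refine Finset.sum_le_sum_of_subset_of_nonneg ?_ fun _ _ _ => by positivity
          intro p hp
          rw [sqpQ, Finset.mem_filter, Finset.mem_Icc] at hp
          rw [Finset.mem_Ioc]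
          exact ⟨hp.2.1.one_lt, hp.1.2⟩
      _ ≤ ((1 : ℕ) : ℝ)⁻¹ - ((⌊P⌋₊ : ℕ) : ℝ)⁻¹ := sum_Ioc_inv_sq_le_sub one_ne_zero hN
      _ ≤ 1 := by
          have : (0 : ℝ) ≤ ((⌊P⌋₊ : ℕ) : ℝ)⁻¹ := by positivity
          simp only [Nat.cast_one, inv_one]
          linarith
  · have : sqpQ w P = ∅ := by
      rw [sqpQ, Finset.Icc_eq_empty (by omega)]; rfl
    rw [this]; simp

private theorem sqp_dvd (w P : ℝ) {n : ℕ} (hn : n ≠ 0) :
    (((sqpQ w P).filter (fun p => p ∣ n)).card : ℝ) ≤ 2 * Real.log n := by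
  classical
  have h1 : (sqpQ w P).filter (fun p => p ∣ n) ⊆ n.primeFactors := by
    intro p hp
    rw [Finset.mem_filter, sqpQ, Finset.mem_filter] at hp
    exact Nat.mem_primeFactors.2 ⟨hp.1.2.1, hp.2, hn⟩
  have h2 : 2 ^ n.primeFactors.card ≤ n := by
    calc 2 ^ n.primeFactors.card ≤ ∏ p ∈ n.primeFactors, p :=
          Finset.pow_card_le_prod _ _ _ fun p hp => (Nat.prime_of_mem_primeFactors hp).two_le
      _ ≤ n := Nat.le_of_dvd (Nat.pos_of_ne_zero hn) (Nat.prod_primeFactors_dvd n)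
  have h3 : (((sqpQ w P).filter (fun p => p ∣ n)).card : ℝ) ≤ n.primeFactors.card := by
    exact_mod_cast Finset.card_le_card h1
  have h4 : (n.primeFactors.card : ℝ) * Real.log 2 ≤ Real.log n := by
    rw [← Real.log_pow]
    exact Real.log_le_log (by positivity) (by exact_mod_cast h2)
  have hl3 : (1 : ℝ) / 2 ≤ Real.log 2 := by have := Real.log_two_gt_d9; linarith
  have h5 : (n.primeFactors.card : ℝ) * (1 / 2) ≤ (n.primeFactors.card : ℝ) * Real.log 2 :=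
    mul_le_mul_of_nonneg_left hl3 (by positivity)
  linarith

private theorem sqp_dc {ι : Type} (X : Finset ι) (Q : Finset ℕ) (a : ℕ → ι → ℝ) :
    ∑ x ∈ X, ∑ x' ∈ X, (∑ p ∈ Q, a p x * a p x') ^ 2 =
      ∑ p ∈ Q, ∑ p' ∈ Q, (∑ x ∈ X, a p x * a p' x) ^ 2 := by
  simp_rw [pow_two, Finset.sum_mul_sum]
  calc ∑ x ∈ X, ∑ x' ∈ X, ∑ p ∈ Q, ∑ p' ∈ Q, a p x * a p x' * (a p' x * a p' x')
      = ∑ x ∈ X, ∑ p ∈ Q, ∑ x' ∈ X, ∑ p' ∈ Q, a p x * a p x' * (a p' x * a p' x') :=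
        Finset.sum_congr rfl fun x _ => Finset.sum_comm
    _ = ∑ p ∈ Q, ∑ x ∈ X, ∑ x' ∈ X, ∑ p' ∈ Q, a p x * a p x' * (a p' x * a p' x') := Finset.sum_comm
    _ = ∑ p ∈ Q, ∑ x ∈ X, ∑ p' ∈ Q, ∑ x' ∈ X, a p x * a p x' * (a p' x * a p' x') :=
        Finset.sum_congr rfl fun p _ => Finset.sum_congr rfl fun x _ => Finset.sum_comm
    _ = ∑ p ∈ Q, ∑ p' ∈ Q, ∑ x ∈ X, ∑ x' ∈ X, a p x * a p x' * (a p' x * a p' x') :=
        Finset.sum_congr rfl fun p _ => Finset.sum_comm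
    _ = ∑ p ∈ Q, ∑ p' ∈ Q, ∑ x ∈ X, ∑ x' ∈ X, a p x * a p' x * (a p x' * a p' x') := by
        refine Finset.sum_congr rfl fun p _ => Finset.sum_congr rfl fun p' _ =>
          Finset.sum_congr rfl fun x _ => Finset.sum_congr rfl fun x' _ => ?_
        ring

open Classical in
theorem sqp (δ C A : ℝ) (hδ : 0 < δ) (hC : 0 ≤ C) (hA : 1 ≤ A) : ∃ η K : ℝ, 0 < η ∧ 0 < K ∧
    ∀ w : ℝ, 2 ≤ w → ∃ R0 : ℝ, 1 ≤ R0 ∧ ∀ R : ℝ, R0 ≤ R →
    ∀ (ι : Type) (X : Finset ι) (D : ι → ℤ) (e f : ℕ → ℝ), Fam X D e f w R δ C A →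
    (((X ×ˢ X).filter (fun q => IsSquare (D q.1 * D q.2))).card : ℝ) ≤ K * (X.card : ℝ) ^ 2 * R ^ (-η) := by
  refine ⟨δ / 4, 12 + 8 * C ^ 4, by positivity, by positivity, fun w hw => ?_⟩
  obtain ⟨u0, hu01, hu0⟩ := sqp_pi w
  set M : ℝ := max u0 (64 * A / δ) with hM
  have hM1 : 1 ≤ M := hu01.trans (le_max_left _ _)
  refine ⟨M ^ (8 / δ), Real.one_le_rpow hM1 (by positivity), fun R hR ι X D e f hF => ?_⟩
  have hR1 : 1 ≤ R := (Real.one_le_rpow hM1 (by positivity)).trans hR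
  have hR0 : 0 < R := by linarith
  set u : ℝ := R ^ (δ / 8) with hu
  have hMu : M ≤ u := by
    have h1 : (M ^ (8 / δ)) ^ (δ / 8) ≤ R ^ (δ / 8) :=
      Real.rpow_le_rpow (by positivity) hR (by positivity)
    rw [← Real.rpow_mul (by linarith), show 8 / δ * (δ / 8) = 1 by field_simp, Real.rpow_one] at h1
    exact h1
  have hu1 : 1 ≤ u := hM1.trans hMu
  have hupos : 0 < u := by linarith
  have hu8 : u ^ 8 = R ^ δ := by
    rw [hu, ← Real.rpow_natCast, ← Real.rpow_mul hR0.le]; congr 1; push_cast; ring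
  have hu2 : u ^ 2 = R ^ (δ / 4) := by
    rw [hu, ← Real.rpow_natCast, ← Real.rpow_mul hR0.le]; congr 1; push_cast; ring
  have hRd : R ^ (-δ) = (u ^ 8)⁻¹ := by rw [hu8, Real.rpow_neg hR0.le]
  set Q : Finset ℕ := sqpQ w (u ^ 4) with hQ
  have hpi : u ^ 2 ≤ (Q.card : ℝ) := hu0 u ((le_max_left _ _).trans hMu)
  have hQmem : ∀ p ∈ Q, p.Prime ∧ w < (p : ℝ) ∧ (p : ℝ) ≤ u ^ 4 := by
    intro p hp
    rw [hQ, sqpQ, Finset.mem_filter, Finset.mem_Icc] at hp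
    exact ⟨hp.2.1, hp.2.2, (Nat.le_floor_iff (by positivity)).1 hp.1.2⟩
  have hQcard : (Q.card : ℝ) ≤ u ^ 4 := by
    have h1 : Q.card ≤ ⌊u ^ 4⌋₊ := by
      rw [hQ, sqpQ]
      refine (Finset.card_filter_le _ _).trans ?_
      rw [Nat.card_Icc]; omega
    calc (Q.card : ℝ) ≤ (⌊u ^ 4⌋₊ : ℝ) := by exact_mod_cast h1
      _ ≤ u ^ 4 := Nat.floor_le (by positivity)
  set a : ℕ → ι → ℝ := fun p x => jj (D x) p with ha
  have ha1 : ∀ p x, |a p x| ≤ 1 := fun p x => jj_abs _ _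
  -- the mean over `x`
  have hdiag : ∀ p p' : ℕ, |∑ x ∈ X, a p x * a p' x| ≤ X.card := by
    intro p p'
    refine (Finset.abs_sum_le_sum_abs _ _).trans ?_
    rw [Finset.card_eq_sum_ones]
    push_cast
    refine Finset.sum_le_sum fun x _ => ?_
    rw [abs_mul]
    exact mul_le_one₀ (ha1 p x) (abs_nonneg _) (ha1 p' x)
  have hoff : ∀ p ∈ Q, ∀ p' ∈ Q, p ≠ p' →
      |∑ x ∈ X, a p x * a p' x| ≤ X.card * (C ^ 2 / (p * p') + (u ^ 8)⁻¹) := by
    intro p hp p' hp' hne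
    obtain ⟨hpp, hwp, hpu⟩ := hQmem p hp
    obtain ⟨hpp', hwp', hpu'⟩ := hQmem p' hp'
    have hcop : Nat.Coprime p p' := (Nat.coprime_primes hpp hpp').2 hne
    have hodd : ∀ q : ℕ, q.Prime → w < (q : ℝ) → Odd q := by
      intro q hq hwq
      refine hq.odd_of_ne_two ?_
      rintro rfl
      push_cast at hwq
      linarith
    have hm : Rg w (p * p') := by
      refine ⟨?_, (hodd p hpp hwp).mul (hodd p' hpp' hwp'), ?_⟩
      · rw [Nat.squarefree_mul hcop]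
        exact ⟨hpp.squarefree, hpp'.squarefree⟩
      · intro q hq hqd
        rcases (Nat.Prime.dvd_mul hq).1 hqd with h | h
        · rw [(Nat.prime_dvd_prime_iff_eq hq hpp).1 h]; exact hwp
        · rw [(Nat.prime_dvd_prime_iff_eq hq hpp').1 h]; exact hwp'
    have hg : Rg w 1 := ⟨squarefree_one, odd_one, fun q hq hqd => absurd (Nat.dvd_one.1 hqd) hq.one_lt.ne'⟩
    have hle : ((p * p' * 1 : ℕ) : ℝ) ≤ R ^ δ := by
      rw [← hu8]
      push_cast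
      calc (p : ℝ) * p' * 1 ≤ u ^ 4 * u ^ 4 * 1 := by gcongr
        _ = u ^ 8 := by ring
    have hmean := hF.mean (p * p') 1 hm hg (Nat.coprime_one_right _) hle
    have hpf : (p * p').primeFactors = {p, p'} := by
      rw [Nat.primeFactors_mul hpp.ne_zero hpp'.ne_zero, hpp.primeFactors, hpp'.primeFactors]
      rfl
    have hpp0 : (0 : ℝ) < p := by exact_mod_cast hpp.pos
    have hpp0' : (0 : ℝ) < p' := by exact_mod_cast hpp'.pos
    have e1 : ∑ x ∈ X, (if Int.gcd (D x) (1 : ℕ) = 1 then jj (D x) (p * p') else 0) = ∑ x ∈ X, a p x * a p' x := by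
      refine Finset.sum_congr rfl fun x _ => ?_
      rw [if_pos (by simp), jj_mul _ hpp.ne_zero hpp'.ne_zero]
    rw [e1, hpf, Finset.prod_pair hne, hRd] at hmean
    simp only [Nat.primeFactors_one, Finset.prod_empty, mul_one] at hmean
    have e2 : |(X.card : ℝ) * (e p * e p')| ≤ X.card * (C ^ 2 / (p * p')) := by
      rw [abs_mul, abs_of_nonneg (by positivity : (0 : ℝ) ≤ X.card), abs_mul]
      refine mul_le_mul_of_nonneg_left ?_ (by positivity)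
      calc |e p| * |e p'| ≤ (C / p) * (C / p') :=
            mul_le_mul (hF.ea p hpp hwp) (hF.ea p' hpp' hwp') (abs_nonneg _) (by positivity)
        _ = C ^ 2 / (p * p') := by field_simp
    have e3 := abs_sub_abs_le_abs_sub (∑ x ∈ X, a p x * a p' x) ((X.card : ℝ) * (e p * e p'))
    rw [mul_add]
    linarith
  -- the upper bound
  have hterm : ∀ p ∈ Q, ∀ p' ∈ Q, (∑ x ∈ X, a p x * a p' x) ^ 2 ≤
      (X.card : ℝ) ^ 2 * ((if p = p' then 1 else 0) + 2 * C ^ 4 * (1 / (p : ℝ) ^ 2 * (1 / (p' : ℝ) ^ 2)) +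
        2 * ((u ^ 8)⁻¹) ^ 2) := by
    intro p hp p' hp'
    have hX : (0 : ℝ) ≤ X.card := by positivity
    by_cases hne : p = p'
    · rw [if_pos hne]
      have h1 : (∑ x ∈ X, a p x * a p' x) ^ 2 ≤ (X.card : ℝ) ^ 2 := by
        rw [← sq_abs]
        exact pow_le_pow_left₀ (abs_nonneg _) (hdiag p p') 2
      have h2 : 0 ≤ 2 * C ^ 4 * (1 / (p : ℝ) ^ 2 * (1 / (p' : ℝ) ^ 2)) + 2 * ((u ^ 8)⁻¹) ^ 2 := by positivity
      nlinarith [sq_nonneg (X.card : ℝ)]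
    · rw [if_neg hne]
      have h1 := hoff p hp p' hp' hne
      have h2 : (∑ x ∈ X, a p x * a p' x) ^ 2 ≤ (X.card * (C ^ 2 / (p * p') + (u ^ 8)⁻¹)) ^ 2 := by
        rw [← sq_abs]
        exact pow_le_pow_left₀ (abs_nonneg _) h1 2
      refine h2.trans ?_
      rw [mul_pow]
      refine mul_le_mul_of_nonneg_left ?_ (by positivity)
      have h3 : (C ^ 2 / ((p : ℝ) * p')) ^ 2 = C ^ 4 * (1 / (p : ℝ) ^ 2 * (1 / (p' : ℝ) ^ 2)) := by
        rw [div_pow, mul_pow, one_div_mul_one_div, mul_one_div]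
        ring
      linarith [sq_nonneg (C ^ 2 / ((p : ℝ) * p') - (u ^ 8)⁻¹)]
  have hup : ∑ p ∈ Q, ∑ p' ∈ Q, (∑ x ∈ X, a p x * a p' x) ^ 2 ≤
      (X.card : ℝ) ^ 2 * (Q.card + 2 * C ^ 4 + 2) := by
    have h1 : ∑ p ∈ Q, ∑ p' ∈ Q, (∑ x ∈ X, a p x * a p' x) ^ 2 ≤ ∑ p ∈ Q, ∑ p' ∈ Q,
        (X.card : ℝ) ^ 2 * ((if p = p' then 1 else 0) + 2 * C ^ 4 * (1 / (p : ℝ) ^ 2 * (1 / (p' : ℝ) ^ 2)) +
        2 * ((u ^ 8)⁻¹) ^ 2) :=
      Finset.sum_le_sum fun p hp => Finset.sum_le_sum fun p' hp' => hterm p hp p' hp'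
    refine h1.trans ?_
    simp_rw [← Finset.mul_sum]
    refine mul_le_mul_of_nonneg_left ?_ (by positivity)
    simp_rw [Finset.sum_add_distrib]
    have e1 : ∑ p ∈ Q, ∑ p' ∈ Q, (if p = p' then (1 : ℝ) else 0) = Q.card := by
      rw [Finset.card_eq_sum_ones]
      push_cast
      refine Finset.sum_congr rfl fun p hp => ?_
      rw [Finset.sum_ite_eq, if_pos hp]
    have e2 : ∑ p ∈ Q, ∑ p' ∈ Q, 2 * C ^ 4 * (1 / (p : ℝ) ^ 2 * (1 / (p' : ℝ) ^ 2)) ≤ 2 * C ^ 4 := by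
      have f0 : ∑ p ∈ Q, ∑ p' ∈ Q, 2 * C ^ 4 * (1 / (p : ℝ) ^ 2 * (1 / (p' : ℝ) ^ 2)) =
          2 * C ^ 4 * ((∑ p ∈ Q, 1 / (p : ℝ) ^ 2) * ∑ p' ∈ Q, 1 / (p' : ℝ) ^ 2) := by
        rw [Finset.sum_mul_sum, Finset.mul_sum]
        refine Finset.sum_congr rfl fun p _ => ?_
        rw [Finset.mul_sum]
      rw [f0]
      have f1 := sqp_inv w (u ^ 4)
      rw [← hQ] at f1
      have f2 : 0 ≤ ∑ p ∈ Q, 1 / (p : ℝ) ^ 2 := Finset.sum_nonneg fun _ _ => by positivity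
      have f3 : (∑ p ∈ Q, 1 / (p : ℝ) ^ 2) * ∑ p' ∈ Q, 1 / (p' : ℝ) ^ 2 ≤ 1 := mul_le_one₀ f1 f2 f1
      have f4 : 0 ≤ 2 * C ^ 4 := by positivity
      nlinarith
    have e3 : ∑ p ∈ Q, ∑ p' ∈ Q, 2 * ((u ^ 8)⁻¹) ^ 2 ≤ 2 := by
      rw [Finset.sum_const, Finset.sum_const, nsmul_eq_mul, nsmul_eq_mul]
      have f1 : (Q.card : ℝ) * (Q.card * (2 * ((u ^ 8)⁻¹) ^ 2)) ≤ u ^ 4 * (u ^ 4 * (2 * ((u ^ 8)⁻¹) ^ 2)) := by
        gcongr
      have f2 : u ^ 4 * (u ^ 4 * (2 * ((u ^ 8)⁻¹) ^ 2)) = 2 * (u ^ 8)⁻¹ := by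
        field_simp
      have f3 : (u ^ 8)⁻¹ ≤ 1 := inv_le_one_of_one_le₀ (one_le_pow₀ hu1)
      linarith
    rw [e1]
    linarith
  -- the lower bound
  set PP := (X ×ˢ X).filter (fun q => IsSquare (D q.1 * D q.2)) with hPP
  have hpair : ∀ q ∈ PP, (Q.card : ℝ) / 2 ≤ ∑ p ∈ Q, a p q.1 * a p q.2 := by
    intro q hq
    rw [hPP, Finset.mem_filter, Finset.mem_product] at hq
    obtain ⟨⟨hq1, hq2⟩, s, hs⟩ := hq
    have ho1 := hF.odd _ hq1
    have ho2 := hF.odd _ hq2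
    have hne1 : D q.1 ≠ 0 := by intro h; rw [h] at ho1; exact absurd ho1 (by decide)
    have hne2 : D q.2 ≠ 0 := by intro h; rw [h] at ho2; exact absurd ho2 (by decide)
    have hne : D q.1 * D q.2 ≠ 0 := mul_ne_zero hne1 hne2
    set n : ℕ := (D q.1 * D q.2).natAbs with hn
    have hn0 : n ≠ 0 := Int.natAbs_ne_zero.2 hne
    have hterm1 : ∀ p ∈ Q, (1 : ℝ) - (if p ∣ n then 1 else 0) ≤ a p q.1 * a p q.2 := by
      intro p hp
      obtain ⟨hpp, hwp, hpu⟩ := hQmem p hp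
      have e1 : a p q.1 * a p q.2 = (jacobiSym s p : ℝ) ^ 2 := by
        simp only [ha, jj]
        rw [← Int.cast_mul, ← jacobiSym.mul_left, hs, jacobiSym.mul_left]
        push_cast; ring
      rw [e1]
      split_ifs with hd
      · simp only [sub_self]; positivity
      · have hps : ¬ ((p : ℤ) ∣ s) := by
          intro h
          apply hd
          rw [hn, ← Int.natCast_dvd, hs]
          exact Dvd.dvd.mul_right h s
        have hcop : s.gcd p = 1 := by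
          rw [← Int.isCoprime_iff_gcd_eq_one]
          exact ((Nat.prime_iff_prime_int.1 hpp).coprime_iff_not_dvd.2 hps).symm
        have h1 := jacobiSym.sq_one hcop
        have h2 : ((jacobiSym s p : ℤ) : ℝ) ^ 2 = 1 := by exact_mod_cast h1
        rw [h2]; norm_num
    have hsum : (Q.card : ℝ) - ((Q.filter (fun p => p ∣ n)).card : ℝ) ≤ ∑ p ∈ Q, a p q.1 * a p q.2 := by
      refine le_trans (le_of_eq ?_) (Finset.sum_le_sum hterm1)
      rw [Finset.sum_sub_distrib, Finset.card_eq_sum_ones, Finset.card_eq_sum_ones]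
      push_cast
      rw [Finset.sum_filter]
    have hdv := sqp_dvd w (u ^ 4) hn0
    rw [← hQ] at hdv
    have hln : Real.log n ≤ 2 * A * Real.log R := by
      have e1 : (n : ℝ) = |(D q.1 : ℝ)| * |(D q.2 : ℝ)| := by
        rw [hn, ← abs_mul, ← Int.cast_mul, Nat.cast_natAbs, Int.cast_abs]
      have e2 : (n : ℝ) ≤ R ^ A * R ^ A := by
        rw [e1]
        exact mul_le_mul (hF.le _ hq1) (hF.le _ hq2) (abs_nonneg _) (by positivity)
      have e3 := Real.log_le_log (by exact_mod_cast Nat.pos_of_ne_zero hn0) e2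
      rw [Real.log_mul (by positivity) (by positivity), Real.log_rpow hR0] at e3
      linarith
    have hlR : Real.log R ≤ u * (8 / δ) := by
      have := Real.log_le_rpow_div hR0.le (show 0 < δ / 8 by positivity)
      rw [← hu] at this
      calc Real.log R ≤ u / (δ / 8) := this
        _ = u * (8 / δ) := by field_simp
    have hu64 : 64 * A / δ ≤ u := (le_max_right _ _).trans hMu
    have hfin : 2 * Real.log n ≤ (Q.card : ℝ) / 2 := by
      have g1 : 2 * Real.log n ≤ 4 * A * (u * (8 / δ)) := by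
        have : 2 * A * Real.log R ≤ 2 * A * (u * (8 / δ)) := mul_le_mul_of_nonneg_left hlR (by positivity)
        linarith
      have g2 : 4 * A * (u * (8 / δ)) = (64 * A / δ) * u / 2 := by ring
      have g3 : (64 * A / δ) * u ≤ u * u := mul_le_mul_of_nonneg_right hu64 hupos.le
      linarith
    linarith
  have hlow : (PP.card : ℝ) * ((Q.card : ℝ) / 2) ^ 2 ≤ ∑ x ∈ X, ∑ x' ∈ X, (∑ p ∈ Q, a p x * a p x') ^ 2 := by
    rw [← Finset.sum_product']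
    calc (PP.card : ℝ) * ((Q.card : ℝ) / 2) ^ 2 = ∑ q ∈ PP, ((Q.card : ℝ) / 2) ^ 2 := by
          rw [Finset.sum_const, nsmul_eq_mul]
      _ ≤ ∑ q ∈ PP, (∑ p ∈ Q, a p q.1 * a p q.2) ^ 2 :=
          Finset.sum_le_sum fun q hq => pow_le_pow_left₀ (by positivity) (hpair q hq) 2
      _ ≤ ∑ q ∈ X ×ˢ X, (∑ p ∈ Q, a p q.1 * a p q.2) ^ 2 :=
          Finset.sum_le_sum_of_subset_of_nonneg (Finset.filter_subset _ _) fun _ _ _ => sq_nonneg _
  rw [sqp_dc] at hlow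
  have hmain := hlow.trans hup
  -- conclusion
  have hQ1 : 1 ≤ (Q.card : ℝ) := (one_le_pow₀ hu1).trans hpi
  have hQpos : 0 < (Q.card : ℝ) := by linarith
  have hu2pos : 0 < u ^ 2 := by positivity
  have hRe : R ^ (-(δ / 4)) = (u ^ 2)⁻¹ := by rw [hu2, Real.rpow_neg hR0.le]
  rw [hRe]
  have k1 : (X.card : ℝ) ^ 2 * (Q.card + 2 * C ^ 4 + 2) ≤ (X.card : ℝ) ^ 2 * ((3 + 2 * C ^ 4) * Q.card) := by
    refine mul_le_mul_of_nonneg_left ?_ (by positivity)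
    have : 0 ≤ C ^ 4 := by positivity
    nlinarith
  have k2 : (PP.card : ℝ) * (Q.card : ℝ) ^ 2 ≤ (12 + 8 * C ^ 4) * (X.card : ℝ) ^ 2 * Q.card := by
    linarith
  have k3 : (PP.card : ℝ) * (Q.card : ℝ) ≤ (12 + 8 * C ^ 4) * (X.card : ℝ) ^ 2 := by
    have : (PP.card : ℝ) * (Q.card : ℝ) * Q.card ≤ (12 + 8 * C ^ 4) * (X.card : ℝ) ^ 2 * Q.card := by
      linarith
    exact le_of_mul_le_mul_right this hQpos
  rw [← div_eq_mul_inv, le_div_iff₀ hu2pos]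
  refine le_trans ?_ k3
  exact mul_le_mul_of_nonneg_left hpi (by positivity)

end Pool.Agent.PP5LR
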