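import Pool.Agent.PP5LR.Fin
import Pool.Agent.PP5LR.Fmy
import Pool.Agent.PP5LR.Rts
import Pool.Agent.PP5LR.Vwl
import Pool.Agent.LB.Defs

/-!
# Std: `LB.StD`
-/

set_option autoImplicit false

namespace Pool.Agent.PP5LR

open Finset Pool.Agent.PP5L Pool.Agent.PP5LB

theorem std_rr (D : ℤ) {n : ℕ} (hn : Odd n) : rr (4 * D) n = rr D n := by
  unfold rr
  apply Finset.sum_congr rfl
  intro d hd
  rw [Finset.mem_filter, Nat.mem_divisors] at hd
  have hdo : Odd d := Odd.of_dvd_nat hn hd.1.1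
  have h4 : jacobiSym 4 d = 1 := by
    have : (4 : ℤ) = 2 ^ 2 := by norm_num
    rw [this]
    apply jacobiSym.sq_one'
    have h2 : Nat.Coprime 2 d := by
      rw [Nat.coprime_two_left]; exact hdo
    simpa [Int.gcd] using h2
  unfold jj
  rw [jacobiSym.mul_left, h4, one_mul]

open Classical in
theorem std_sq (D : ℤ) {n : ℕ} (hn : Odd n) (hD : Int.gcd D n = 1) :
    rr D n ≤ (((range n).filter (fun s : ℕ => (n : ℤ) ∣ (s : ℤ) ^ 2 - D)).card : ℝ) := by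
  have h1 : (0 : ℤ) ^ 2 - 4 * (-D) = 4 * D := by ring
  have h2 : Int.gcd ((0 : ℤ) ^ 2 - 4 * (-D)) n = 1 := by
    rw [h1]
    have h4 : Int.gcd 4 (n : ℤ) = 1 := by
      have : Nat.Coprime 4 n := by
        have h2 : Nat.Coprime 2 n := by rw [Nat.coprime_two_left]; exact hn
        exact Nat.Coprime.mul_left h2 h2
      simpa [Int.gcd] using this
    exact Int.isCoprime_iff_gcd_eq_one.1
      (IsCoprime.mul_left (Int.isCoprime_iff_gcd_eq_one.2 h4) (Int.isCoprime_iff_gcd_eq_one.2 hD))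
  have h3 := rts 0 (-D) n hn h2
  rw [h1, std_rr D hn] at h3
  refine h3.trans (le_of_eq ?_)
  congr 2
  apply Finset.filter_congr
  intro s _
  have : (s : ℤ) ^ 2 - 0 * s + -D = (s : ℤ) ^ 2 - D := by ring
  rw [this]

theorem std_JJ {w : ℕ} (hw : 2 ≤ w) (D : ℤ) (N : ℕ) : JJ w D N ≤ ((LB.Sd w D N).card : ℝ) := by
  classical
  unfold JJ
  have hodd : ∀ n : ℕ, Rf (w : ℝ) n → Odd n := by
    intro n h
    rw [← Nat.not_even_iff_odd]
    intro he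
    have := h 2 Nat.prime_two he.two_dvd
    have : w < 2 := by exact_mod_cast this
    omega
  have h1 : ∀ n ∈ (Ioc (N / 2) N).filter (fun n : ℕ => Rf (w : ℝ) n ∧ Int.gcd D (n : ℤ) = 1),
      rr D n ≤ (((LB.Sd w D N).filter (fun p => p.1 = n)).card : ℝ) := by
    intro n hn
    rw [Finset.mem_filter, Finset.mem_Ioc] at hn
    obtain ⟨⟨hn1, hn2⟩, hn3, hn4⟩ := hn
    refine (std_sq D (hodd n hn3) hn4).trans ?_
    have : ((range n).filter (fun s : ℕ => (n : ℤ) ∣ (s : ℤ) ^ 2 - D)).card ≤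
        ((LB.Sd w D N).filter (fun p => p.1 = n)).card := by
      apply Finset.card_le_card_of_injOn (fun s => (n, s))
      · intro s hs
        rw [Finset.mem_coe, Finset.mem_filter, Finset.mem_range] at hs
        rw [Finset.mem_coe, Finset.mem_filter]
        refine ⟨?_, rfl⟩
        unfold LB.Sd
        rw [Finset.mem_filter, Finset.mem_product, Finset.mem_Ioc, Finset.mem_range]
        refine ⟨⟨⟨hn1, hn2⟩, by simp only; omega⟩, hs.1, hn4, ?_, hs.2⟩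
        intro q hq hqn
        have := hn3 q hq hqn
        exact_mod_cast this
      · intro a _ b _ hab
        exact (Prod.mk.inj hab).2
    exact_mod_cast this
  refine (Finset.sum_le_sum h1).trans ?_
  have h2 : ∑ n ∈ (Ioc (N / 2) N).filter (fun n : ℕ => Rf (w : ℝ) n ∧ Int.gcd D (n : ℤ) = 1),
      ((LB.Sd w D N).filter (fun p => p.1 = n)).card ≤ (LB.Sd w D N).card := by
    rw [← Finset.card_biUnion]
    · apply Finset.card_le_card
      intro p hp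
      rw [Finset.mem_biUnion] at hp
      obtain ⟨n, -, hn⟩ := hp
      exact (Finset.mem_filter.1 hn).1
    · intro a _ b _ hab
      rw [Function.onFun, Finset.disjoint_left]
      intro p hp hq
      exact hab ((Finset.mem_filter.1 hp).2.symm.trans (Finset.mem_filter.1 hq).2)
  exact_mod_cast h2

theorem stD : LB.StD := by
  obtain ⟨e, f, hfam⟩ := fmy
  obtain ⟨ε0, c, w0, hε0, hc, hw0, hld⟩ := ldx (1 / 400) 14 5 (by norm_num) (by norm_num) (by norm_num)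
  obtain ⟨cm, hcm, hmer⟩ := vwl
  refine ⟨c * cm / 2, ε0, max 2 ⌈w0⌉₊, 1, by positivity, hε0, le_max_left _ _, ?_⟩
  intro w cc hw hres h hh a ha ha1
  have hw2 : 2 ≤ w := (le_max_left _ _).trans hw
  have hww : w0 ≤ (w : ℝ) := (Nat.le_ceil w0).trans (by exact_mod_cast (le_max_right _ _).trans hw)
  have hw2' : (2 : ℝ) ≤ (w : ℝ) := by exact_mod_cast hw2
  obtain ⟨R0, hR0, hld⟩ := hld (w : ℝ) hww
  have hA1 : 1 ≤ Ah h LB.xs 1 := by
    have : Ah h LB.xs 1 = (h : ℤ) := by simp [Ah, LB.xs]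
    rw [this]
    exact_mod_cast hh
  obtain ⟨r1, hfam⟩ := hfam (Ah h LB.xs) hA1 w cc hw2 hres
  have hh1 : (1 : ℝ) ≤ (h : ℝ) := by exact_mod_cast hh
  -- conditions on r
  have hah : 0 < a * (h : ℝ) ^ 2 := by positivity
  refine ⟨max (max r1 ⌈R0⌉₊) (max ⌈2 / (a * (h : ℝ) ^ 2)⌉₊ ⌈(h : ℝ) ^ 2⌉₊ + 1), ?_⟩
  intro r hr Y hYX hY
  have hr1 : r1 ≤ r := (le_max_left _ _).trans ((le_max_left _ _).trans hr)
  have hrR : R0 ≤ (r : ℝ) := (Nat.le_ceil R0).trans (by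
    exact_mod_cast (le_max_right _ _).trans ((le_max_left _ _).trans hr))
  have hr2 : 2 / (a * (h : ℝ) ^ 2) ≤ (r : ℝ) := (Nat.le_ceil _).trans (by
    have : ⌈2 / (a * (h : ℝ) ^ 2)⌉₊ ≤ r := by
      have h1 := (le_max_right (max r1 ⌈R0⌉₊) (max ⌈2 / (a * (h : ℝ) ^ 2)⌉₊ ⌈(h : ℝ) ^ 2⌉₊ + 1)).trans hr
      have h2 := le_max_left ⌈2 / (a * (h : ℝ) ^ 2)⌉₊ ⌈(h : ℝ) ^ 2⌉₊
      omega
    exact_mod_cast this)
  have hr3 : (h : ℝ) ^ 2 ≤ (r : ℝ) := (Nat.le_ceil _).trans (by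
    have : ⌈(h : ℝ) ^ 2⌉₊ ≤ r := by
      have h1 := (le_max_right (max r1 ⌈R0⌉₊) (max ⌈2 / (a * (h : ℝ) ^ 2)⌉₊ ⌈(h : ℝ) ^ 2⌉₊ + 1)).trans hr
      have h2 := le_max_right ⌈2 / (a * (h : ℝ) ^ 2)⌉₊ ⌈(h : ℝ) ^ 2⌉₊
      omega
    exact_mod_cast this)
  have hrp : (1 : ℝ) ≤ (r : ℝ) := hR0.trans hrR
  set M : ℝ := a * (h * r : ℝ) ^ 2 with hM
  have hM1 : 2 * (r : ℝ) ≤ M := by
    have h1 : 2 ≤ (r : ℝ) * (a * (h : ℝ) ^ 2) := by
      rw [div_le_iff₀ hah] at hr2; exact hr2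
    have e : M = (r : ℝ) * ((r : ℝ) * (a * (h : ℝ) ^ 2)) := by rw [hM]; ring
    rw [e]
    have := mul_le_mul_of_nonneg_left h1 (by linarith : (0 : ℝ) ≤ r)
    linarith
  have hN1 : (M : ℝ) / 2 ≤ (⌊M⌋₊ : ℝ) := by
    have := (Nat.lt_floor_add_one M).le
    linarith
  have hN2 : (⌊M⌋₊ : ℝ) ≤ (r : ℝ) ^ (5 : ℝ) := by
    have h1 : (⌊M⌋₊ : ℝ) ≤ M := Nat.floor_le (by positivity)
    have h2 : M ≤ (r : ℝ) ^ 5 := by
      have e : M = a * ((h : ℝ) ^ 2 * (r : ℝ) ^ 2) := by rw [hM]; ring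
      have h3 : (h : ℝ) ^ 2 * (r : ℝ) ^ 2 ≤ r * (r : ℝ) ^ 2 := mul_le_mul_of_nonneg_right hr3 (by positivity)
      have h4 : a * ((h : ℝ) ^ 2 * (r : ℝ) ^ 2) ≤ 1 * ((h : ℝ) ^ 2 * (r : ℝ) ^ 2) :=
        mul_le_mul_of_nonneg_right ha1 (by positivity)
      have h5 : (r : ℝ) * (r : ℝ) ^ 2 ≤ (r : ℝ) ^ 5 := by
        have : (r : ℝ) ^ 3 ≤ (r : ℝ) ^ 5 := pow_le_pow_right₀ hrp (by norm_num)
        calc (r : ℝ) * (r : ℝ) ^ 2 = (r : ℝ) ^ 3 := by ring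
          _ ≤ _ := this
      rw [e]; linarith
    have h6 : (r : ℝ) ^ (5 : ℝ) = (r : ℝ) ^ 5 := by
      rw [← Real.rpow_natCast]; norm_num
    rw [h6]; linarith
  have hmain := hld (r : ℝ) hrR (Fin 10 → ℤ) (LB.Fm h w cc r) DD e f (hfam r hr1) ⌊M⌋₊ (by linarith) hN2 Y hYX hY
  have hX0 : (0 : ℝ) ≤ (LB.Fm h w cc r).card := Nat.cast_nonneg _
  have hlog : 0 < Real.log (w : ℝ) := Real.log_pos (by linarith)
  have hfin : c * cm / 2 * (LB.Fm h w cc r).card * (M / Real.log w) ≤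
      c * (LB.Fm h w cc r).card * (⌊M⌋₊ : ℝ) * Vw w := by
    have h1 : M / 2 * (cm / Real.log w) ≤ (⌊M⌋₊ : ℝ) * Vw w :=
      mul_le_mul hN1 (hmer w hw2') (by positivity) (Nat.cast_nonneg _)
    calc c * cm / 2 * (LB.Fm h w cc r).card * (M / Real.log w)
        = c * (LB.Fm h w cc r).card * (M / 2 * (cm / Real.log w)) := by ring
      _ ≤ c * (LB.Fm h w cc r).card * ((⌊M⌋₊ : ℝ) * Vw w) := mul_le_mul_of_nonneg_left h1 (by positivity)
      _ = _ := by ring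
  refine hfin.trans (hmain.trans ?_)
  refine (Finset.sum_le_sum (fun x _ => std_JJ hw2 (DD x) _)).trans (le_of_eq ?_)
  apply Finset.sum_congr _ (fun _ _ => rfl)
  ext x
  simp only [Finset.mem_sdiff]

end Pool.Agent.PP5LR
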