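import Pool.Agent.PP5LB.Defs
import Pool.Agent.PP5LB.Bsc
import Pool.Agent.PP5LB.Cvt
import Pool.Agent.PP5C.Crt

/-!
# Vcr: the Chinese remainder theorem for the classes `VM q` (difficulty 3)

`SV q φ` = the sum of `φ` over the representatives in `[0, q) ^ 10` of the classes `VM q` (`PP5LB.Cl q x` = `q ∣ FF x` and
`(x1, x6, x7)` unimodular modulo `q`).  `Cl_sqf`: for `q` squarefree `Cl q x` iff `Cl p x` for all primes `p ∣ q` (`p`, `p'` coprime: divisibility by the
product; for the unimodularity: `Cl p x` for a prime `p` means that `p` does not divide all of `x1, x6, x7`; `Int.gcd` / Bezout).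
`vcr`: `PP5C.crt_sqf` (`PP5C.cub (Fin 10) q` is the same cube) with `φ' p x = if Cl p x then φ p x else 0`.
`sv_VM`: `PP5LB.Cvt` (`sum_cube`) with `f y = if y ∈ VM q then φ (lift y) else 0`; `red q x ∈ VM q ↔ Cl q x` (`exists_lift`, `red_mem_of_Cl`, `mem_VM`).
-/

set_option autoImplicit false

namespace Pool.Agent.PP5LR

open Finset Pool.Agent.PP5L Pool.Agent.PP5LB

open Classical in
noncomputable def SV (q : ℕ) (φ : (Fin 10 → ℤ) → ℝ) : ℝ :=
  ∑ x ∈ (Fintype.piFinset (fun _ : Fin 10 => Ico (0 : ℤ) (q : ℤ))).filter (fun x => Cl q x), φ x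

private theorem Vcr_congr {q : ℕ} {x y : Fin 10 → ℤ} (h : ∀ j, (q : ℤ) ∣ x j - y j) (hx : Cl q x) :
    Cl q y := by
  obtain ⟨h1, a, b, d, e, h2⟩ := hx
  refine ⟨?_, ?_⟩
  · have h3 : red q x = red q y := by
      funext j
      have h4 := (ZMod.intCast_zmod_eq_zero_iff_dvd (x j - y j) q).2 (h j)
      push_cast at h4
      exact sub_eq_zero.1 h4
    have h5 := red_FF (M := q) (x := x)
    have h6 := red_FF (M := q) (x := y)
    rw [h3, h6, (ZMod.intCast_zmod_eq_zero_iff_dvd (FF x) q).2 h1] at h5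
    exact (ZMod.intCast_zmod_eq_zero_iff_dvd (FF y) q).1 h5
  · obtain ⟨k1, hk1⟩ := h 1
    obtain ⟨k6, hk6⟩ := h 6
    obtain ⟨k7, hk7⟩ := h 7
    refine ⟨a, b, d, e + a * k1 + b * k6 + d * k7, ?_⟩
    linear_combination h2 - a * hk1 - b * hk6 - d * hk7

theorem Cl_sqf {q : ℕ} (hq : Squarefree q) (x : Fin 10 → ℤ) : Cl q x ↔ ∀ p ∈ q.primeFactors, Cl p x := by
  constructor
  · rintro ⟨h1, a, b, d, e, h2⟩ p hp
    obtain ⟨k, hk⟩ := Nat.dvd_of_mem_primeFactors hp
    have hk' : (q : ℤ) = p * k := by exact_mod_cast hk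
    refine ⟨(Dvd.intro _ hk'.symm).trans h1, a, b, d, e * k, ?_⟩
    rw [hk'] at h2
    linear_combination h2
  · intro h
    have hq0 : q ≠ 0 := hq.ne_zero
    refine ⟨?_, ?_⟩
    · have h1 : ((∏ p ∈ q.primeFactors, p : ℕ) : ℤ) ∣ FF x := by
        push_cast
        apply Finset.prod_dvd_of_coprime
        · intro p hp p' hp' hne
          have hp1 := Nat.prime_of_mem_primeFactors (Finset.mem_coe.1 hp)
          have hp2 := Nat.prime_of_mem_primeFactors (Finset.mem_coe.1 hp')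
          exact Nat.isCoprime_iff_coprime.2 ((Nat.coprime_primes hp1 hp2).2 hne)
        · intro p hp
          exact (h p hp).1
      rw [Nat.prod_primeFactors_of_squarefree hq] at h1
      exact h1
    · -- no prime divides `x1, x6, x7, q`
      set g1 : ℤ := (Int.gcd (x 1) (x 6) : ℤ) with hg1
      set g2 : ℤ := (Int.gcd (x 7) (q : ℤ) : ℤ) with hg2
      have hg : Int.gcd g1 g2 = 1 := by
        by_contra hne
        obtain ⟨p, hp, hpg⟩ := Nat.exists_prime_and_dvd hne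
        have hpg' : (p : ℤ) ∣ (Int.gcd g1 g2 : ℤ) := by exact_mod_cast hpg
        have hp1 : (p : ℤ) ∣ g1 := hpg'.trans (Int.gcd_dvd_left ..)
        have hp2 : (p : ℤ) ∣ g2 := hpg'.trans (Int.gcd_dvd_right ..)
        have d1 : (p : ℤ) ∣ x 1 := hp1.trans (Int.gcd_dvd_left ..)
        have d6 : (p : ℤ) ∣ x 6 := hp1.trans (Int.gcd_dvd_right ..)
        have d7 : (p : ℤ) ∣ x 7 := hp2.trans (Int.gcd_dvd_left ..)
        have dq : (p : ℤ) ∣ (q : ℤ) := hp2.trans (Int.gcd_dvd_right ..)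
        have dq' : p ∣ q := by exact_mod_cast dq
        obtain ⟨-, a, b, d, e, h2⟩ := h p (Nat.mem_primeFactors.2 ⟨hp, dq', hq0⟩)
        have h3 : (p : ℤ) ∣ 1 := by
          rw [← h2]
          exact dvd_add (dvd_add (dvd_add (d1.mul_left _) (d6.mul_left _)) (d7.mul_left _))
            (dvd_mul_left _ _)
        have h4 : p ∣ 1 := by exact_mod_cast h3
        exact hp.one_lt.ne' (Nat.dvd_one.1 h4)
      have e1 := Int.gcd_eq_gcd_ab (x 1) (x 6)
      have e2 := Int.gcd_eq_gcd_ab (x 7) (q : ℤ)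
      have e3 := Int.gcd_eq_gcd_ab g1 g2
      rw [hg, hg1, hg2, e1, e2] at e3
      refine ⟨Int.gcdA (x 1) (x 6) * Int.gcdA g1 g2, Int.gcdB (x 1) (x 6) * Int.gcdA g1 g2,
        Int.gcdA (x 7) q * Int.gcdB g1 g2, Int.gcdB (x 7) q * Int.gcdB g1 g2, ?_⟩
      rw [hg1, hg2, e1, e2]
      push_cast at e3
      linear_combination -e3

private theorem Vcr_sv (q : ℕ) (φ : (Fin 10 → ℤ) → ℝ) :
    SV q φ = ∑ x ∈ PP5C.cub (Fin 10) q,
      @ite ℝ (Cl q x) (Classical.propDecidable _) (φ x) 0 := by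
  unfold SV PP5C.cub
  rw [Finset.sum_filter]

theorem vcr {q : ℕ} (hq : Squarefree q) (φ : ℕ → (Fin 10 → ℤ) → ℝ)
    (hφ : ∀ p ∈ q.primeFactors, ∀ x y, (∀ j, (p : ℤ) ∣ x j - y j) → φ p x = φ p y) :
    SV q (fun x => ∏ p ∈ q.primeFactors, φ p x) = ∏ p ∈ q.primeFactors, SV p (φ p) := by
  classical
  have h1 := PP5C.crt_sqf (ι := Fin 10) q.primeFactors
    (fun l hl => Nat.prime_of_mem_primeFactors hl)
    (fun p x => @ite ℝ (Cl p x) (Classical.propDecidable _) (φ p x) 0) (by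
      intro p hp x y hxy
      have hyx : ∀ j, (p : ℤ) ∣ y j - x j := fun j => by
        have := hxy j
        rw [← neg_sub]
        exact (dvd_neg).mpr this
      show @ite ℝ (Cl p x) (Classical.propDecidable _) (φ p x) 0
        = @ite ℝ (Cl p y) (Classical.propDecidable _) (φ p y) 0
      by_cases hx : Cl p x
      · rw [if_pos hx, if_pos (Vcr_congr hxy hx), hφ p hp x y hxy]
      · rw [if_neg hx, if_neg (fun hy => hx (Vcr_congr hyx hy))])
  rw [Nat.prod_primeFactors_of_squarefree hq] at h1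
  rw [Vcr_sv]
  simp only [Vcr_sv]
  rw [← h1]
  refine Finset.sum_congr rfl fun x _ => ?_
  by_cases hx : Cl q x
  · rw [if_pos hx]
    refine Finset.prod_congr rfl fun p hp => ?_
    rw [if_pos ((Cl_sqf hq x).1 hx p hp)]
  · rw [if_neg hx]
    have h2 : ¬ ∀ p ∈ q.primeFactors, Cl p x := fun h => hx ((Cl_sqf hq x).2 h)
    push Not at h2
    obtain ⟨p, hp, hpx⟩ := h2
    exact (Finset.prod_eq_zero hp (if_neg hpx)).symm

/-- `φ` periodic modulo `q` -/
theorem sv_VM (q : ℕ) [NeZero q] (φ : (Fin 10 → ℤ) → ℝ) :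
    SV q φ = ∑ y ∈ VM q, φ (fun j => ((y j).val : ℤ)) := by
  classical
  have h1 := sum_cube (M := q) (fun y => if y ∈ VM q then φ (fun j => ((y j).val : ℤ)) else 0)
  rw [Finset.sum_ite_mem, Finset.univ_inter] at h1
  rw [← h1, Vcr_sv]
  unfold PP5C.cub
  refine Finset.sum_congr rfl fun x hx => ?_
  have h2 : red q x ∈ VM q ↔ Cl q x := by
    constructor
    · intro h
      obtain ⟨c, hc1, hc2⟩ := exists_lift h
      exact Vcr_congr (red_eq_iff.1 hc1) hc2
    · exact red_mem_of_Cl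
  have h3 : (fun j => (((red q x) j).val : ℤ)) = x := by
    funext j
    rw [Fintype.mem_piFinset] at hx
    have h4 := Finset.mem_Ico.1 (hx j)
    show ((((x j : ℤ) : ZMod q)).val : ℤ) = x j
    rw [ZMod.val_intCast]
    exact Int.emod_eq_of_lt h4.1 h4.2
  by_cases hC : Cl q x
  · rw [if_pos hC, if_pos (h2.2 hC), h3]
  · rw [if_neg hC, if_neg (fun h => hC (h2.1 h))]

end Pool.Agent.PP5LR
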