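import Pool.Agent.PP5LR.Defs
import Pool.Agent.PP5LR.Vcr
import Pool.Agent.PP5LB.LcE
import Pool.Agent.PP5LB.Vlo

/-!
# Vlc: the local averages (difficulty 2)

`sv_VM`; `PP5LB.lcE` (`quadraticChar (ZMod l) (DD y)` for `y = red l x` is `legendreSym l (DD x) = jacobiSym (DD x) l`, `red_DD`; for `l` prime
`jacobiSym.legendreSym.to_jacobiSym`), `PP5LB.lcF`, `PP5LB.vlo_prime`.
-/

set_option autoImplicit false

namespace Pool.Agent.PP5LR

open Finset Pool.Agent.PP5L Pool.Agent.PP5LB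

private theorem Vlc_red {l : ℕ} [NeZero l] (y : Fin 10 → ZMod l) :
    (((DD (fun j => ((y j).val : ℤ)) : ℤ)) : ZMod l) = DD y := by
  have h1 : red l (fun j => ((y j).val : ℤ)) = y := by
    funext j
    show (((((y j).val : ℕ) : ℤ)) : ZMod l) = y j
    rw [Int.cast_natCast, ZMod.natCast_zmod_val]
  rw [← red_DD, h1]

theorem vlc_n {l : ℕ} (hl : l.Prime) : (l : ℝ) ^ 9 / 2 ≤ SV l (fun _ => 1) := by
  haveI : NeZero l := ⟨hl.ne_zero⟩
  rw [sv_VM l (fun _ => 1), Finset.sum_const, nsmul_eq_mul, mul_one]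
  exact vlo_prime hl

theorem vlc_c {l : ℕ} (hl : l.Prime) (h2 : l ≠ 2) : |SV l (fun x => jj (DD x) l)| ≤ 7 * (l : ℝ) ^ 8 := by
  haveI : NeZero l := ⟨hl.ne_zero⟩
  haveI : Fact l.Prime := ⟨hl⟩
  rw [sv_VM l (fun x => jj (DD x) l)]
  have h1 : ∑ y ∈ VM l, jj (DD (fun j => ((y j).val : ℤ))) l
      = ∑ y ∈ VM l, ((quadraticChar (ZMod l) (DD y) : ℤ) : ℝ) := by
    refine Finset.sum_congr rfl fun y _ => ?_
    unfold jj
    rw [← jacobiSym.legendreSym.to_jacobiSym, legendreSym, Vlc_red y]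
  rw [h1]
  exact lcE h2

open Classical in
theorem vlc_d {l : ℕ} (hl : l.Prime) (h2 : l ≠ 2) :
    SV l (fun x => if (l : ℤ) ∣ DD x then 1 else 0) ≤ 6 * (l : ℝ) ^ 8 := by
  haveI : NeZero l := ⟨hl.ne_zero⟩
  haveI : Fact l.Prime := ⟨hl⟩
  rw [sv_VM l (fun x => if (l : ℤ) ∣ DD x then 1 else 0)]
  have h1 : ∑ y ∈ VM l, (if (l : ℤ) ∣ DD (fun j => ((y j).val : ℤ)) then (1 : ℝ) else 0)
      = ∑ y ∈ VM l, (if DD y = 0 then (1 : ℝ) else 0) := by
    refine Finset.sum_congr rfl fun y _ => ?_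
    have h3 : (l : ℤ) ∣ DD (fun j => ((y j).val : ℤ)) ↔ DD y = 0 := by
      rw [← ZMod.intCast_zmod_eq_zero_iff_dvd, Vlc_red y]
    simp only [h3]
  rw [h1, Finset.sum_boole]
  exact_mod_cast lcF h2

end Pool.Agent.PP5LR
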